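import Pool.Agent.Y687.Desc2
import Pool.Agent.TH942.FG

/-!
Halving of points and finiteness.
-/

set_option autoImplicit false
set_option linter.style.haveILetI false

open WeierstrassCurve WeierstrassCurve.Affine

namespace Pool.Agent.Y687

open Pool.Agent.TH942 (sw SPt sw_eqn sw_nonsing sfg)

variable {m p : ℕ}

/-- the class of `x` -/
theorem Hyp.x_class (H : Hyp m p) {x y : ℚ} (hx : x ≠ 0)
    (h : y ^ 2 = x * (x ^ 2 + 13 * ((p * m : ℕ) : ℚ) * x + 128 * ((p * m : ℕ) : ℚ) ^ 2)) :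
    IsSquare x ∨ IsSquare (2 * x) := by
  obtain ⟨d, w, e, N, h1, h2, h3, h4, h5, h6⟩ := hom_space (13 * ((p * m : ℕ) : ℤ))
    (128 * ((p * m : ℕ) : ℤ) ^ 2) (X := x) (Y := y) hx (by rw [h]; push_cast; ring)
  have he : (e : ℚ) ≠ 0 := by exact_mod_cast h2.ne'
  rcases H.cls1 h1 h2 h4 h6 with rfl | rfl
  · left
    refine ⟨w / e, ?_⟩
    rw [h5]
    push_cast
    field_simp
  · right
    refine ⟨2 * w / e, ?_⟩
    rw [h5]
    push_cast
    field_simp

/-- the class of `X` -/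
theorem Hyp.X_class (H : Hyp m p) {u v : ℚ}
    (h : v ^ 2 = u ^ 4 + 13 * ((p * m : ℕ) : ℚ) * u ^ 2 + 128 * ((p * m : ℕ) : ℚ) ^ 2) :
    IsSquare (13 * ((p * m : ℕ) : ℚ) + 2 * u ^ 2 + 2 * v) ∨
      IsSquare (13 * ((p * m : ℕ) : ℚ) + 2 * u ^ 2 - 2 * v) := by
  have hM0 : ((p * m : ℕ) : ℚ) ≠ 0 := by
    have := H.sqf.ne_zero
    exact_mod_cast this
  have hprod : (13 * ((p * m : ℕ) : ℚ) + 2 * u ^ 2 + 2 * v) *
      (13 * ((p * m : ℕ) : ℚ) + 2 * u ^ 2 - 2 * v) = -343 * ((p * m : ℕ) : ℚ) ^ 2 := by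
    linear_combination (-4 : ℚ) * h
  obtain ⟨X, hX⟩ : ∃ X, X = 13 * ((p * m : ℕ) : ℚ) + 2 * u ^ 2 + 2 * v := ⟨_, rfl⟩
  have hX0 : X ≠ 0 := by
    rintro rfl
    rw [← hX, zero_mul] at hprod
    have : 343 * ((p * m : ℕ) : ℚ) ^ 2 = 0 := by linear_combination hprod
    rcases mul_eq_zero.1 this with h1 | h1
    · norm_num at h1
    · exact pow_ne_zero 2 hM0 h1
  obtain ⟨d, w, e, N, h1, h2, h3, h4, h5, h6⟩ := hom_space (-26 * ((p * m : ℕ) : ℤ))
    (-343 * ((p * m : ℕ) : ℤ) ^ 2) (X := X) (Y := 2 * u * X) hX0 (by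
      rw [hX]
      push_cast at h ⊢
      linear_combination (-4 * (13 * ((p : ℚ) * m) + 2 * u ^ 2 + 2 * v)) * h)
  have he : (e : ℚ) ≠ 0 := by exact_mod_cast h2.ne'
  have hw : (w : ℚ) ≠ 0 := by exact_mod_cast h3
  rcases H.cls2 h1 h4 h6 with rfl | rfl
  · left
    refine ⟨w / e, ?_⟩
    rw [← hX, h5]
    push_cast
    field_simp
  · right
    refine ⟨7 * ((p * m : ℕ) : ℚ) * e / w, ?_⟩
    rw [← hX, h5] at hprod
    push_cast at hprod ⊢
    field_simp at hprod ⊢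
    linear_combination (-1 : ℚ) * hprod / 7

theorem pt_congr {A B : ℚ} {x y x' y' : ℚ} (h : (sw A B).toAffine.Nonsingular x y)
    (h' : (sw A B).toAffine.Nonsingular x' y') (e1 : x = x') (e2 : y = y') :
    (Point.some x y h : SPt A B) = Point.some x' y' h' := by
  subst e1 e2
  rfl

theorem disc_ne {M : ℚ} (hM : M ≠ 0) :
    4 * (5805 * M ^ 2) ^ 3 + 27 * (-285714 * M ^ 3) ^ 2 ≠ 0 := by
  have : 4 * (5805 * M ^ 2) ^ 3 + 27 * (-285714 * M ^ 3) ^ 2 = (2 ^ 14 * 3 ^ 12 * 7 ^ 3) * M ^ 6 := by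
    ring
  rw [this]
  exact mul_ne_zero (by norm_num) (pow_ne_zero _ hM)

/-- halving -/
theorem halve {M : ℚ} (hM : M ≠ 0) {u v s : ℚ} (hv : v ^ 2 = u ^ 4 + 13 * M * u ^ 2 + 128 * M ^ 2)
    (hs : s ^ 2 = 13 * M + 2 * u ^ 2 + 2 * v)
    (hP : (sw (5805 * M ^ 2) (-285714 * M ^ 3)).toAffine.Nonsingular (9 * u ^ 2 + 39 * M)
      (27 * (u * v))) :
    ∃ Q : SPt (5805 * M ^ 2) (-285714 * M ^ 3), 2 • Q = Point.some _ _ hP := by
  obtain ⟨t, ht⟩ : ∃ t, t = u ^ 2 + v + u * s := ⟨_, rfl⟩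
  have hprod : t * (u ^ 2 + v - u * s) = 128 * M ^ 2 := by
    rw [ht]
    linear_combination (-u ^ 2) * hs + hv
  have ht0 : t ≠ 0 := by
    intro h0
    rw [h0, zero_mul] at hprod
    exact mul_ne_zero (by norm_num) (pow_ne_zero 2 hM) hprod.symm
  have hs0 : s ≠ 0 := by
    intro h0
    rw [h0] at hs
    have h1 : 343 * M ^ 2 = 0 := by
      linear_combination (13 * M + 2 * u ^ 2 - 2 * v) * hs - 4 * hv
    rcases mul_eq_zero.1 h1 with h2 | h2
    · norm_num at h2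
    · exact pow_ne_zero 2 hM h2
  -- the equation of `t`
  have hq : t ^ 2 + (13 * M - s ^ 2) * t + 128 * M ^ 2 = 0 := by
    rw [← hprod, hs, ht]; ring
  have hQe : (27 * (s * t)) ^ 2 = (9 * t + 39 * M) ^ 3 + (5805 * M ^ 2) * (9 * t + 39 * M) +
      (-285714 * M ^ 3) := by
    linear_combination (-729 * t) * hq
  have hQ := sw_nonsing (disc_ne hM) hQe
  refine ⟨Point.some _ _ hQ, ?_⟩
  have hyne : (27 * (s * t)) ≠ 0 := mul_ne_zero (by norm_num) (mul_ne_zero hs0 ht0)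
  have hneg : (sw (5805 * M ^ 2) (-285714 * M ^ 3)).toAffine.negY (9 * t + 39 * M) (27 * (s * t)) =
      -(27 * (s * t)) := by
    simp [negY, sw]
  have hY : (27 * (s * t)) ≠
      (sw (5805 * M ^ 2) (-285714 * M ^ 3)).toAffine.negY (9 * t + 39 * M) (27 * (s * t)) := by
    rw [hneg]
    intro h
    apply hyne
    linarith
  have hsl : (sw (5805 * M ^ 2) (-285714 * M ^ 3)).toAffine.slope (9 * t + 39 * M) (9 * t + 39 * M)
      (27 * (s * t)) (27 * (s * t)) = 3 * (u + s) := by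
    rw [slope_of_Y_ne rfl hY, hneg]
    have h0 : (27 * (s * t)) - -(27 * (s * t)) ≠ 0 := by
      have : (27 * (s * t)) - -(27 * (s * t)) = 2 * (27 * (s * t)) := by ring
      rw [this]
      exact mul_ne_zero (by norm_num) hyne
    rw [div_eq_iff h0]
    simp only [sw]
    have e1 : t * (t + 13 * M + u ^ 2 + v) = t * (s * (u + s)) := by
      rw [ht]
      linear_combination (-(u ^ 2 + v + u * s)) * hs
    linear_combination 81 * hq + 162 * e1 + 81 * t * hs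
  rw [two_nsmul, Point.add_self_of_Y_ne hY]
  refine pt_congr _ _ ?_ ?_
  · rw [hsl, addX]
    simp only [sw]
    rw [ht]
    linear_combination (9 : ℚ) * hs
  · rw [addY, negAddY, hsl, addX, negY]
    simp only [sw]
    rw [ht]
    linear_combination (-27 * (u + s)) * hs

/-- adding the point of order two -/
theorem add_T {M : ℚ} {x y : ℚ} (hx : x ≠ 0)
    (h : y ^ 2 = x * (x ^ 2 + 13 * M * x + 128 * M ^ 2))
    (hP : (sw (5805 * M ^ 2) (-285714 * M ^ 3)).toAffine.Nonsingular (9 * x + 39 * M) (27 * y))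
    (hT : (sw (5805 * M ^ 2) (-285714 * M ^ 3)).toAffine.Nonsingular (39 * M) 0) :
    ∃ (y' : ℚ) (hR : (sw (5805 * M ^ 2) (-285714 * M ^ 3)).toAffine.Nonsingular
      (9 * (128 * M ^ 2 / x) + 39 * M) (27 * y')),
      (Point.some _ _ hP : SPt (5805 * M ^ 2) (-285714 * M ^ 3)) + Point.some _ _ hT =
        Point.some _ _ hR := by
  have hX : 9 * x + 39 * M ≠ 39 * M := by
    intro h0
    apply hx
    linarith
  have hsl : (sw (5805 * M ^ 2) (-285714 * M ^ 3)).toAffine.slope (9 * x + 39 * M) (39 * M)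
      (27 * y) 0 = 3 * y / x := by
    rw [slope_of_X_ne hX]
    have : 9 * x + 39 * M - 39 * M = 9 * x := by ring
    rw [this]
    field_simp
    ring
  have e1 : (sw (5805 * M ^ 2) (-285714 * M ^ 3)).toAffine.addX (9 * x + 39 * M) (39 * M)
      ((sw (5805 * M ^ 2) (-285714 * M ^ 3)).toAffine.slope (9 * x + 39 * M) (39 * M) (27 * y) 0) =
      9 * (128 * M ^ 2 / x) + 39 * M := by
    rw [hsl, addX]
    simp only [sw]
    field_simp
    linear_combination 9 * h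
  rw [Point.add_of_X_ne hX]
  generalize_proofs pf
  revert pf
  rw [e1]
  generalize (sw (5805 * M ^ 2) (-285714 * M ^ 3)).toAffine.addY (9 * x + 39 * M) (39 * M) (27 * y)
      ((sw (5805 * M ^ 2) (-285714 * M ^ 3)).toAffine.slope (9 * x + 39 * M) (39 * M) (27 * y) 0) = Y3
  intro pf
  have e2 : Y3 = 27 * (Y3 / 27) := by field_simp
  refine ⟨Y3 / 27, by rw [← e2]; exact pf, ?_⟩
  exact pt_congr _ _ rfl e2

/-- a finitely generated abelian group equal to its double up to an element of order two -/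
theorem finite_of_halving {G : Type} [AddCommGroup G] (hG : AddGroup.FG G) (T : G)
    (hT : 2 • T = 0) (h : ∀ P : G, ∃ Q : G, 2 • Q = P ∨ 2 • Q = P + T) : Finite G := by
  haveI : Module.Finite ℤ G := Module.Finite.iff_addGroup_fg.2 hG
  set K := G ⧸ (AddSubgroup.zmultiples T) with hK
  haveI : Module.Finite ℤ K := by
    have hs : Function.Surjective (QuotientAddGroup.mk' (AddSubgroup.zmultiples T)) :=
      QuotientAddGroup.mk'_surjective _
    exact Module.Finite.of_surjective (QuotientAddGroup.mk' (AddSubgroup.zmultiples T)).toIntLinearMap hs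
  have hdiv : ∀ x : K, ∃ y : K, 2 • y = x := by
    intro x
    obtain ⟨P, rfl⟩ := QuotientAddGroup.mk'_surjective (AddSubgroup.zmultiples T) x
    obtain ⟨Q, hQ⟩ := h P
    refine ⟨QuotientAddGroup.mk' _ Q, ?_⟩
    rw [← map_nsmul]
    rcases hQ with hQ | hQ
    · rw [hQ]
    · rw [hQ, map_add]
      have : QuotientAddGroup.mk' (AddSubgroup.zmultiples T) T = 0 :=
        (QuotientAddGroup.eq_zero_iff T).2 (AddSubgroup.mem_zmultiples T)
      rw [this, add_zero]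
  have hN : (⊤ : Submodule ℤ K) ≤ (Ideal.span {(2 : ℤ)}) • (⊤ : Submodule ℤ K) := by
    intro x _
    obtain ⟨y, hy⟩ := hdiv x
    rw [← hy]
    have : (2 : ℕ) • y = (2 : ℤ) • y := by norm_cast
    rw [this]
    exact Submodule.smul_mem_smul (Ideal.subset_span rfl) trivial
  obtain ⟨r, hr1, hr2⟩ := Submodule.exists_sub_one_mem_and_smul_eq_zero_of_fg_of_le_smul _ _
    (Module.finite_def.1 inferInstance) hN
  have hr0 : r ≠ 0 := by
    rintro rfl
    rw [Ideal.mem_span_singleton] at hr1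
    omega
  have htor : IsAddTorsion G := by
    intro P
    rw [isOfFinAddOrder_iff_zsmul_eq_zero]
    refine ⟨2 * r, mul_ne_zero two_ne_zero hr0, ?_⟩
    have h1 : r • (QuotientAddGroup.mk' (AddSubgroup.zmultiples T) P) = 0 := hr2 _ trivial
    rw [← map_zsmul] at h1
    have h2 : r • P ∈ AddSubgroup.zmultiples T := (QuotientAddGroup.eq_zero_iff _).1 h1
    obtain ⟨n, hn⟩ := AddSubgroup.mem_zmultiples_iff.1 h2
    rw [mul_zsmul, ← hn, ← mul_zsmul, mul_comm, mul_zsmul]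
    have : (2 : ℤ) • T = 0 := by exact_mod_cast hT
    rw [this, smul_zero]
  exact AddCommGroup.finite_of_fg_isAddTorsion G htor

/-- the group of rational points is finite -/
theorem Hyp.finite_pt (H : Hyp m p) : Finite (SPt (5805 * ((p * m : ℕ) : ℚ) ^ 2)
    (-285714 * ((p * m : ℕ) : ℚ) ^ 3)) := by
  have hM0 : ((p * m : ℕ) : ℚ) ≠ 0 := by
    have := H.sqf.ne_zero
    exact_mod_cast this
  have hx_class : ∀ {x y : ℚ}, x ≠ 0 → y ^ 2 = x * (x ^ 2 + 13 * ((p * m : ℕ) : ℚ) * x +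
      128 * ((p * m : ℕ) : ℚ) ^ 2) → IsSquare x ∨ IsSquare (2 * x) := fun hx h => H.x_class hx h
  have hX_class : ∀ {u v : ℚ}, v ^ 2 = u ^ 4 + 13 * ((p * m : ℕ) : ℚ) * u ^ 2 +
      128 * ((p * m : ℕ) : ℚ) ^ 2 → IsSquare (13 * ((p * m : ℕ) : ℚ) + 2 * u ^ 2 + 2 * v) ∨
      IsSquare (13 * ((p * m : ℕ) : ℚ) + 2 * u ^ 2 - 2 * v) := fun h => H.X_class h
  generalize ((p * m : ℕ) : ℚ) = M at hM0 hx_class hX_class ⊢
  have hTe : (0 : ℚ) ^ 2 = (39 * M) ^ 3 + (5805 * M ^ 2) * (39 * M) + (-285714 * M ^ 3) := by ring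
  have hT := sw_nonsing (disc_ne hM0) hTe
  have hTT : 2 • (Point.some _ _ hT : SPt (5805 * M ^ 2) (-285714 * M ^ 3)) = 0 := by
    rw [two_nsmul]
    apply Point.add_self_of_Y_eq
    simp [negY, sw]
  -- points whose `x` is a nonzero square
  have hsq : ∀ (u y : ℚ), u ≠ 0 → ∀ (hP : (sw (5805 * M ^ 2) (-285714 * M ^ 3)).toAffine.Nonsingular
      (9 * u ^ 2 + 39 * M) (27 * y)),
      ∃ Q : SPt (5805 * M ^ 2) (-285714 * M ^ 3), 2 • Q = Point.some _ _ hP := by
    intro u y hu hP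
    have heq := sw_eqn.1 hP.1
    have hv : (y / u) ^ 2 = u ^ 4 + 13 * M * u ^ 2 + 128 * M ^ 2 := by
      field_simp
      linear_combination heq / 729
    have hy : y = u * (y / u) := by field_simp
    generalize y / u = v at hv hy
    subst hy
    rcases hX_class hv with ⟨s, hs⟩ | ⟨s, hs⟩
    · exact halve hM0 hv (s := s) (by rw [hs]; ring) hP
    · have hneg : -(Point.some _ _ hP : SPt (5805 * M ^ 2) (-285714 * M ^ 3)) =
          Point.some (9 * u ^ 2 + 39 * M) (27 * (u * -v)) (by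
            have h1 : (9 * u ^ 2 + 39 * M) ^ 3 + 5805 * M ^ 2 * (9 * u ^ 2 + 39 * M) + -285714 * M ^ 3 =
              (27 * (u * -v)) ^ 2 := by rw [← heq]; ring
            exact sw_nonsing (disc_ne hM0) h1.symm) := by
        rw [Point.neg_some]
        refine pt_congr _ _ rfl ?_
        simp [negY, sw]
      obtain ⟨Q, hQ⟩ := halve hM0 (u := u) (v := -v) (s := s) (by rw [neg_sq]; exact hv)
        (by rw [← sq] at hs; rw [← hs]; ring) (by
            have h1 : (9 * u ^ 2 + 39 * M) ^ 3 + 5805 * M ^ 2 * (9 * u ^ 2 + 39 * M) + -285714 * M ^ 3 =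
              (27 * (u * -v)) ^ 2 := by rw [← heq]; ring
            exact sw_nonsing (disc_ne hM0) h1.symm)
      refine ⟨-Q, ?_⟩
      rw [smul_neg, hQ, ← hneg, neg_neg]
  refine finite_of_halving (sfg (disc_ne hM0)) (Point.some _ _ hT) hTT ?_
  intro P
  rcases P with _ | ⟨X, Y, hP⟩
  · exact ⟨0, Or.inl (smul_zero _)⟩
  · obtain ⟨x, hx⟩ : ∃ x, x = (X - 39 * M) / 9 := ⟨_, rfl⟩
    obtain ⟨y, hy⟩ : ∃ y, y = Y / 27 := ⟨_, rfl⟩
    have hX : X = 9 * x + 39 * M := by rw [hx]; ring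
    have hY : Y = 27 * y := by rw [hy]; ring
    subst hX hY
    have heq := sw_eqn.1 hP.1
    have h1 : y ^ 2 = x * (x ^ 2 + 13 * M * x + 128 * M ^ 2) := by
      linear_combination heq / 729
    by_cases hx0 : x = 0
    · subst hx0
      have hy0 : y = 0 := by
        have : y ^ 2 = 0 := by rw [h1]; ring
        exact pow_eq_zero_iff (two_ne_zero) |>.1 this
      subst hy0
      refine ⟨0, Or.inr ?_⟩
      have : (Point.some _ _ hP : SPt (5805 * M ^ 2) (-285714 * M ^ 3)) = Point.some _ _ hT :=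
        pt_congr _ _ (by ring) (by ring)
      rw [this, smul_zero, ← two_nsmul, hTT]
    · rcases hx_class hx0 h1 with ⟨u, hu⟩ | ⟨u, hu⟩
      · have hu0 : u ≠ 0 := by
          rintro rfl
          apply hx0
          rw [hu]; ring
        have hu2 : x = u ^ 2 := by rw [hu]; ring
        subst hu2
        obtain ⟨Q, hQ⟩ := hsq u y hu0 hP
        exact ⟨Q, Or.inl hQ⟩
      · have hu0 : u ≠ 0 := by
          rintro rfl
          apply hx0
          linarith
        obtain ⟨y', hR, hadd⟩ := add_T hx0 h1 hP hT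
        have e1 : 128 * M ^ 2 / x = (16 * M / u) ^ 2 := by
          have : x = u ^ 2 / 2 := by linarith [hu, sq u]
          rw [this]
          field_simp
          ring
        rw [e1] at hR
        have hadd' : (Point.some _ _ hP : SPt (5805 * M ^ 2) (-285714 * M ^ 3)) +
            Point.some _ _ hT = Point.some _ _ hR := by
          rw [hadd]
          exact pt_congr _ _ (by rw [e1]) rfl
        obtain ⟨Q, hQ⟩ := hsq (16 * M / u) y' (div_ne_zero (mul_ne_zero (by norm_num) hM0) hu0) hR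
        exact ⟨Q, Or.inr (hQ.trans hadd'.symm)⟩

/-- finitely many rational points -/
theorem Hyp.finite_set (H : Hyp m p) : {q : ℚ × ℚ | q.2 ^ 2 = q.1 ^ 3 +
    ((5805 * ((p * m : ℕ) : ℤ) ^ 2 : ℤ) : ℚ) * q.1 +
      ((-285714 * ((p * m : ℕ) : ℤ) ^ 3 : ℤ) : ℚ)}.Finite := by
  haveI := H.finite_pt
  have hM0 : ((p * m : ℕ) : ℚ) ≠ 0 := by
    have := H.sqf.ne_zero
    exact_mod_cast this
  rw [← Set.finite_coe_iff]
  have key : ∀ q : {q : ℚ × ℚ | q.2 ^ 2 = q.1 ^ 3 + ((5805 * ((p * m : ℕ) : ℤ) ^ 2 : ℤ) : ℚ) * q.1 +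
      ((-285714 * ((p * m : ℕ) : ℤ) ^ 3 : ℤ) : ℚ)},
      (sw (5805 * ((p * m : ℕ) : ℚ) ^ 2) (-285714 * ((p * m : ℕ) : ℚ) ^ 3)).toAffine.Nonsingular
        q.1.1 q.1.2 := by
    rintro ⟨q, hq⟩
    refine sw_nonsing (disc_ne hM0) ?_
    have h1 : q.2 ^ 2 = q.1 ^ 3 + ((5805 * ((p * m : ℕ) : ℤ) ^ 2 : ℤ) : ℚ) * q.1 +
      ((-285714 * ((p * m : ℕ) : ℤ) ^ 3 : ℤ) : ℚ) := hq
    rw [h1]
    push_cast
    ring
  refine Finite.of_injective (fun q : {q : ℚ × ℚ | q.2 ^ 2 = q.1 ^ 3 +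
      ((5805 * ((p * m : ℕ) : ℤ) ^ 2 : ℤ) : ℚ) * q.1 +
      ((-285714 * ((p * m : ℕ) : ℤ) ^ 3 : ℤ) : ℚ)} =>
    (Point.some _ _ (key q) : SPt (5805 * ((p * m : ℕ) : ℚ) ^ 2) (-285714 * ((p * m : ℕ) : ℚ) ^ 3))) ?_
  intro q q' h
  have h1 := Point.some.inj h
  exact Subtype.ext (Prod.ext h1.1 h1.2)

end Pool.Agent.Y687
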