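import Pool.Agent.Y687.Aq
import Pool.Agent.Y687.Desc3

/-!
Weak BSD for the twists of `X_0(14)` by `p m`.
-/

set_option autoImplicit false
set_option linter.style.haveILetI false

open Finset

namespace Pool.Agent.Y687

open Pool.Agent.W97.MT (ap E14)

/-- inert primes -/
def Inert (q : ℕ) : Prop := q.Prime ∧ q % 8 = 5 ∧ (q % 7 = 3 ∨ q % 7 = 5 ∨ q % 7 = 6)

/-- split primes -/
def Split (p : ℕ) : Prop := p.Prime ∧ p % 8 = 1 ∧ (p % 7 = 1 ∨ p % 7 = 2 ∨ p % 7 = 4)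

theorem prod_mod_four {S : Finset ℕ} (hS : ∀ q ∈ S, Inert q) : (∏ q ∈ S, q) % 4 = 1 := by
  classical
  induction S using Finset.induction_on with
  | empty => simp
  | insert q T hq ih =>
    rw [Finset.prod_insert hq, Nat.mul_mod, ih fun q hq => hS q (Finset.mem_insert_of_mem hq)]
    have := (hS q (Finset.mem_insert_self _ _)).2.1
    omega

theorem dvd_prod_primes {S : Finset ℕ} (hS : ∀ q ∈ S, q.Prime) {q : ℕ} (hq : q.Prime)
    (h : q ∣ ∏ r ∈ S, r) : q ∈ S := by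
  rw [hq.prime.dvd_finsetProd_iff] at h
  obtain ⟨r, hr, hqr⟩ := h
  rwa [(Nat.prime_dvd_prime_iff_eq hq (hS r hr)).1 hqr]

theorem squarefree_prod {S : Finset ℕ} (hS : ∀ q ∈ S, q.Prime) : Squarefree (∏ q ∈ S, q) := by
  refine Finset.squarefree_prod_of_pairwise_isCoprime ?_ fun q hq => (hS q hq).squarefree
  intro q hq r hr hqr
  exact Nat.coprime_iff_isRelPrime.1 ((Nat.coprime_primes (hS q hq) (hS r hr)).2 hqr)

theorem main_hyp {p : ℕ} {S : Finset ℕ} (hp : Split p) (hS : ∀ q ∈ S, Inert q)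
    (hN : ¬ 8 ∣ cnt (5805 * ((∏ q ∈ S, q : ℕ) : ℤ) ^ 2) (-285714 * ((∏ q ∈ S, q : ℕ) : ℤ) ^ 3) p + 1) :
    Hyp (∏ q ∈ S, q) p ∧ ¬ (8 : ℤ) ∣ ap E14 p - 2 * jacobiSym p (∏ q ∈ S, q) := by
  have hSp : ∀ q ∈ S, q.Prime := fun q hq => (hS q hq).1
  obtain ⟨pp, p8, p7⟩ := hp
  haveI : Fact p.Prime := ⟨pp⟩
  have hm4 := prod_mod_four hS
  have hpm : ¬ p ∣ ∏ q ∈ S, q := by
    intro h
    have h1 := (hS p (dvd_prod_primes hSp pp h)).2.1
    omega
  obtain ⟨k1, k2⟩ := hyp_facts p pp p8 p7 (∏ q ∈ S, q) hm4 hpm hN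
  refine ⟨⟨hm4, pp, p8, ?_, hpm, ?_, by omega, ?_, k2⟩, k1⟩
  · rw [Int.squarefree_natCast, Nat.squarefree_mul_iff]
    exact ⟨(Nat.Prime.coprime_iff_not_dvd pp).2 hpm, pp.squarefree, squarefree_prod hSp⟩
  · intro q hq hqm
    obtain ⟨-, q8, q7⟩ := hS q (dvd_prod_primes hSp hq hqm)
    haveI : Fact q.Prime := ⟨hq⟩
    refine ⟨by omega, by omega, ?_, ?_⟩
    · rw [sq_seven q (by omega) (by omega)]
      omega
    · rw [sq_two q (by omega)]
      omega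
  · exact (sq_seven p (by omega) (by omega)).2 p7

/-- the main theorem -/
theorem main {p : ℕ} {S : Finset ℕ} (hp : Split p) (hS : ∀ q ∈ S, Inert q)
    (hN : ¬ 8 ∣ cnt (5805 * ((∏ q ∈ S, q : ℕ) : ℤ) ^ 2) (-285714 * ((∏ q ∈ S, q : ℕ) : ℤ) ^ 3) p + 1) :
    (∃ f : ℂ → ℂ, Differentiable ℂ f ∧
      (∀ s : ℂ, (3 : ℝ) / 2 < s.re →
        HasProd (fun l : {l : ℕ // l.Prime ∧
            ¬ ((l : ℤ) ∣ 2 * (4 * (5805 * ((p * ∏ q ∈ S, q : ℕ) : ℤ) ^ 2) ^ 3 +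
              27 * (-285714 * ((p * ∏ q ∈ S, q : ℕ) : ℤ) ^ 3) ^ 2))} =>
          fac (5805 * ((p * ∏ q ∈ S, q : ℕ) : ℤ) ^ 2) (-285714 * ((p * ∏ q ∈ S, q : ℕ) : ℤ) ^ 3) s l)
          (f s)) ∧ f 1 ≠ 0) ∧
    {q : ℚ × ℚ | q.2 ^ 2 = q.1 ^ 3 +
    ((5805 * ((p * ∏ q ∈ S, q : ℕ) : ℤ) ^ 2 : ℤ) : ℚ) * q.1 +
      ((-285714 * ((p * ∏ q ∈ S, q : ℕ) : ℤ) ^ 3 : ℤ) : ℚ)}.Finite := by
  obtain ⟨H, h8⟩ := main_hyp hp hS hN
  have hSp : ∀ q ∈ S, q.Prime := fun q hq => (hS q hq).1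
  refine ⟨?_, H.finite_set⟩
  obtain ⟨pp, p8, p7⟩ := hp
  obtain ⟨k1, k2⟩ := SS_facts p pp p8 p7
  refine nonvanishing pp p8 k1 k2 (fun q hq => II_facts q (hS q hq).1 (hS q hq).2.1 (hS q hq).2.2)
    ?_ h8 ?_
  · intro h
    have := (hS p h).2.1
    omega
  · rw [show (42 : ℕ) = 2 * 3 * 7 by norm_num]
    have key : ∀ l : ℕ, l.Prime → l ≠ p → l ∉ S → Nat.Coprime (p * ∏ q ∈ S, q) l := by
      intro l hl h1 h2
      rw [Nat.coprime_comm, Nat.Prime.coprime_iff_not_dvd hl, hl.dvd_mul, not_or]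
      exact ⟨fun h => h1 ((Nat.prime_dvd_prime_iff_eq hl pp).1 h),
        fun h => h2 (dvd_prod_primes hSp hl h)⟩
    refine Nat.Coprime.mul_right (Nat.Coprime.mul_right (key 2 Nat.prime_two (by omega) ?_)
      (key 3 Nat.prime_three (by omega) ?_)) (key 7 (by norm_num) (by omega) ?_)
    · intro h
      have := (hS 2 h).2.1
      omega
    · intro h
      have := (hS 3 h).2.1
      omega
    · intro h
      have := (hS 7 h).2.1
      omega

/-- two entire functions with the same product are equal -/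
theorem unique_f {f g : ℂ → ℂ} (hf : Differentiable ℂ f) (hg : Differentiable ℂ g)
    {ι : Type} {F : ℂ → ι → ℂ}
    (h1 : ∀ s : ℂ, (3 : ℝ) / 2 < s.re → HasProd (F s) (f s))
    (h2 : ∀ s : ℂ, (3 : ℝ) / 2 < s.re → HasProd (F s) (g s)) : f = g := by
  have hfa : AnalyticOnNhd ℂ f Set.univ := fun z _ => hf.analyticAt z
  have hga : AnalyticOnNhd ℂ g Set.univ := fun z _ => hg.analyticAt z
  have heq : f =ᶠ[nhds (2 : ℂ)] g := by
    have hopen : IsOpen {s : ℂ | (3 : ℝ) / 2 < s.re} := isOpen_lt continuous_const Complex.continuous_re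
    filter_upwards [hopen.mem_nhds (show (3 : ℝ) / 2 < (2 : ℂ).re by norm_num)] with s hs
    exact (h1 s hs).unique (h2 s hs)
  exact hfa.eq_of_eventuallyEq hga heq

/-- infinitely many inert primes to be added -/
theorem infinite_q {p : ℕ} {S : Finset ℕ} (hp : Split p) (hS : ∀ q ∈ S, Inert q) :
    {q : ℕ | Inert q ∧ q ∉ S ∧ ¬ 8 ∣ cnt (5805 * ((∏ r ∈ insert q S, r : ℕ) : ℤ) ^ 2)
      (-285714 * ((∏ r ∈ insert q S, r : ℕ) : ℤ) ^ 3) p + 1}.Infinite := by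
  classical
  obtain ⟨pp, p8, p7⟩ := hp
  haveI : Fact p.Prime := ⟨pp⟩
  obtain ⟨-, k, hk⟩ := SS_facts p pp p8 p7
  have hSp : ∀ q ∈ S, q.Prime := fun q hq => (hS q hq).1
  have hm4 := prod_mod_four hS
  have hpm : ¬ p ∣ ∏ q ∈ S, q := by
    intro h
    have h1 := (hS p (dvd_prod_primes hSp pp h)).2.1
    omega
  have hjm : jacobiSym p (∏ q ∈ S, q) = 1 ∨ jacobiSym p (∏ q ∈ S, q) = -1 := by
    refine jacobiSym.eq_one_or_neg_one ?_
    rw [Int.gcd_natCast_natCast]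
    exact (Nat.Prime.coprime_iff_not_dvd pp).2 hpm
  -- the wanted value of the symbol
  obtain ⟨η, hη, hη2⟩ : ∃ η : ℤ, (η = 1 ∨ η = -1) ∧
      ¬ (8 : ℤ) ∣ 1 + p - (η * jacobiSym p (∏ q ∈ S, q)) * ap E14 p := by
    rcases Int.even_or_odd k with ⟨j, hj⟩ | ⟨j, hj⟩
    · refine ⟨-jacobiSym p (∏ q ∈ S, q), by rcases hjm with h | h <;> rw [h] <;> norm_num, ?_⟩
      rcases hjm with h | h <;> rw [h] <;> omega
    · refine ⟨jacobiSym p (∏ q ∈ S, q), hjm, ?_⟩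
      rcases hjm with h | h <;> rw [h] <;> omega
  -- a residue with this symbol
  obtain ⟨t, ht⟩ : ∃ t : ℕ, jacobiSym (t : ℤ) p = η := by
    rcases hη with rfl | rfl
    · exact ⟨1, by simp⟩
    · have hchar : ringChar (ZMod p) ≠ 2 := by
        rw [ZMod.ringChar_zmod_n]; omega
      obtain ⟨a, ha⟩ := quadraticChar_exists_neg_one hchar
      refine ⟨a.val, ?_⟩
      rw [← jacobiSym.legendreSym.to_jacobiSym, legendreSym]
      simpa using ha
  have htp : Nat.Coprime t p := by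
    by_contra hne
    have h0 : jacobiSym (t : ℤ) p = 0 := by
      haveI : NeZero p := ⟨pp.ne_zero⟩
      rw [jacobiSym.eq_zero_iff_not_coprime]
      intro hg
      rw [Int.gcd_natCast_natCast] at hg
      exact hne hg
    rw [ht] at h0
    rcases hη with rfl | rfl <;> norm_num at h0
  have h56 : Nat.Coprime 56 p := by
    rw [show (56 : ℕ) = 2 ^ 3 * 7 by norm_num]
    refine Nat.Coprime.mul_left (Nat.Coprime.pow_left 3
      ((Nat.coprime_primes Nat.prime_two pp).2 (by omega)))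
      ((Nat.coprime_primes (by norm_num) pp).2 (by omega))
  obtain ⟨n, hn1, hn2⟩ := Nat.chineseRemainder h56 45 t
  haveI : NeZero (56 * p) := ⟨Nat.mul_ne_zero (by norm_num) pp.ne_zero⟩
  have hunit : IsUnit ((n : ℕ) : ZMod (56 * p)) := by
    rw [ZMod.isUnit_iff_coprime]
    refine Nat.Coprime.mul_right ?_ ?_
    · have h1 := hn1.gcd_eq
      rw [Nat.coprime_iff_gcd_eq_one, h1]
      norm_num
    · have h1 := hn2.gcd_eq
      rw [Nat.coprime_iff_gcd_eq_one, h1]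
      exact htp
  have hinf := Nat.infinite_setOfPred_prime_and_eq_mod hunit
  refine (hinf.sdiff (S.finite_toSet)).mono ?_
  rintro q ⟨⟨hq, hqn⟩, hqS⟩
  rw [ZMod.natCast_eq_natCast_iff] at hqn
  have hq1 : q ≡ 45 [MOD 56] := (hqn.of_mul_right p).trans hn1
  have hq2 : q ≡ t [MOD p] := (hqn.of_mul_left 56).trans hn2
  have hq56 : q % 56 = 45 := hq1
  have hI : Inert q := ⟨hq, by omega, by omega⟩
  have hqS' : q ∉ S := fun h => hqS (by simpa using h)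
  refine ⟨hI, hqS', ?_⟩
  have hqp : q ≠ p := by
    intro h
    have := hI.2.1
    omega
  have hI' : ∀ r ∈ insert q S, Inert r := by
    intro r hr
    rcases Finset.mem_insert.1 hr with rfl | hr
    · exact hI
    · exact hS r hr
  have hm4' := prod_mod_four hI'
  have hpm' : ¬ p ∣ ∏ r ∈ insert q S, r := by
    intro h
    have h1 := (hI' p (dvd_prod_primes (fun r hr => (hI' r hr).1) pp h)).2.1
    omega
  have hpq : jacobiSym p q = η := by
    haveI : Fact q.Prime := ⟨hq⟩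
    rw [jacobiSym.quadratic_reciprocity_one_mod_four (by omega) (hq.odd_of_ne_two (by omega)), ← ht]
    refine jacobiSym.mod_left' ?_
    have h9 : q % p = t % p := hq2
    exact_mod_cast h9
  have hprod : jacobiSym p (∏ r ∈ insert q S, r) = η * jacobiSym p (∏ q ∈ S, q) := by
    haveI : NeZero q := ⟨hq.ne_zero⟩
    haveI : NeZero (∏ q ∈ S, q) := ⟨Finset.prod_ne_zero_iff.2 fun r hr => (hSp r hr).ne_zero⟩
    rw [Finset.prod_insert hqS', jacobiSym.mul_right, hpq]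
  have h1 := cnt_twist 5805 (-285714) (∏ r ∈ insert q S, r) p (by omega) hm4' hpm'
  rw [cnt_E14 p pp (by omega) (by omega), hprod] at h1
  intro h8
  apply hη2
  rw [← h1]
  have h2 : ((8 : ℕ) : ℤ) ∣ ((cnt (5805 * ((∏ r ∈ insert q S, r : ℕ) : ℤ) ^ 2)
      (-285714 * ((∏ r ∈ insert q S, r : ℕ) : ℤ) ^ 3) p + 1 : ℕ) : ℤ) := Int.natCast_dvd_natCast.2 h8
  push_cast at h2 ⊢
  have h3 : ∀ P C : ℤ, 1 + P - (P - C) = C + 1 := fun P C => by ring
  rw [h3]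
  exact h2

end Pool.Agent.Y687
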