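import Pool.Agent.Y687.Comb3

set_option autoImplicit false
set_option linter.style.haveILetI false

open Finset

namespace Pool.Agent.Y687

/-- `x` is `2^n` times an odd integer -/
def V (n : ℕ) (x : ℤ) : Prop := ∃ k : ℤ, x = 2 ^ n * (2 * k + 1)

theorem V.mul {m n : ℕ} {x y : ℤ} (hx : V m x) (hy : V n y) : V (m + n) (x * y) := by
  obtain ⟨k, rfl⟩ := hx
  obtain ⟨l, rfl⟩ := hy
  exact ⟨2 * k * l + k + l, by rw [pow_add]; ring⟩

theorem V.prod {ι : Type*} (U : Finset ι) (f : ι → ℤ) (h : ∀ i ∈ U, V 1 (f i)) :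
    V U.card (∏ i ∈ U, f i) := by
  classical
  induction U using Finset.induction_on with
  | empty => exact ⟨0, by simp⟩
  | insert i U hi ih =>
    rw [Finset.prod_insert hi, Finset.card_insert_of_notMem hi, add_comm]
    exact (h i (Finset.mem_insert_self _ _)).mul
      (ih fun j hj => h j (Finset.mem_insert_of_mem hj))

theorem V.dvd {n : ℕ} {x : ℤ} (h : V n x) : (2 : ℤ) ^ (n + 1) ∣ x - 2 ^ n := by
  obtain ⟨k, rfl⟩ := h
  exact ⟨k, by rw [pow_succ]; ring⟩

theorem V.of_dvd {n : ℕ} {x : ℤ} (h : (2 : ℤ) ^ (n + 1) ∣ x - 2 ^ n) : V n x := by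
  obtain ⟨k, hk⟩ := h
  exact ⟨k, by rw [pow_succ] at hk; linear_combination hk⟩

theorem SS_prod {s : ℚ → ℤ} {a : ℕ → ℤ} (h : Symb s a) (T U : Finset ℕ) (hTU : Disjoint T U)
    (hT : ∀ q ∈ T, q.Prime) (hU : ∀ q ∈ U, q.Prime ∧ ¬ q ∣ 14) :
    SS s (∏ q ∈ T, q) ((∏ q ∈ T, q) * ∏ q ∈ U, q)
      = (∏ q ∈ U, (a q - 2 * jacobiSym q (∏ q ∈ T, q))) * SS s (∏ q ∈ T, q) (∏ q ∈ T, q) := by
  classical
  induction U using Finset.induction_on with
  | empty => simp
  | insert p U hp ih =>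
    rw [Finset.prod_insert hp, Finset.prod_insert hp]
    have hpp := (hU p (Finset.mem_insert_self _ _))
    have e1 : (∏ q ∈ T, q) * (p * ∏ q ∈ U, q) = ((∏ q ∈ T, q) * ∏ q ∈ U, q) * p := by ring
    have hT0 : 0 < ∏ q ∈ T, q := Finset.prod_pos fun q hq => (hT q hq).pos
    have hU0 : 0 < ∏ q ∈ U, q :=
      Finset.prod_pos fun q hq => (hU q (Finset.mem_insert_of_mem hq)).1.pos
    have hcop : Nat.Coprime p ((∏ q ∈ T, q) * ∏ q ∈ U, q) := by
      refine Nat.Coprime.mul_right ?_ ?_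
      · refine Nat.Coprime.prod_right fun q hq => ?_
        rw [Nat.coprime_primes hpp.1 (hT q hq)]
        rintro rfl
        exact (Finset.disjoint_left.1 hTU hq) (Finset.mem_insert_self _ _)
      · refine Nat.Coprime.prod_right fun q hq => ?_
        rw [Nat.coprime_primes hpp.1 (hU q (Finset.mem_insert_of_mem hq)).1]
        rintro rfl
        exact hp hq
    rw [e1, SS_mul h.per hpp.1 (h.hecke p hpp.1 hpp.2) (Nat.mul_pos hT0 hU0) (Dvd.intro _ rfl) hcop,
      ih (hTU.mono_right (Finset.subset_insert _ _))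
        (fun q hq => hU q (Finset.mem_insert_of_mem hq)), mul_assoc]

theorem SS_sub {s : ℚ → ℤ} {a : ℕ → ℤ} (h : Symb s a) {T S : Finset ℕ} (hTS : T ⊆ S)
    (hS : ∀ q ∈ S, q.Prime ∧ ¬ q ∣ 14) :
    SS s (∏ q ∈ T, q) (∏ q ∈ S, q)
      = (∏ q ∈ S \ T, (a q - 2 * jacobiSym q (∏ q ∈ T, q))) * SS s (∏ q ∈ T, q) (∏ q ∈ T, q) := by
  classical
  have h1 := SS_prod h T (S \ T) Finset.disjoint_sdiff (fun q hq => (hS q (hTS hq)).1)
    (fun q hq => hS q (Finset.mem_sdiff.1 hq).1)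
  rw [← h1, mul_comm, Finset.prod_sdiff hTS]

/-- the factor at a prime with `4 ∣ a q` -/
theorem V_factor {a : ℕ → ℤ} {q : ℕ} (h4 : (4 : ℤ) ∣ a q) {T : Finset ℕ}
    (hq : q.Prime) (hT : ∀ p ∈ T, p.Prime) (hqT : q ∉ T) :
    V 1 (a q - 2 * jacobiSym q (∏ q ∈ T, q)) := by
  have hg : Int.gcd (q : ℤ) ((∏ q ∈ T, q : ℕ) : ℤ) = 1 := by
    rw [Int.gcd_natCast_natCast]
    refine Nat.Coprime.prod_right fun p hp => ?_
    rw [Nat.coprime_primes hq (hT p hp)]
    rintro rfl
    exact hqT hp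
  obtain ⟨k, hk⟩ := h4
  rcases jacobiSym.eq_one_or_neg_one hg with h1 | h1
  · rw [h1, hk]
    exact ⟨k - 1, by ring⟩
  · rw [h1, hk]
    exact ⟨k, by ring⟩

/-- condition on the inert primes -/
def isII (a : ℕ → ℤ) (q : ℕ) : Prop :=
  q.Prime ∧ q % 4 = 1 ∧ jacobiSym 14 q = 1 ∧ (4 : ℤ) ∣ a q

theorem not_dvd14 {q : ℕ} (hq : q.Prime) (h : jacobiSym 14 q = 1) : ¬ q ∣ 14 := by
  intro h1
  haveI : NeZero q := ⟨hq.ne_zero⟩
  have h0 : jacobiSym (14 : ℤ) q = 0 := by
    rw [jacobiSym.eq_zero_iff_not_coprime]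
    intro hg
    have h2 : Int.gcd ((14 : ℕ) : ℤ) (q : ℤ) = 1 := hg
    rw [Int.gcd_natCast_natCast] at h2
    have h3 := Nat.dvd_gcd h1 (dvd_refl q)
    rw [h2] at h3
    exact hq.one_lt.ne' (Nat.dvd_one.1 h3)
  rw [h] at h0
  norm_num at h0

theorem L_inert {s : ℚ → ℤ} {a : ℕ → ℤ} (h : Symb s a) (S : Finset ℕ) :
    (∀ q ∈ S, isII a q) → V S.card (SS s (∏ q ∈ S, q) (∏ q ∈ S, q)) := by
  classical
  induction S using Finset.strongInduction with
  | H S ih =>
    intro hS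
    rcases S.eq_empty_or_nonempty with rfl | hne
    · obtain ⟨k, hk⟩ := h.odd0
      refine ⟨k, ?_⟩
      have : SS s 1 1 = s 0 := by
        unfold SS
        have : rr 1 = {0} := by decide
        rw [this, Finset.sum_singleton]
        simp
      simp only [Finset.prod_empty, Finset.card_empty]
      rw [this, hk]
      ring
    · have hSp : ∀ q ∈ S, q.Prime ∧ ¬ q ∣ 14 := fun q hq =>
        ⟨(hS q hq).1, not_dvd14 (hS q hq).1 (hS q hq).2.2.1⟩
      have h1 := SS_class (s := s) S (fun q hq => (hS q hq).1) (fun _ => 1) (fun _ _ => Or.inl rfl)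
      simp only [Finset.prod_const_one, one_mul] at h1
      have h2 : (2 : ℤ) ∣ AA s S (fun _ => 1) :=
        AA_even h S _ (fun q hq => ⟨(hS q hq).1, (hS q hq).2.1⟩) hne
      obtain ⟨m, hm⟩ := h2
      have h3 : ∀ T ∈ S.powerset.erase S, V S.card (SS s (∏ q ∈ T, q) (∏ q ∈ S, q)) := by
        intro T hT
        rw [Finset.mem_erase, Finset.mem_powerset] at hT
        rw [SS_sub h hT.2 hSp]
        have h4 : (S \ T).card + T.card = S.card := Finset.card_sdiff_add_card_eq_card hT.2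
        rw [← h4]
        refine V.mul (V.prod _ _ fun q hq => ?_) (ih T (Finset.ssubset_iff_subset_ne.2 ⟨hT.2, hT.1⟩)
          fun q hq => hS q (hT.2 hq))
        rw [Finset.mem_sdiff] at hq
        exact V_factor (hS q hq.1).2.2.2 (hS q hq.1).1 (fun p hp => (hS p (hT.2 hp)).1) hq.2
      have h5 : (2 : ℤ) ^ (S.card + 1) ∣ ∑ T ∈ S.powerset.erase S,
          (SS s (∏ q ∈ T, q) (∏ q ∈ S, q) - 2 ^ S.card) :=
        Finset.dvd_sum fun T hT => (h3 T hT).dvd
      rw [Finset.sum_sub_distrib, Finset.sum_const,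
        Finset.card_erase_of_mem (Finset.mem_powerset_self S), Finset.card_powerset] at h5
      rw [← Finset.add_sum_erase _ _ (Finset.mem_powerset_self S)] at h1
      obtain ⟨n, hn⟩ := h5
      have hc : 1 ≤ S.card := Finset.card_pos.2 hne
      obtain ⟨c, hcc⟩ : ∃ c, S.card = c + 1 := ⟨S.card - 1, by omega⟩
      refine V.of_dvd ?_
      have h6 : (((2 ^ S.card - 1 : ℕ) • (2 ^ S.card : ℤ)) : ℤ) = (2 ^ S.card - 1) * 2 ^ S.card := by
        rw [nsmul_eq_mul, Nat.cast_sub Nat.one_le_two_pow]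
        push_cast
        ring
      rw [h6] at hn
      have h7 : SS s (∏ q ∈ S, q) (∏ q ∈ S, q) + ∑ T ∈ S.powerset.erase S, SS s (∏ q ∈ T, q) (∏ q ∈ S, q)
        = 2 ^ S.card * (2 * m) := by
        rw [← hm]; exact h1
      rw [hcc] at hn h7 ⊢
      refine ⟨m - n - 2 ^ c, ?_⟩
      simp only [pow_succ] at hn h7 ⊢
      linear_combination h7 - hn

theorem sum_split {s : ℚ → ℤ} {a : ℕ → ℤ} (h : Symb s a) (p : ℕ) (hp : p.Prime)
    (hp8 : p % 8 = 1) (hp14 : jacobiSym 14 p = 1) (h2 : (4 : ℤ) ∣ a p - 2) (S : Finset ℕ) :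
    (∀ q ∈ S, isII a q) → p ∉ S →
      (2 : ℤ) ^ (S.card + 3) ∣ SS s (p * ∏ q ∈ S, q) (p * ∏ q ∈ S, q)
        - 2 ^ S.card * (a p - 2 * jacobiSym p (∏ q ∈ S, q)) := by
  classical
  induction S using Finset.strongInduction with
  | H S ih =>
    intro hS hpS
    have hX : ∀ T ⊆ S, ∃ x : ℤ, a p - 2 * jacobiSym p (∏ q ∈ T, q) = 4 * x := by
      intro T hT
      have hg : Int.gcd (p : ℤ) ((∏ q ∈ T, q : ℕ) : ℤ) = 1 := by
        rw [Int.gcd_natCast_natCast]
        refine Nat.Coprime.prod_right fun q hq => ?_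
        rw [Nat.coprime_primes hp (hS q (hT hq)).1]
        rintro rfl
        exact hpS (hT hq)
      obtain ⟨k, hk⟩ := h2
      rcases jacobiSym.eq_one_or_neg_one hg with h1 | h1
      · rw [h1]; exact ⟨k, by linear_combination hk⟩
      · rw [h1]; exact ⟨k + 1, by linear_combination hk⟩
    have hp0 : jacobiSym 14 p = 1 := hp14
    obtain ⟨r, hr⟩ : ∃ r : ℤ, (p : ℤ) ∣ 14 * r ^ 2 - 1 := by
      haveI : Fact p.Prime := ⟨hp⟩
      have h140 : ((14 : ℤ) : ZMod p) ≠ 0 := by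
        intro h0
        rw [ZMod.intCast_zmod_eq_zero_iff_dvd] at h0
        exact not_dvd14 hp hp14 (by exact_mod_cast h0)
      rw [← jacobiSym.legendreSym.to_jacobiSym, legendreSym.eq_one_iff p h140] at hp14
      obtain ⟨t, ht⟩ := hp14
      have ht0 : t ≠ 0 := by
        rintro rfl
        apply h140
        rw [ht]; ring
      refine ⟨((t⁻¹).val : ℤ), ?_⟩
      rw [← ZMod.intCast_zmod_eq_zero_iff_dvd]
      push_cast at ht ⊢
      rw [ZMod.natCast_zmod_val, ht]
      field_simp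
      ring
    have hrp : jacobiSym r p = 1 ∨ jacobiSym r p = -1 := by
      refine jacobiSym.eq_one_or_neg_one ?_
      by_contra hg
      have h3 : (p : ℤ) ∣ r := by
        have h4 : ¬ IsCoprime r (p : ℤ) := fun hc => hg (Int.isCoprime_iff_gcd_eq_one.1 hc)
        have hpP : Prime (p : ℤ) := Nat.prime_iff_prime_int.1 hp
        by_contra h5
        exact h4 ((Prime.coprime_iff_not_dvd hpP).2 h5).symm
      have h4 : (p : ℤ) ∣ 1 := by
        have := dvd_sub (Dvd.dvd.mul_left (dvd_pow h3 two_ne_zero) 14) hr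
        simpa using this
      have h5 := Int.natCast_dvd_natCast.1 (by exact_mod_cast h4 : ((p : ℕ) : ℤ) ∣ ((1 : ℕ) : ℤ))
      exact hp.one_lt.ne' (Nat.dvd_one.1 h5)
    -- class signs
    set S' : Finset ℕ := insert p S with hS'
    have hSp : ∀ q ∈ S', q.Prime ∧ ¬ q ∣ 14 := by
      intro q hq
      rcases Finset.mem_insert.1 hq with rfl | hq
      · exact ⟨hp, not_dvd14 hp hp0⟩
      · exact ⟨(hS q hq).1, not_dvd14 (hS q hq).1 (hS q hq).2.2.1⟩
    set c : ℕ → ℤ := fun q => if q = p then - jacobiSym r p else 1 with hc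
    have hcpm : ∀ q, c q = 1 ∨ c q = -1 := by
      intro q
      simp only [hc]
      split_ifs
      · rcases hrp with h3 | h3 <;> rw [h3] <;> norm_num
      · exact Or.inl rfl
    have hcT : ∀ T : Finset ℕ, (∏ q ∈ T, c q) = 1 ∨ (∏ q ∈ T, c q) = -1 := by
      intro T
      induction T using Finset.induction_on with
      | empty => left; simp
      | insert q T hq ihT =>
        rw [Finset.prod_insert hq]
        rcases hcpm q with h3 | h3 <;> rcases ihT with h4 | h4 <;> rw [h3, h4] <;> norm_num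
    have h3 := SS_class (s := s) S' (fun q hq => (hSp q hq).1) c (fun q _ => hcpm q)
    have h4 : (4 : ℤ) ∣ AA s S' c := by
      refine AA_four h S' c ?_ (Finset.mem_insert_self _ _) hp8 hr ?_
      · intro q hq
        rcases Finset.mem_insert.1 hq with rfl | hq
        · exact ⟨hp, by omega, hp0⟩
        · exact ⟨(hS q hq).1, (hS q hq).2.1, (hS q hq).2.2.1⟩
      · simp [hc]
    obtain ⟨m, hm⟩ := h4
    have h5 : ∑ T ∈ S'.powerset, (∏ q ∈ T, c q) * SS s (∏ q ∈ T, q) (∏ q ∈ S', q)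
        = 2 ^ (S.card + 3) * m := by
      have h6 : S'.card = S.card + 1 := Finset.card_insert_of_notMem hpS
      have h7 := h3
      rw [h6] at h7
      have h8 : AA s S' c = 4 * m := hm
      unfold AA at h8
      rw [h7, h8]
      ring
    rw [hS', Finset.sum_powerset_insert hpS, ← hS'] at h5
    -- first kind of terms
    have t1 : ∀ T ∈ S.powerset, (2 : ℤ) ^ (S.card + 3) ∣
        (∏ q ∈ T, c q) * SS s (∏ q ∈ T, q) (∏ q ∈ S', q)
          - 2 ^ S.card * (a p - 2 * jacobiSym p (∏ q ∈ T, q)) := by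
      intro T hT
      rw [Finset.mem_powerset] at hT
      rw [SS_sub h (hT.trans (Finset.subset_insert _ _)) hSp]
      have e1 : S' \ T = insert p (S \ T) := by
        rw [hS', Finset.insert_sdiff_of_notMem _ (fun h9 => hpS (hT h9))]
      rw [e1, Finset.prod_insert (fun h9 => hpS (Finset.mem_sdiff.1 h9).1)]
      obtain ⟨x, hx⟩ := hX T hT
      have h6 : V S.card ((∏ q ∈ S \ T, (a q - 2 * jacobiSym q (∏ q ∈ T, q)))
          * SS s (∏ q ∈ T, q) (∏ q ∈ T, q)) := by
        rw [← Finset.card_sdiff_add_card_eq_card hT]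
        refine V.mul (V.prod _ _ fun q hq => ?_) (L_inert h T fun q hq => hS q (hT hq))
        rw [Finset.mem_sdiff] at hq
        exact V_factor (hS q hq.1).2.2.2 (hS q hq.1).1 (fun p hp => (hS p (hT hp)).1) hq.2
      obtain ⟨k, hk⟩ := h6
      rw [hx]
      rcases hcT T with h7 | h7
      · rw [h7]
        refine ⟨k * x, ?_⟩
        rw [pow_add]
        linear_combination (4 * x) * hk
      · rw [h7]
        refine ⟨-(k + 1) * x, ?_⟩
        rw [pow_add]
        linear_combination (-4 * x) * hk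
    have t2 : ∀ T ∈ S.powerset.erase S, (2 : ℤ) ^ (S.card + 3) ∣
        (∏ q ∈ insert p T, c q) * SS s (∏ q ∈ insert p T, q) (∏ q ∈ S', q)
          - 2 ^ S.card * (a p - 2 * jacobiSym p (∏ q ∈ T, q)) := by
      intro T hT
      rw [Finset.mem_erase, Finset.mem_powerset] at hT
      have hpT : p ∉ T := fun h9 => hpS (hT.2 h9)
      rw [SS_sub h (Finset.insert_subset_insert p hT.2) hSp]
      have e1 : S' \ insert p T = S \ T := by
        rw [hS']
        ext q
        simp only [Finset.mem_sdiff, Finset.mem_insert, not_or]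
        constructor
        · rintro ⟨h6 | h6, h7, h8⟩
          · exact absurd h6 h7
          · exact ⟨h6, h8⟩
        · rintro ⟨h6, h7⟩
          exact ⟨Or.inr h6, fun h8 => hpS (h8 ▸ h6), h7⟩
      rw [e1]
      obtain ⟨x, hx⟩ := hX T hT.2
      have h6 : V (S \ T).card (∏ q ∈ S \ T, (a q - 2 * jacobiSym q (∏ q ∈ insert p T, q))) := by
        refine V.prod _ _ fun q hq => ?_
        rw [Finset.mem_sdiff] at hq
        refine V_factor (hS q hq.1).2.2.2 (hS q hq.1).1 ?_ ?_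
        · intro l hl
          rcases Finset.mem_insert.1 hl with rfl | hl
          · exact hp
          · exact (hS l (hT.2 hl)).1
        · intro h7
          rcases Finset.mem_insert.1 h7 with h8 | h8
          · exact hpS (h8 ▸ hq.1)
          · exact hq.2 h8
      have h7 := ih T (Finset.ssubset_iff_subset_ne.2 ⟨hT.2, hT.1⟩) (fun q hq => hS q (hT.2 hq)) hpT
      rw [← Finset.prod_insert (f := fun q => q) hpT] at h7
      obtain ⟨k, hk⟩ := h6
      obtain ⟨l, hl⟩ := h7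
      rw [hx] at hl ⊢
      have h8 : (2 : ℤ) ^ (S \ T).card * 2 ^ T.card = 2 ^ S.card := by
        rw [← pow_add, Finset.card_sdiff_add_card_eq_card hT.2]
      rw [hk]
      have h9 : SS s (∏ q ∈ insert p T, q) (∏ q ∈ insert p T, q)
          = 2 ^ T.card * (4 * x + 8 * l) := by
        rw [pow_add] at hl
        linear_combination hl
      rw [h9]
      rcases hcT (insert p T) with h10 | h10
      · rw [h10]
        refine ⟨k * x + 2 * k * l + l, ?_⟩
        rw [pow_add, ← h8]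
        ring
      · rw [h10]
        refine ⟨-(k + 1) * x - 2 * k * l - l, ?_⟩
        rw [pow_add, ← h8]
        ring
    have s1 := Finset.dvd_sum t1
    have s2 := Finset.dvd_sum t2
    rw [Finset.sum_sub_distrib] at s1 s2
    have s3 : (2 : ℤ) ^ (S.card + 3) ∣ 2 * ∑ T ∈ S.powerset.erase S,
        2 ^ S.card * (a p - 2 * jacobiSym p (∏ q ∈ T, q)) := by
      rw [Finset.mul_sum]
      refine Finset.dvd_sum fun T hT => ?_
      rw [Finset.mem_erase, Finset.mem_powerset] at hT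
      obtain ⟨x, hx⟩ := hX T hT.2
      rw [hx]
      exact ⟨x, by rw [pow_add]; ring⟩
    rw [← Finset.add_sum_erase S.powerset (fun T => (∏ q ∈ insert p T, c q) *
      SS s (∏ q ∈ insert p T, q) (∏ q ∈ S', q)) (Finset.mem_powerset_self S)] at h5
    rw [← Finset.add_sum_erase S.powerset (fun T => (2 : ℤ) ^ S.card *
      (a p - 2 * jacobiSym p (∏ q ∈ T, q))) (Finset.mem_powerset_self S)] at s1
    obtain ⟨x, hx⟩ := hX S (Finset.Subset.refl _)
    obtain ⟨u1, hu1⟩ := s1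
    obtain ⟨u2, hu2⟩ := s2
    obtain ⟨u3, hu3⟩ := s3
    have e2 : SS s (p * ∏ q ∈ S, q) (p * ∏ q ∈ S, q)
      = SS s (∏ q ∈ insert p S, q) (∏ q ∈ S', q) := by
      rw [hS', Finset.prod_insert hpS]
    rw [e2]
    rw [hx] at hu1 ⊢
    rcases hcT (insert p S) with h10 | h10
    · rw [h10] at h5
      refine ⟨m - u1 - u2 - u3 - x, ?_⟩
      have e3 : (2 : ℤ) ^ (S.card + 3) = 8 * 2 ^ S.card := by rw [pow_add]; ring
      linear_combination h5 - hu1 - hu2 - hu3 + x * e3
    · rw [h10] at h5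
      refine ⟨-m + u1 + u2 + u3, ?_⟩
      linear_combination -h5 + hu1 + hu2 + hu3

/-- main combinatorial theorem -/
theorem L_ne_zero {s : ℚ → ℤ} {a : ℕ → ℤ} (h : Symb s a) {p : ℕ} (hp : p.Prime)
    (hp8 : p % 8 = 1) (hp14 : jacobiSym 14 p = 1) (h2 : (4 : ℤ) ∣ a p - 2) {S : Finset ℕ}
    (hS : ∀ q ∈ S, isII a q) (hpS : p ∉ S)
    (hN : ¬ (8 : ℤ) ∣ a p - 2 * jacobiSym p (∏ q ∈ S, q)) :
    SS s (p * ∏ q ∈ S, q) (p * ∏ q ∈ S, q) ≠ 0 := by
  intro h0
  have h1 := sum_split h p hp hp8 hp14 h2 S hS hpS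
  rw [h0, zero_sub, dvd_neg, pow_add] at h1
  exact hN (by
    have := Int.dvd_of_mul_dvd_mul_left (by positivity) h1
    simpa using this)

end Pool.Agent.Y687
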