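import Pool.Agent.Y687.Comb

set_option autoImplicit false

open Finset

namespace Pool.Agent.Y687

/-- integral even modular symbol with Hecke action and the involution -/
structure Symb (s : ℚ → ℤ) (a : ℕ → ℤ) : Prop where
  per : ∀ x, s (x + 1) = s x
  neg : ∀ x, s (-x) = s x
  hecke : ∀ q : ℕ, q.Prime → ¬ q ∣ 14 → ∀ x,
    a q * s x = s (q * x) + ∑ b ∈ Finset.range q, s ((x + b) / q)
  inv : ∀ (M : ℕ) (b d : ℤ), 0 < M → (M : ℤ) ∣ 14 * b * d - 1 →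
    s ((b : ℚ) / M) = s ((d : ℚ) / M)
  odd0 : Odd (s 0)

theorem jac_prod (x : ℤ) (T : Finset ℕ) (hT : ∀ q ∈ T, q.Prime) :
    jacobiSym x (∏ q ∈ T, q) = ∏ q ∈ T, jacobiSym x q := by
  classical
  induction T using Finset.induction_on with
  | empty => simp
  | insert p T hp ih =>
    rw [Finset.prod_insert hp, Finset.prod_insert hp]
    have h1 : p ≠ 0 := (hT p (Finset.mem_insert_self _ _)).ne_zero
    have h2 : ∏ q ∈ T, q ≠ 0 :=
      Finset.prod_ne_zero_iff.2 fun q hq => (hT q (Finset.mem_insert_of_mem hq)).ne_zero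
    rw [jacobiSym.mul_right' x h1 h2, ih fun q hq => hT q (Finset.mem_insert_of_mem hq)]

theorem jac_pm {q : ℕ} {x : ℤ} (h : Int.gcd x q = 1) :
    jacobiSym x q = 1 ∨ jacobiSym x q = -1 := jacobiSym.eq_one_or_neg_one h

theorem cls_factor {c j : ℤ} (hc : c = 1 ∨ c = -1) (hj : j = 1 ∨ j = -1) :
    1 + c * j = if j = c then 2 else 0 := by
  rcases hc with rfl | rfl <;> rcases hj with rfl | rfl <;> norm_num

/-- orthogonality -/
theorem SS_class {s : ℚ → ℤ} (S : Finset ℕ) (hS : ∀ q ∈ S, q.Prime) (c : ℕ → ℤ)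
    (hc : ∀ q ∈ S, c q = 1 ∨ c q = -1) :
    ∑ T ∈ S.powerset, (∏ q ∈ T, c q) * SS s (∏ q ∈ T, q) (∏ q ∈ S, q)
      = 2 ^ S.card * ∑ a ∈ (rr (∏ q ∈ S, q)).filter (fun a : ℕ => ∀ q ∈ S, jacobiSym (a : ℤ) q = c q),
          s ((a : ℚ) / ((∏ q ∈ S, q : ℕ) : ℚ)) := by
  classical
  set M := ∏ q ∈ S, q with hM
  have h1 : ∀ T ∈ S.powerset, (∏ q ∈ T, c q) * SS s (∏ q ∈ T, q) M
      = ∑ a ∈ rr M, (∏ q ∈ T, (c q * jacobiSym (a : ℤ) q)) * s ((a : ℚ) / M) := by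
    intro T hT
    rw [Finset.mem_powerset] at hT
    unfold SS
    rw [Finset.mul_sum]
    refine Finset.sum_congr rfl fun a _ => ?_
    rw [jac_prod _ T fun q hq => hS q (hT hq), Finset.prod_mul_distrib]
    ring
  rw [Finset.sum_congr rfl h1, Finset.sum_comm]
  simp_rw [← Finset.sum_mul]
  rw [Finset.mul_sum, Finset.sum_filter]
  refine Finset.sum_congr rfl fun a ha => ?_
  rw [mem_rr] at ha
  rw [← Finset.prod_one_add]
  have hg : ∀ q ∈ S, Int.gcd (a : ℤ) q = 1 := by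
    intro q hq
    have : Nat.Coprime a q := Nat.Coprime.coprime_dvd_right (Finset.dvd_prod_of_mem _ hq) ha.2
    simpa [Int.gcd_natCast_natCast] using this
  have h2 : ∏ q ∈ S, (1 + c q * jacobiSym (a : ℤ) q)
      = ∏ q ∈ S, (if jacobiSym (a : ℤ) q = c q then (2 : ℤ) else 0) :=
    Finset.prod_congr rfl fun q hq => cls_factor (hc q hq) (jac_pm (hg q hq))
  rw [h2]
  split_ifs with h
  · rw [Finset.prod_congr rfl fun q hq => if_pos (h q hq), Finset.prod_const]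
  · push Not at h
    obtain ⟨q, hq, hne⟩ := h
    rw [Finset.prod_eq_zero hq (if_neg hne), zero_mul]

/-- transport to units -/
theorem sum_rr {M : ℕ} [NeZero M] (g : ℕ → ℤ) :
    ∑ a ∈ rr M, g a = ∑ u : (ZMod M)ˣ, g (u : ZMod M).val := by
  refine (Finset.sum_bij (fun (u : (ZMod M)ˣ) _ => (u : ZMod M).val) ?_ ?_ ?_ ?_).symm
  · intro u _
    rw [mem_rr]
    exact ⟨ZMod.val_lt _, ZMod.val_coe_unit_coprime u⟩
  · intro u _ v _ h
    exact Units.ext (ZMod.val_injective M h)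
  · intro a ha
    rw [mem_rr] at ha
    refine ⟨ZMod.unitOfCoprime a ha.2, Finset.mem_univ _, ?_⟩
    rw [ZMod.coe_unitOfCoprime, ZMod.val_natCast, Nat.mod_eq_of_lt ha.1]
  · intro u _
    rfl

/-- value of the quadratic character on units -/
def chi {M : ℕ} (q : ℕ) (u : (ZMod M)ˣ) : ℤ := jacobiSym ((u : ZMod M).val : ℤ) q

theorem chi_mul {M : ℕ} [NeZero M] {q : ℕ} (hq : q ∣ M) (u v : (ZMod M)ˣ) :
    chi q (u * v) = chi q u * chi q v := by
  unfold chi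
  rw [Units.val_mul, ZMod.val_mul, jac_mod hq, ← jacobiSym.mul_left]
  push_cast
  rfl

theorem chi_pm {M : ℕ} [NeZero M] {q : ℕ} (hq : q ∣ M) (u : (ZMod M)ˣ) :
    chi q u = 1 ∨ chi q u = -1 := by
  refine jacobiSym.eq_one_or_neg_one ?_
  rw [Int.gcd_natCast_natCast]
  exact Nat.Coprime.coprime_dvd_right hq (ZMod.val_coe_unit_coprime u)

theorem chi_one {M : ℕ} [NeZero M] {q : ℕ} (hq : q ∣ M) : chi q (1 : (ZMod M)ˣ) = 1 := by
  have h := chi_mul hq (1 : (ZMod M)ˣ) 1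
  rw [one_mul] at h
  rcases chi_pm hq (1 : (ZMod M)ˣ) with h1 | h1
  · exact h1
  · rw [h1] at h; norm_num at h

theorem chi_inv {M : ℕ} [NeZero M] {q : ℕ} (hq : q ∣ M) (u : (ZMod M)ˣ) :
    chi q u⁻¹ = chi q u := by
  have h := chi_mul hq u u⁻¹
  rw [mul_inv_cancel, chi_one hq] at h
  rcases chi_pm hq u with h1 | h1 <;> rcases chi_pm hq u⁻¹ with h2 | h2 <;>
    rw [h1, h2] at h ⊢ <;> norm_num at h

theorem chi_val {M : ℕ} [NeZero M] {q : ℕ} (hq : q ∣ M) (u : (ZMod M)ˣ) (x : ℤ)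
    (hx : (x : ZMod M) = (u : ZMod M)) : chi q u = jacobiSym x q := by
  unfold chi
  rw [jacobiSym.mod_left ((u : ZMod M).val : ℤ) q, jacobiSym.mod_left x q]
  congr 1
  have h1 : (((u : ZMod M).val : ℤ) : ZMod M) = (x : ZMod M) := by
    rw [hx]; push_cast; exact ZMod.natCast_zmod_val _
  have h2 := (ZMod.intCast_eq_intCast_iff _ _ _).1 h1
  exact h2.of_dvd (by exact_mod_cast hq)

theorem chi_neg_one {M : ℕ} [NeZero M] {q : ℕ} (hq : q ∣ M) (h4 : q % 4 = 1) :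
    chi q (-1 : (ZMod M)ˣ) = 1 := by
  rw [chi_val hq (-1) (-1) (by push_cast; rfl)]
  rw [jacobiSym.at_neg_one (Nat.odd_iff.2 (by omega))]
  exact ZMod.χ₄_nat_one_mod_four h4

theorem chi_neg {M : ℕ} [NeZero M] {q : ℕ} (hq : q ∣ M) (h4 : q % 4 = 1)
    (u : (ZMod M)ˣ) : chi q (-u) = chi q u := by
  rw [← neg_one_mul, chi_mul hq, chi_neg_one hq h4, one_mul]

/-- value of the symbol on units -/
def sv (s : ℚ → ℤ) {M : ℕ} (u : (ZMod M)ˣ) : ℤ := s (((u : ZMod M).val : ℚ) / M)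

theorem sv_neg {s : ℚ → ℤ} {a : ℕ → ℤ} (h : Symb s a) {M : ℕ} [NeZero M] (u : (ZMod M)ˣ) :
    sv s (-u) = sv s u := by
  unfold sv
  have hM : 0 < M := Nat.pos_of_ne_zero (NeZero.ne M)
  have h1 : -((((u : ZMod M).val : ℕ) : ℚ) / M) = ((-((u : ZMod M).val : ℤ) : ℤ) : ℚ) / M := by
    push_cast; ring
  rw [← h.neg ((((u : ZMod M).val : ℕ) : ℚ) / M), h1]
  have h2 := s_congr h.per hM (a := (((-u : (ZMod M)ˣ) : ZMod M).val : ℤ))
    (b := -((u : ZMod M).val : ℤ)) ?_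
  · rw [← h2]
    push_cast
    rfl
  · have h3 : (((-((u : ZMod M).val : ℤ)) : ℤ) : ZMod M) = ((((-u : (ZMod M)ˣ) : ZMod M).val : ℤ) : ZMod M) := by
      push_cast
      rw [ZMod.natCast_zmod_val, ZMod.natCast_zmod_val]
    exact (Int.modEq_iff_dvd.1 ((ZMod.intCast_eq_intCast_iff _ _ _).1 h3))

theorem sv_inv {s : ℚ → ℤ} {a : ℕ → ℤ} (h : Symb s a) {M : ℕ} [NeZero M] (e u v : (ZMod M)ˣ)
    (he : (e : ZMod M) = 14) (huv : e * u * v = 1) : sv s v = sv s u := by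
  unfold sv
  have hM : 0 < M := Nat.pos_of_ne_zero (NeZero.ne M)
  have h2 := h.inv M ((u : ZMod M).val : ℤ) ((v : ZMod M).val : ℤ) hM ?_
  · push_cast at h2
    exact h2.symm
  · have h3 : ((14 * ((u : ZMod M).val : ℤ) * ((v : ZMod M).val : ℤ) : ℤ) : ZMod M) = ((1 : ℤ) : ZMod M) := by
      push_cast
      rw [ZMod.natCast_zmod_val, ZMod.natCast_zmod_val, ← he, ← Units.val_mul, ← Units.val_mul, huv]
      rfl
    exact (Int.modEq_iff_dvd.1 ((ZMod.intCast_eq_intCast_iff _ _ _).1 h3.symm))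

end Pool.Agent.Y687
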