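import Pool.Agent.Y687.Comb

/-!
Point counts modulo 4 and 8.
-/

set_option autoImplicit false
set_option linter.style.haveILetI false

open Finset

namespace Pool.Agent.Y687



section field

variable {F : Type} [Field F] [Fintype F] [DecidableEq F]

/-- points with `y ≠ 0` -/
def XX (a b : F) : Finset (F × F) :=
  (Finset.univ : Finset (F × F)).filter (fun P => P.2 ^ 2 = P.1 ^ 3 + a * P.1 ^ 2 + b * P.1 ∧ P.2 ≠ 0)

omit [Fintype F] [DecidableEq F] in
theorem x_ne {a b : F} {P : F × F} (h : P.2 ^ 2 = P.1 ^ 3 + a * P.1 ^ 2 + b * P.1)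
    (h0 : P.2 ≠ 0) : P.1 ≠ 0 := by
  intro h1
  rw [h1] at h
  apply h0
  have : P.2 ^ 2 = 0 := by rw [h]; ring
  exact pow_eq_zero_iff (two_ne_zero) |>.1 this

/-- translation by `(0,0)` -/
def tr (b : F) (P : F × F) : F × F := (b / P.1, -(b * P.2 / P.1 ^ 2))

omit [Fintype F] [DecidableEq F] in
theorem tr_eq {a b : F} (hb : b ≠ 0) {P : F × F}
    (h : P.2 ^ 2 = P.1 ^ 3 + a * P.1 ^ 2 + b * P.1) (h0 : P.2 ≠ 0) :
    (tr b P).2 ^ 2 = (tr b P).1 ^ 3 + a * (tr b P).1 ^ 2 + b * (tr b P).1 ∧ (tr b P).2 ≠ 0 := by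
  have hx := x_ne h h0
  unfold tr
  refine ⟨?_, neg_ne_zero.2 (div_ne_zero (mul_ne_zero hb h0) (pow_ne_zero 2 hx))⟩
  simp only
  field_simp
  linear_combination h

omit [Fintype F] [DecidableEq F] in
theorem tr_tr {b : F} (hb : b ≠ 0) {P : F × F} (hx : P.1 ≠ 0) : tr b (tr b P) = P := by
  unfold tr
  ext
  · simp only
    field_simp
  · simp only
    field_simp

/-- negation -/
def ng (P : F × F) : F × F := (P.1, -P.2)

omit [Fintype F] [DecidableEq F] in
theorem tr_ng (b : F) (P : F × F) : tr b (ng P) = ng (tr b P) := by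
  unfold tr ng
  ext
  · rfl
  · simp only
    ring

omit [Fintype F] [DecidableEq F] in
theorem ng_ng (P : F × F) : ng (ng P) = P := by
  unfold ng
  simp

theorem mem_XX {a b : F} {P : F × F} :
    P ∈ XX a b ↔ P.2 ^ 2 = P.1 ^ 3 + a * P.1 ^ 2 + b * P.1 ∧ P.2 ≠ 0 := by
  unfold XX
  simp

/-- the points outside `x² = b` come in fours -/
theorem four_dvd_XX1 (h2 : (2 : F) ≠ 0) {a b : F} (hb : b ≠ 0) :
    4 ∣ ((XX a b).filter (fun P => P.1 ^ 2 ≠ b)).card := by
  have key := dvd_sum_of_orb ((XX a b).filter (fun P => P.1 ^ 2 ≠ b)) (fun _ => (1 : ℤ))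
    (fun P => {P, ng P, tr b P, ng (tr b P)}) 4 ?_ ?_ ?_
  · rw [Finset.sum_const, nsmul_eq_mul, mul_one] at key
    exact_mod_cast key
  · intro P _
    simp
  · intro P hP Q hQ
    rw [Finset.mem_filter, mem_XX] at hP
    obtain ⟨⟨h1, h0⟩, hne⟩ := hP
    have hx := x_ne h1 h0
    have ht := tr_eq hb h1 h0
    have hne' : (tr b P).1 ^ 2 ≠ b := by
      unfold tr
      simp only
      intro h
      apply hne
      rw [div_pow, div_eq_iff (pow_ne_zero 2 hx)] at h
      have : b * (b - P.1 ^ 2) = 0 := by linear_combination h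
      rcases mul_eq_zero.1 this with h3 | h3
      · exact absurd h3 hb
      · linear_combination -h3
    have hng : ∀ R : F × F, R.2 ^ 2 = R.1 ^ 3 + a * R.1 ^ 2 + b * R.1 ∧ R.2 ≠ 0 →
        (ng R).2 ^ 2 = (ng R).1 ^ 3 + a * (ng R).1 ^ 2 + b * (ng R).1 ∧ (ng R).2 ≠ 0 := by
      rintro R ⟨h3, h4⟩
      unfold ng
      exact ⟨by simp only; rw [neg_sq]; exact h3, neg_ne_zero.2 h4⟩
    simp only [Finset.mem_insert, Finset.mem_singleton] at hQ
    rcases hQ with rfl | rfl | rfl | rfl
    · exact ⟨Finset.mem_filter.2 ⟨mem_XX.2 ⟨h1, h0⟩, hne⟩, rfl, rfl⟩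
    · refine ⟨Finset.mem_filter.2 ⟨mem_XX.2 (hng _ ⟨h1, h0⟩), hne⟩, ?_, rfl⟩
      rw [ng_ng, tr_ng, ng_ng]
      ext x
      simp only [Finset.mem_insert, Finset.mem_singleton]
      tauto
    · refine ⟨Finset.mem_filter.2 ⟨mem_XX.2 ht, hne'⟩, ?_, rfl⟩
      rw [tr_tr hb hx]
      ext x
      simp only [Finset.mem_insert, Finset.mem_singleton]
      tauto
    · refine ⟨Finset.mem_filter.2 ⟨mem_XX.2 (hng _ ht), hne'⟩, ?_, rfl⟩
      rw [ng_ng, tr_ng, tr_tr hb hx, ng_ng]
      ext x
      simp only [Finset.mem_insert, Finset.mem_singleton]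
      tauto
  · intro P hP
    rw [Finset.mem_filter, mem_XX] at hP
    obtain ⟨⟨h1, h0⟩, hne⟩ := hP
    have hx := x_ne h1 h0
    have e1 : ∀ R : F × F, R.2 ≠ 0 → R ≠ ng R := by
      intro R hR h
      have h3 := congrArg Prod.snd h
      unfold ng at h3
      simp only at h3
      have h4 : (2 : F) * R.2 = 0 := by linear_combination h3
      rcases mul_eq_zero.1 h4 with h5 | h5
      · exact h2 h5
      · exact hR h5
    have e2 : (tr b P).1 ≠ P.1 := by
      intro h
      unfold tr at h
      simp only at h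
      apply hne
      rw [div_eq_iff hx] at h
      rw [h]; ring
    have ht := tr_eq hb h1 h0
    rw [Finset.card_insert_of_notMem, Finset.card_insert_of_notMem, Finset.card_pair]
    · exact e1 _ ht.2
    · simp only [Finset.mem_insert, Finset.mem_singleton, not_or]
      refine ⟨fun h => e2 ?_, fun h => e2 ?_⟩
      · have := congrArg Prod.fst h
        exact this.symm
      · have := congrArg Prod.fst h
        exact this.symm
    · simp only [Finset.mem_insert, Finset.mem_singleton, not_or]
      refine ⟨e1 P h0, fun h => e2 ?_, fun h => e2 ?_⟩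
      · have := congrArg Prod.fst h
        exact this.symm
      · have := congrArg Prod.fst h
        exact this.symm

/-- the points with `x² = b` come in fours if `a² - 4b` is a square -/
theorem four_dvd_XX0 (h2 : (2 : F) ≠ 0) {a b d : F} (hb : b ≠ 0) (hd : d ≠ 0)
    (hdd : a ^ 2 - 4 * b = d ^ 2) :
    4 ∣ ((XX a b).filter (fun P => P.1 ^ 2 = b)).card := by
  have key := dvd_sum_of_orb ((XX a b).filter (fun P => P.1 ^ 2 = b)) (fun _ => (1 : ℤ))
    (fun P => {P, ng P, (-P.1, b * d / P.2), ng (-P.1, b * d / P.2)}) 4 ?_ ?_ ?_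
  · rw [Finset.sum_const, nsmul_eq_mul, mul_one] at key
    exact_mod_cast key
  · intro P _
    simp
  · intro P hP Q hQ
    rw [Finset.mem_filter, mem_XX] at hP
    obtain ⟨⟨h1, h0⟩, hbb⟩ := hP
    have hx := x_ne h1 h0
    have hs : (-P.1, b * d / P.2).2 ^ 2 = (-P.1, b * d / P.2).1 ^ 3 + a * (-P.1, b * d / P.2).1 ^ 2
        + b * (-P.1, b * d / P.2).1 ∧ (-P.1, b * d / P.2).2 ≠ 0 := by
      refine ⟨?_, div_ne_zero (mul_ne_zero hb hd) h0⟩
      simp only
      rw [div_pow, div_eq_iff (pow_ne_zero 2 h0), h1, mul_pow, ← hdd, ← hbb]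
      ring
    have hng : ∀ R : F × F, R.2 ^ 2 = R.1 ^ 3 + a * R.1 ^ 2 + b * R.1 ∧ R.2 ≠ 0 →
        (ng R).2 ^ 2 = (ng R).1 ^ 3 + a * (ng R).1 ^ 2 + b * (ng R).1 ∧ (ng R).2 ≠ 0 := by
      rintro R ⟨h3, h4⟩
      unfold ng
      exact ⟨by simp only; rw [neg_sq]; exact h3, neg_ne_zero.2 h4⟩
    have hb' : (-P.1, b * d / P.2).1 ^ 2 = b := by
      simp only
      rw [neg_sq]; exact hbb
    simp only [Finset.mem_insert, Finset.mem_singleton] at hQ
    rcases hQ with rfl | rfl | rfl | rfl
    · exact ⟨Finset.mem_filter.2 ⟨mem_XX.2 ⟨h1, h0⟩, hbb⟩, rfl, rfl⟩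
    · refine ⟨Finset.mem_filter.2 ⟨mem_XX.2 (hng _ ⟨h1, h0⟩), hbb⟩, ?_, rfl⟩
      have e1 : (-(ng P).1, b * d / (ng P).2) = ng (-P.1, b * d / P.2) := by
        unfold ng
        simp only [div_neg]
      rw [ng_ng, e1, ng_ng]
      ext x
      simp only [Finset.mem_insert, Finset.mem_singleton]
      tauto
    · refine ⟨Finset.mem_filter.2 ⟨mem_XX.2 hs, hb'⟩, ?_, rfl⟩
      have e1 : (-(-P.1, b * d / P.2).1, b * d / (-P.1, b * d / P.2).2) = P := by
        ext
        · simp
        · simp only
          field_simp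
      rw [e1]
      ext x
      simp only [Finset.mem_insert, Finset.mem_singleton]
      tauto
    · refine ⟨Finset.mem_filter.2 ⟨mem_XX.2 (hng _ hs), hb'⟩, ?_, rfl⟩
      have e1 : (-(ng (-P.1, b * d / P.2)).1, b * d / (ng (-P.1, b * d / P.2)).2) = ng P := by
        unfold ng
        ext
        · simp
        · simp only
          field_simp
      rw [ng_ng, e1, ng_ng]
      ext x
      simp only [Finset.mem_insert, Finset.mem_singleton]
      tauto
  · intro P hP
    rw [Finset.mem_filter, mem_XX] at hP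
    obtain ⟨⟨h1, h0⟩, hbb⟩ := hP
    have hx := x_ne h1 h0
    have e1 : ∀ R : F × F, R.2 ≠ 0 → R ≠ ng R := by
      intro R hR h
      have h3 := congrArg Prod.snd h
      unfold ng at h3
      simp only at h3
      have h4 : (2 : F) * R.2 = 0 := by linear_combination h3
      rcases mul_eq_zero.1 h4 with h5 | h5
      · exact h2 h5
      · exact hR h5
    have e2 : -P.1 ≠ P.1 := by
      intro h
      have h4 : (2 : F) * P.1 = 0 := by linear_combination -h
      rcases mul_eq_zero.1 h4 with h5 | h5
      · exact h2 h5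
      · exact hx h5
    rw [Finset.card_insert_of_notMem, Finset.card_insert_of_notMem, Finset.card_pair]
    · exact e1 _ (div_ne_zero (mul_ne_zero hb hd) h0)
    · simp only [Finset.mem_insert, Finset.mem_singleton, not_or]
      refine ⟨fun h => e2 ?_, fun h => e2 ?_⟩
      · have := congrArg Prod.fst h
        exact this.symm
      · have := congrArg Prod.fst h
        exact this.symm
    · simp only [Finset.mem_insert, Finset.mem_singleton, not_or]
      refine ⟨e1 P h0, fun h => e2 ?_, fun h => e2 ?_⟩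
      · have := congrArg Prod.fst h
        exact this.symm
      · have := congrArg Prod.fst h
        exact this.symm

/-- the roots -/
def RT (a b : F) : Finset F :=
  (Finset.univ : Finset F).filter (fun x => x ^ 3 + a * x ^ 2 + b * x = 0)

theorem count_split (a b : F) :
    Nat.card {P : F × F // P.2 ^ 2 = P.1 ^ 3 + a * P.1 ^ 2 + b * P.1} =
      (XX a b).card + (RT a b).card := by
  classical
  rw [Nat.card_eq_fintype_card, Fintype.card_subtype]
  rw [← Finset.card_filter_add_card_filter_not (p := fun P : F × F => P.2 ≠ 0)]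
  congr 1
  · unfold XX
    rw [Finset.filter_filter]
  · refine Finset.card_bij (fun P _ => P.1) ?_ ?_ ?_
    · intro P hP
      simp only [Finset.mem_filter, Finset.mem_univ, true_and, not_not] at hP
      unfold RT
      rw [Finset.mem_filter]
      refine ⟨Finset.mem_univ _, ?_⟩
      rw [← hP.1, hP.2]
      ring
    · intro P hP Q hQ h
      simp only [Finset.mem_filter, Finset.mem_univ, true_and, not_not] at hP hQ
      exact Prod.ext h (by rw [hP.2, hQ.2])
    · intro x hx
      unfold RT at hx
      rw [Finset.mem_filter] at hx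
      refine ⟨(x, 0), ?_, rfl⟩
      simp only [Finset.mem_filter, Finset.mem_univ, true_and, not_not]
      exact ⟨by rw [hx.2]; ring, trivial⟩

/-- inert-inert case -/
theorem count_II (h2 : (2 : F) ≠ 0) {a b : F} (hb : ¬ IsSquare b) (hd : ¬ IsSquare (a ^ 2 - 4 * b)) :
    Nat.card {P : F × F // P.2 ^ 2 = P.1 ^ 3 + a * P.1 ^ 2 + b * P.1} % 4 = 1 := by
  have hb0 : b ≠ 0 := by
    rintro rfl
    exact hb ⟨0, by ring⟩
  rw [count_split]
  have h3 : (RT a b).card = 1 := by
    have : RT a b = {0} := by
      unfold RT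
      ext x
      simp only [Finset.mem_filter, Finset.mem_univ, true_and, Finset.mem_singleton]
      constructor
      · intro h
        by_contra hx
        apply hd
        have h4 : x ^ 2 + a * x + b = 0 := by
          have : x * (x ^ 2 + a * x + b) = 0 := by linear_combination h
          exact (mul_eq_zero.1 this).resolve_left hx
        exact ⟨2 * x + a, by linear_combination -4 * h4⟩
      · rintro rfl
        ring
    rw [this, Finset.card_singleton]
  have h4 : 4 ∣ (XX a b).card := by
    have h5 := four_dvd_XX1 (a := a) h2 hb0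
    have h6 : (XX a b).filter (fun P => P.1 ^ 2 ≠ b) = XX a b := by
      refine Finset.filter_true_of_mem fun P _ h => hb ⟨P.1, by rw [← h]; ring⟩
    rwa [h6] at h5
  omega

/-- split-split case -/
theorem count_SS (h2 : (2 : F) ≠ 0) {a b d : F} (hb : b ≠ 0) (hd : d ≠ 0)
    (hdd : a ^ 2 - 4 * b = d ^ 2) :
    Nat.card {P : F × F // P.2 ^ 2 = P.1 ^ 3 + a * P.1 ^ 2 + b * P.1} % 4 = 3 := by
  rw [count_split]
  have h3 : (RT a b).card = 3 := by
    have h4' : RT a b = {0, (-a + d) / 2, (-a - d) / 2} := by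
      unfold RT
      ext x
      simp only [Finset.mem_filter, Finset.mem_univ, true_and, Finset.mem_insert,
        Finset.mem_singleton]
      have e : 4 * (x ^ 3 + a * x ^ 2 + b * x) = x * ((2 * x + a - d) * (2 * x + a + d)) := by
        linear_combination (-x) * hdd
      have h4 : (4 : F) ≠ 0 := by
        have : (4 : F) = 2 * 2 := by norm_num
        rw [this]; exact mul_ne_zero h2 h2
      constructor
      · intro h
        rw [h, mul_zero] at e
        rcases mul_eq_zero.1 e.symm with h5 | h5
        · exact Or.inl h5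
        · rcases mul_eq_zero.1 h5 with h6 | h6
          · right; left
            rw [eq_div_iff h2]
            linear_combination h6
          · right; right
            rw [eq_div_iff h2]
            linear_combination h6
      · intro h
        apply (mul_eq_zero.1 (show 4 * (x ^ 3 + a * x ^ 2 + b * x) = 0 from ?_)).resolve_left h4
        rw [e]
        rcases h with h | h | h
        · rw [h]; ring
        · rw [eq_div_iff h2] at h
          have : 2 * x + a - d = 0 := by linear_combination h
          rw [this]; ring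
        · rw [eq_div_iff h2] at h
          have : 2 * x + a + d = 0 := by linear_combination h
          rw [this]; ring
    have hprod : (-a + d) * (-a - d) = 4 * b := by linear_combination hdd
    have h4 : (4 : F) ≠ 0 := by
      have : (4 : F) = 2 * 2 := by norm_num
      rw [this]; exact mul_ne_zero h2 h2
    have n1 : -a + d ≠ 0 := by
      intro h
      rw [h, zero_mul] at hprod
      exact mul_ne_zero h4 hb hprod.symm
    have n2 : -a - d ≠ 0 := by
      intro h
      rw [h, mul_zero] at hprod
      exact mul_ne_zero h4 hb hprod.symm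
    rw [h4', Finset.card_insert_of_notMem, Finset.card_pair]
    · intro h
      rw [div_left_inj' h2] at h
      apply hd
      have : 2 * d = 0 := by linear_combination h
      exact (mul_eq_zero.1 this).resolve_left h2
    · simp only [Finset.mem_insert, Finset.mem_singleton, not_or]
      exact ⟨(div_ne_zero n1 h2).symm, (div_ne_zero n2 h2).symm⟩
  have h5 := four_dvd_XX1 (a := a) h2 hb
  have h6 := four_dvd_XX0 h2 hb hd hdd
  have h7 := Finset.card_filter_add_card_filter_not (s := XX a b) (p := fun P : F × F => P.1 ^ 2 = b)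
  have h8 : ((XX a b).filter (fun P => ¬ P.1 ^ 2 = b)).card = ((XX a b).filter (fun P => P.1 ^ 2 ≠ b)).card := rfl
  omega

end field

end Pool.Agent.Y687
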