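import Mathlib

/-!
A point of order four and full two-torsion: eight divides the number of points.
-/

set_option autoImplicit false
set_option linter.style.haveILetI false

namespace Pool.Agent.Y687

open WeierstrassCurve WeierstrassCurve.Affine

theorem eight_group {G : Type*} [AddCommGroup G] [Finite G] {Q T1 : G}
    (hQ4 : addOrderOf Q = 4) (hT : 2 • T1 = 0) (hT0 : T1 ≠ 0) (hT1 : T1 ≠ 2 • Q) :
    8 ∣ Nat.card G := by
  set H := AddSubgroup.zmultiples Q with hH
  have hcH : Nat.card H = 4 := by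
    rw [hH, Nat.card_zmultiples, hQ4]
  have hcard := AddSubgroup.card_eq_card_quotient_mul_card_addSubgroup H
  have hnot : T1 ∉ H := by
    intro h
    rw [hH, AddSubgroup.mem_zmultiples_iff] at h
    obtain ⟨n, hn⟩ := h
    have h1 : (2 * n) • Q = 0 := by
      rw [mul_zsmul, hn]
      exact_mod_cast hT
    have h2 : (4 : ℤ) ∣ 2 * n := by
      have := addOrderOf_dvd_iff_zsmul_eq_zero.2 h1
      rw [hQ4] at this
      exact_mod_cast this
    obtain ⟨m, hm⟩ : ∃ m, n = 2 * m := ⟨n / 2, by omega⟩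
    rw [hm] at hn
    have h4 : (4 : ℤ) • Q = 0 := by
      have := addOrderOf_nsmul_eq_zero Q
      rw [hQ4] at this
      exact_mod_cast this
    rcases Int.even_or_odd m with ⟨k, hk⟩ | ⟨k, hk⟩
    · apply hT0
      rw [← hn, hk]
      have : (2 * (k + k)) • Q = k • ((4 : ℤ) • Q) := by
        rw [← mul_zsmul]; congr 1; ring
      rw [this, h4, smul_zero]
    · apply hT1
      rw [← hn, hk]
      have : (2 * (2 * k + 1)) • Q = k • ((4 : ℤ) • Q) + (2 : ℤ) • Q := by
        rw [← mul_zsmul, ← add_zsmul]; congr 1; ring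
      rw [this, h4, smul_zero, zero_add]
      norm_cast
  have h2 : 2 ∣ Nat.card (G ⧸ H) := by
    haveI : Fact (Nat.Prime 2) := ⟨Nat.prime_two⟩
    have h3 : addOrderOf ((T1 : G) : G ⧸ H) = 2 := by
      apply addOrderOf_eq_prime
      · rw [← QuotientAddGroup.mk_nsmul, hT, QuotientAddGroup.mk_zero]
      · intro h
        exact hnot ((QuotientAddGroup.eq_zero_iff T1).1 h)
    rw [← h3]
    exact addOrderOf_dvd_natCard _
  rw [hcard, hcH]
  obtain ⟨k, hk⟩ := h2
  exact ⟨k, by rw [hk]; ring⟩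

theorem eight_dvd {F : Type} [Field F] [Fintype F] [DecidableEq F] (h2 : (2 : F) ≠ 0)
    {α β i : F} (hi : i ^ 2 = -1) (hα : α ≠ 0) (hβ : β ≠ 0) (hαβ : α ^ 2 ≠ β ^ 2) :
    8 ∣ Nat.card {P : F × F // P.2 ^ 2 = P.1 ^ 3 + (-(α ^ 2 + β ^ 2)) * P.1 ^ 2 +
      (α ^ 2 * β ^ 2) * P.1} + 1 := by
  classical
  set W : WeierstrassCurve F := ⟨0, -(α ^ 2 + β ^ 2), 0, α ^ 2 * β ^ 2, 0⟩ with hW
  have ha1 : W.a₁ = 0 := rfl
  have ha2 : W.a₂ = -(α ^ 2 + β ^ 2) := rfl
  have ha3 : W.a₃ = 0 := rfl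
  have ha4 : W.a₄ = α ^ 2 * β ^ 2 := rfl
  have ha6 : W.a₆ = 0 := rfl
  have hΔ : W.Δ ≠ 0 := by
    have : W.Δ = 2 ^ 4 * (α ^ 2 * β ^ 2) ^ 2 * (α ^ 2 - β ^ 2) ^ 2 := by
      simp only [WeierstrassCurve.Δ, WeierstrassCurve.b₂, WeierstrassCurve.b₄, WeierstrassCurve.b₆,
        WeierstrassCurve.b₈, ha1, ha2, ha3, ha4, ha6]
      ring
    rw [this]
    exact mul_ne_zero (mul_ne_zero (pow_ne_zero _ h2) (pow_ne_zero _ (mul_ne_zero
      (pow_ne_zero _ hα) (pow_ne_zero _ hβ)))) (pow_ne_zero _ (sub_ne_zero.2 hαβ))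
  haveI : W.IsElliptic := ⟨isUnit_iff_ne_zero.2 hΔ⟩
  have hcard : Nat.card (WeierstrassCurve.Affine.Point W.toAffine) =
      Nat.card {P : F × F // P.2 ^ 2 = P.1 ^ 3 + (-(α ^ 2 + β ^ 2)) * P.1 ^ 2 +
      (α ^ 2 * β ^ 2) * P.1} + 1 := by
    rw [Nat.card_congr (pointEquiv W.toAffine)]
    have h3 : Nat.card {xy : F × F // W.toAffine.Equation xy.fst xy.snd} =
        Nat.card {P : F × F // P.2 ^ 2 = P.1 ^ 3 + (-(α ^ 2 + β ^ 2)) * P.1 ^ 2 +
      (α ^ 2 * β ^ 2) * P.1} := by
      refine Nat.card_congr (Equiv.subtypeEquivRight fun P => ?_)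
      rw [WeierstrassCurve.Affine.equation_iff, ha1, ha2, ha3, ha4, ha6]
      simp
    rw [← h3]
    exact Finite.card_option
  haveI : Finite (WeierstrassCurve.Affine.Point W.toAffine) := by
    haveI : Finite (WithZero {xy : F × F // W.toAffine.Equation xy.fst xy.snd}) :=
      inferInstanceAs (Finite (Option {xy : F × F // W.toAffine.Equation xy.fst xy.snd}))
    exact Finite.of_equiv _ (pointEquiv W.toAffine).symm
  have hi0 : i ≠ 0 := by
    rintro rfl
    norm_num at hi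
  have hab : α - β ≠ 0 := by
    intro h
    apply hαβ
    have : α = β := sub_eq_zero.1 h
    rw [this]
  have hy0 : i * (α * β) * (α - β) ≠ 0 :=
    mul_ne_zero (mul_ne_zero hi0 (mul_ne_zero hα hβ)) hab
  have hQe : W.toAffine.Equation (α * β) (i * (α * β) * (α - β)) := by
    rw [WeierstrassCurve.Affine.equation_iff, ha1, ha2, ha3, ha4, ha6]
    linear_combination ((α * β) ^ 2 * (α - β) ^ 2) * hi
  have hTe : W.toAffine.Equation 0 0 := by
    rw [WeierstrassCurve.Affine.equation_iff, ha1, ha2, ha3, ha4, ha6]; ring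
  have hT1e : W.toAffine.Equation (α ^ 2) 0 := by
    rw [WeierstrassCurve.Affine.equation_iff, ha1, ha2, ha3, ha4, ha6]; ring
  have hQn := (equation_iff_nonsingular (W := W.toAffine)).1 hQe
  have hTn := (equation_iff_nonsingular (W := W.toAffine)).1 hTe
  have hT1n := (equation_iff_nonsingular (W := W.toAffine)).1 hT1e
  have hTT : 2 • (Point.some _ _ hTn : W.toAffine.Point) = 0 := by
    rw [two_nsmul]
    apply Point.add_self_of_Y_eq
    rw [negY, ha1, ha3]; ring
  have hT1T1 : 2 • (Point.some _ _ hT1n : W.toAffine.Point) = 0 := by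
    rw [two_nsmul]
    apply Point.add_self_of_Y_eq
    rw [negY, ha1, ha3]; ring
  have hY : (i * (α * β) * (α - β)) ≠ W.toAffine.negY (α * β) (i * (α * β) * (α - β)) := by
    rw [negY, ha1, ha3]
    intro h
    have : 2 * (i * (α * β) * (α - β)) = 0 := by linear_combination h
    exact mul_ne_zero h2 hy0 this
  have hsl : W.toAffine.slope (α * β) (α * β) (i * (α * β) * (α - β)) (i * (α * β) * (α - β)) =
      i * (α - β) := by
    rw [slope_of_Y_ne rfl hY, ha1, ha2, ha4, negY, ha1, ha3]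
    rw [div_eq_iff]
    · linear_combination (-2 * (α * β) * (α - β) ^ 2) * hi
    · intro h
      have : 2 * (i * (α * β) * (α - β)) = 0 := by linear_combination h
      exact mul_ne_zero h2 hy0 this
  have hQQ : 2 • (Point.some _ _ hQn : W.toAffine.Point) = Point.some _ _ hTn := by
    rw [two_nsmul, Point.add_self_of_Y_ne hY]
    have e1 : W.toAffine.addX (α * β) (α * β)
        (W.toAffine.slope (α * β) (α * β) (i * (α * β) * (α - β)) (i * (α * β) * (α - β))) = 0 := by
      rw [hsl, addX, ha1, ha2]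
      linear_combination ((α - β) ^ 2) * hi
    have e2 : W.toAffine.addY (α * β) (α * β) (i * (α * β) * (α - β))
        (W.toAffine.slope (α * β) (α * β) (i * (α * β) * (α - β)) (i * (α * β) * (α - β))) = 0 := by
      rw [addY, e1, negAddY, e1, hsl, negY, ha1, ha3]
      ring
    simp only [e1, e2]
  have hQ4 : addOrderOf (Point.some _ _ hQn : W.toAffine.Point) = 4 := by
    haveI : Fact (Nat.Prime 2) := ⟨Nat.prime_two⟩
    have h4 : (4 : ℕ) = 2 ^ (1 + 1) := by norm_num
    rw [h4]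
    apply addOrderOf_eq_prime_pow
    · rw [pow_one, hQQ]
      exact Point.some_ne_zero _
    · rw [show (2 : ℕ) ^ (1 + 1) = 2 * 2 by norm_num, mul_nsmul, hQQ, hTT]
  rw [← hcard]
  refine eight_group hQ4 hT1T1 (Point.some_ne_zero _) ?_
  rw [hQQ]
  intro h
  have h5 := (Point.some.inj h).1
  exact pow_ne_zero 2 hα h5

end Pool.Agent.Y687
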