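import Pool.Agent.Y687.Lfin
import Pool.Agent.Y687.Cnt
import Pool.Agent.Y687.Eight

/-!
The coefficients `a_q` of `X_0(14)` modulo 4 and 8.
-/

set_option autoImplicit false
set_option linter.style.haveILetI false

namespace Pool.Agent.Y687

open Pool.Agent.W97.MT (ap E14 affCount)

theorem cast_ne {p : ℕ} (hp : p.Prime) (l : ℕ) (hl : l.Prime) (h : p ≠ l) :
    (l : ZMod p) ≠ 0 := by
  intro h0
  rw [ZMod.natCast_eq_zero_iff] at h0
  exact h ((Nat.prime_dvd_prime_iff_eq hp hl).1 h0)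

/-- the model `y² = x (x² + 13 M x + 128 M²)` -/
theorem cnt_model (M : ℤ) (p : ℕ) [Fact p.Prime] (h3 : p ≠ 3) :
    cnt (5805 * M ^ 2) (-285714 * M ^ 3) p = Nat.card {P : ZMod p × ZMod p //
      P.2 ^ 2 = P.1 ^ 3 + (13 * (M : ZMod p)) * P.1 ^ 2 + (128 * (M : ZMod p) ^ 2) * P.1} := by
  have hp : p.Prime := Fact.out
  have n3 : (3 : ZMod p) ≠ 0 := by exact_mod_cast cast_ne hp 3 Nat.prime_three h3
  have n9 : (9 : ZMod p) ≠ 0 := by
    rw [show (9 : ZMod p) = 3 * 3 by norm_num]; exact mul_ne_zero n3 n3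
  have n27 : (27 : ZMod p) ≠ 0 := by
    rw [show (27 : ZMod p) = 9 * 3 by norm_num]; exact mul_ne_zero n9 n3
  unfold cnt
  refine Nat.card_congr
    { toFun := fun x => ⟨((x.1.1 - 39 * M) / 9, x.1.2 / 27), ?_⟩
      invFun := fun x => ⟨(9 * x.1.1 + 39 * M, 27 * x.1.2), ?_⟩
      left_inv := ?_
      right_inv := ?_ }
  · have h := x.2
    push_cast at h ⊢
    obtain ⟨u, hu⟩ : ∃ u, u = (x.1.1 - 39 * M) / 9 := ⟨_, rfl⟩
    obtain ⟨v, hv⟩ : ∃ v, v = x.1.2 / 27 := ⟨_, rfl⟩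
    rw [← hu, ← hv]
    have e1 : x.1.1 = 9 * u + 39 * M := by rw [hu]; field_simp; ring
    have e2 : x.1.2 = 27 * v := by rw [hv]; field_simp
    rw [e1, e2] at h
    have n729 : (729 : ZMod p) ≠ 0 := by
      rw [show (729 : ZMod p) = 27 * 27 by norm_num]; exact mul_ne_zero n27 n27
    apply mul_left_cancel₀ n729
    linear_combination h
  · have h := x.2
    push_cast at h ⊢
    linear_combination 729 * h
  · intro x
    ext
    · show 9 * ((x.1.1 - 39 * M) / 9) + 39 * M = x.1.1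
      field_simp
      ring
    · show 27 * (x.1.2 / 27) = x.1.2
      field_simp
  · intro x
    ext
    · show (9 * x.1.1 + 39 * M - 39 * M) / 9 = x.1.1
      field_simp
      ring
    · show 27 * x.1.2 / 27 = x.1.2
      field_simp

theorem two_ne {p : ℕ} (hp : p.Prime) (h : p ≠ 2) : (2 : ZMod p) ≠ 0 := by
  exact_mod_cast cast_ne hp 2 Nat.prime_two h

theorem seven_ne {p : ℕ} (hp : p.Prime) (h : p ≠ 7) : (7 : ZMod p) ≠ 0 := by
  exact_mod_cast cast_ne hp 7 (by norm_num) h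

theorem sq7 : ∀ r : ℕ, r < 7 → r ≠ 0 →
    (IsSquare ((r : ℕ) : ZMod 7) ↔ (r = 1 ∨ r = 2 ∨ r = 4)) := by
  decide

/-- the square class of `-7` -/
theorem sq_seven (p : ℕ) [Fact p.Prime] (h4 : p % 4 = 1) (h7 : p ≠ 7) :
    IsSquare (-7 : ZMod p) ↔ (p % 7 = 1 ∨ p % 7 = 2 ∨ p % 7 = 4) := by
  haveI : Fact (Nat.Prime 7) := ⟨by norm_num⟩
  have hp : p.Prime := Fact.out
  obtain ⟨i, hi⟩ := (ZMod.exists_sq_eq_neg_one_iff (p := p)).2 (by omega)
  have hi0 : i ≠ 0 := by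
    rintro rfl
    norm_num at hi
  have h1 : IsSquare (-7 : ZMod p) ↔ IsSquare (7 : ZMod p) := by
    constructor
    · rintro ⟨r, hr⟩
      exact ⟨i * r, by linear_combination (i * i) * hr + (-7 : ZMod p) * hi⟩
    · rintro ⟨r, hr⟩
      exact ⟨i * r, by linear_combination (i * i) * hr + (7 : ZMod p) * hi⟩
  rw [h1]
  have h2 : IsSquare ((7 : ℕ) : ZMod p) ↔ IsSquare ((p : ℕ) : ZMod 7) :=
    ZMod.exists_sq_eq_prime_iff_of_mod_four_eq_one (p := p) (q := 7) h4 (by norm_num)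
  have h3 : IsSquare (7 : ZMod p) ↔ IsSquare ((p : ℕ) : ZMod 7) := by
    rw [← h2]; norm_num
  rw [h3]
  have h4' : ((p : ℕ) : ZMod 7) = ((p % 7 : ℕ) : ZMod 7) := by rw [ZMod.natCast_mod]
  have h5 : p % 7 ≠ 0 := by
    intro h0
    exact h7 ((Nat.prime_dvd_prime_iff_eq (by norm_num) hp).1 (Nat.dvd_of_mod_eq_zero h0)).symm
  rw [h4']
  exact sq7 (p % 7) (Nat.mod_lt _ (by norm_num)) h5

theorem sq_two (p : ℕ) [Fact p.Prime] (h4 : p % 4 = 1) :
    IsSquare (2 : ZMod p) ↔ p % 8 = 1 := by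
  rw [ZMod.exists_sq_eq_two_iff (by omega)]
  omega

theorem jac14 (p : ℕ) [Fact p.Prime] (h4 : p % 4 = 1) (h7 : p ≠ 7)
    (h : (p % 8 = 1) ↔ (p % 7 = 1 ∨ p % 7 = 2 ∨ p % 7 = 4)) : jacobiSym 14 p = 1 := by
  have hp : p.Prime := Fact.out
  have n2 := two_ne hp (by omega : p ≠ 2)
  have n7 := seven_ne hp h7
  obtain ⟨i, hi⟩ := (ZMod.exists_sq_eq_neg_one_iff (p := p)).2 (by omega)
  have hi0 : i ≠ 0 := by
    rintro rfl
    norm_num at hi
  rw [← jacobiSym.legendreSym.to_jacobiSym]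
  have n14 : ((14 : ℤ) : ZMod p) ≠ 0 := by
    rw [show ((14 : ℤ) : ZMod p) = 2 * 7 by norm_num]
    exact mul_ne_zero n2 n7
  rw [legendreSym.eq_one_iff p n14]
  have h1 : IsSquare (2 : ZMod p) ↔ IsSquare (-7 : ZMod p) := by
    rw [sq_two p h4, sq_seven p h4 h7, h]
  by_cases hs : IsSquare (2 : ZMod p)
  · obtain ⟨r, hr⟩ := hs
    obtain ⟨t, ht⟩ := h1.1 ⟨r, hr⟩
    refine ⟨i * r * t, ?_⟩
    push_cast
    linear_combination (-7 : ZMod p) * (i * i) * hr + (i * i * (r * r)) * ht + (-14 : ZMod p) * hi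
      - (i * i) * (-7 : ZMod p) * hr + (i * i) * (-7 : ZMod p) * hr
  · have hs' : ¬ IsSquare (-7 : ZMod p) := fun h0 => hs (h1.2 h0)
    have hc : ringChar (ZMod p) ≠ 2 := by rw [ZMod.ringChar_zmod_n]; omega
    have q1 : quadraticChar (ZMod p) 2 = -1 := quadraticChar_neg_one_iff_not_isSquare.2 hs
    have q2 : quadraticChar (ZMod p) (-7) = -1 := quadraticChar_neg_one_iff_not_isSquare.2 hs'
    have q3 : quadraticChar (ZMod p) (2 * -7) = 1 := by
      rw [map_mul, q1, q2]; norm_num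
    have h0 : (2 * -7 : ZMod p) ≠ 0 := mul_ne_zero n2 (neg_ne_zero.2 n7)
    obtain ⟨r, hr⟩ := (quadraticChar_one_iff_isSquare h0).1 q3
    refine ⟨i * r, ?_⟩
    push_cast
    linear_combination (i * i) * hr + (-14 : ZMod p) * hi

/-- the primes inert in both fields -/
theorem II_facts (q : ℕ) (hq : q.Prime) (h8 : q % 8 = 5) (h7 : q % 7 = 3 ∨ q % 7 = 5 ∨ q % 7 = 6) :
    isII (fun q => ap E14 q) q := by
  haveI : Fact q.Prime := ⟨hq⟩
  have h4 : q % 4 = 1 := by omega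
  have q7 : q ≠ 7 := by omega
  have n2 := two_ne hq (by omega : q ≠ 2)
  have n7 := seven_ne hq q7
  refine ⟨hq, h4, jac14 q h4 q7 (by omega), ?_⟩
  have h1 := cnt_E14 q hq (by omega) (by omega)
  have h2 := cnt_model 1 q (by omega)
  have h3 : cnt (5805 * 1 ^ 2) (-285714 * 1 ^ 3) q = cnt 5805 (-285714) q := by norm_num
  rw [h3] at h2
  have h5 := count_II (F := ZMod q) n2 (a := 13 * ((1 : ℤ) : ZMod q)) (b := 128 * ((1 : ℤ) : ZMod q) ^ 2)
    ?_ ?_
  · rw [← h2] at h5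
    show (4 : ℤ) ∣ ap E14 q
    rw [← h1]
    omega
  · rintro ⟨r, hr⟩
    have : IsSquare (2 : ZMod q) := by
      have n8 : (8 : ZMod q) ≠ 0 := by
        rw [show (8 : ZMod q) = 2 ^ 3 by norm_num]; exact pow_ne_zero _ n2
      refine ⟨r / 8, ?_⟩
      rw [div_mul_div_comm, ← hr, eq_div_iff (mul_ne_zero n8 n8)]
      push_cast
      ring
    rw [sq_two q h4] at this
    omega
  · rintro ⟨r, hr⟩
    have : IsSquare (-7 : ZMod q) := by
      refine ⟨r / 7, ?_⟩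
      rw [div_mul_div_comm, ← hr, eq_div_iff (mul_ne_zero n7 n7)]
      push_cast
      ring
    rw [sq_seven q h4 q7] at this
    omega

/-- the primes split in both fields -/
theorem SS_facts (p : ℕ) (hp : p.Prime) (h8 : p % 8 = 1) (h7 : p % 7 = 1 ∨ p % 7 = 2 ∨ p % 7 = 4) :
    jacobiSym 14 p = 1 ∧ (4 : ℤ) ∣ ap E14 p - 2 := by
  haveI : Fact p.Prime := ⟨hp⟩
  have h4 : p % 4 = 1 := by omega
  have q7 : p ≠ 7 := by omega
  have n2 := two_ne hp (by omega : p ≠ 2)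
  have n7 := seven_ne hp q7
  refine ⟨jac14 p h4 q7 (by omega), ?_⟩
  have h1 := cnt_E14 p hp (by omega) (by
    rintro rfl
    omega)
  have h2 := cnt_model 1 p (by
    rintro rfl
    omega)
  have h3 : cnt (5805 * 1 ^ 2) (-285714 * 1 ^ 3) p = cnt 5805 (-285714) p := by norm_num
  rw [h3] at h2
  obtain ⟨r, hr⟩ := (sq_seven p h4 q7).2 h7
  have hr0 : r ≠ 0 := by
    rintro rfl
    apply n7
    linear_combination -hr
  have h5 := count_SS (F := ZMod p) n2 (a := 13 * ((1 : ℤ) : ZMod p)) (b := 128 * ((1 : ℤ) : ZMod p) ^ 2)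
    (d := 7 * r) ?_ (mul_ne_zero n7 hr0) ?_
  · rw [← h2] at h5
    rw [← h1]
    omega
  · push_cast
    rw [one_pow, mul_one, show (128 : ZMod p) = 2 ^ 7 by norm_num]
    exact pow_ne_zero _ n2
  · push_cast
    linear_combination (49 : ZMod p) * hr

/-- consequences of the hypothesis on the number of points modulo 8 -/
theorem hyp_facts (p : ℕ) (hp : p.Prime) (h8 : p % 8 = 1) (h7 : p % 7 = 1 ∨ p % 7 = 2 ∨ p % 7 = 4)
    (m : ℕ) (hm4 : m % 4 = 1) (hpm : ¬ p ∣ m)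
    (hN : ¬ 8 ∣ cnt (5805 * (m : ℤ) ^ 2) (-285714 * (m : ℤ) ^ 3) p + 1) :
    (¬ (8 : ℤ) ∣ ap E14 p - 2 * jacobiSym p m) ∧
      ∀ x : ZMod p, x ^ 2 + 13 * (m : ZMod p) * x + 128 * (m : ZMod p) ^ 2 = 0 → ¬ IsSquare x := by
  haveI : Fact p.Prime := ⟨hp⟩
  have h4 : p % 4 = 1 := by omega
  have q7 : p ≠ 7 := by omega
  have q3 : p ≠ 3 := by rintro rfl; omega
  have n2 := two_ne hp (by omega : p ≠ 2)
  have n7 := seven_ne hp q7
  have nm : (m : ZMod p) ≠ 0 := by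
    intro h
    rw [ZMod.natCast_eq_zero_iff] at h
    exact hpm h
  constructor
  · obtain ⟨-, k, hk⟩ := SS_facts p hp h8 h7
    have h1 := cnt_twist 5805 (-285714) m p (by omega) hm4 hpm
    rw [cnt_E14 p hp (by omega) q3] at h1
    have hj : jacobiSym p m = 1 ∨ jacobiSym p m = -1 := by
      refine jacobiSym.eq_one_or_neg_one ?_
      rw [Int.gcd_natCast_natCast]
      exact (Nat.Prime.coprime_iff_not_dvd hp).2 hpm
    intro h
    apply hN
    rcases hj with hj | hj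
    · rw [hj] at h h1
      zify
      omega
    · rw [hj] at h h1
      zify
      omega
  · rintro x hx ⟨α, hα⟩
    obtain ⟨s, hs⟩ := (sq_two p h4).2 h8
    obtain ⟨i, hi⟩ := (ZMod.exists_sq_eq_neg_one_iff (p := p)).2 (by omega)
    have hx0 : x ≠ 0 := by
      rintro rfl
      have : (128 : ZMod p) * (m : ZMod p) ^ 2 = 0 := by linear_combination hx
      rcases mul_eq_zero.1 this with h | h
      · rw [show (128 : ZMod p) = 2 ^ 7 by norm_num] at h
        exact pow_ne_zero _ n2 h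
      · exact pow_ne_zero _ nm h
    have hα0 : α ≠ 0 := by
      rintro rfl
      apply hx0
      rw [hα]; ring
    have hs0 : s ≠ 0 := by
      rintro rfl
      apply n2
      rw [hs]; ring
    set β : ZMod p := 8 * (m : ZMod p) * s / α with hβ
    have n8 : (8 : ZMod p) ≠ 0 := by
      rw [show (8 : ZMod p) = 2 ^ 3 by norm_num]; exact pow_ne_zero _ n2
    have hβ0 : β ≠ 0 := div_ne_zero (mul_ne_zero (mul_ne_zero n8 nm) hs0) hα0
    have hab : α ^ 2 * β ^ 2 = 128 * (m : ZMod p) ^ 2 := by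
      rw [hβ, div_pow, mul_div_assoc', mul_div_cancel_left₀ _ (pow_ne_zero 2 hα0)]
      linear_combination (-64 * (m : ZMod p) ^ 2) * hs
    have hsum : -(α ^ 2 + β ^ 2) = 13 * (m : ZMod p) := by
      have h1 : α ^ 2 * (-(α ^ 2 + β ^ 2)) = α ^ 2 * (13 * (m : ZMod p)) := by
        have h2 : x = α ^ 2 := by rw [hα]; ring
        rw [h2] at hx
        linear_combination -hx - hab
      exact mul_left_cancel₀ (pow_ne_zero 2 hα0) h1
    have hne : α ^ 2 ≠ β ^ 2 := by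
      intro h
      have h1 : (343 : ZMod p) * (m : ZMod p) ^ 2 = 0 := by
        have e1 : (α ^ 2 - β ^ 2) ^ 2 = -343 * (m : ZMod p) ^ 2 := by
          linear_combination (-(α ^ 2 + β ^ 2) + 13 * (m : ZMod p)) * hsum - 4 * hab
        rw [h, sub_self] at e1
        linear_combination e1
      rcases mul_eq_zero.1 h1 with h2 | h2
      · rw [show (343 : ZMod p) = 7 ^ 3 by norm_num] at h2
        exact pow_ne_zero _ n7 h2
      · exact pow_ne_zero _ nm h2
    have h9 := eight_dvd n2 (i := i) (by rw [hi]; ring) hα0 hβ0 hne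
    rw [hab, hsum] at h9
    apply hN
    rw [cnt_model (m : ℤ) p q3]
    push_cast
    exact h9

end Pool.Agent.Y687
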