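import Pool.Agent.W97.MT.Fin
import Pool.Agent.Y687.Comb2

/-!
The modular symbol of `X_0(14)` and the Atkin-Lehner involution.
-/

set_option autoImplicit false

open Filter Topology MeasureTheory Set

namespace Pool.Agent.Y687

open Pool.Agent.W97.TW Pool.Agent.W97.MT

/-- the path to a rational point -/
lemma path14 {a c w y : ℤ} (hc : 0 < c) (h : 14 * a * w - c * y = 1) {s : ℝ} (hs : 0 < s) :
    (((-y : ℤ) : ℂ) * m14 (((-w / c : ℝ) : ℂ) + s * Complex.I) + (a : ℤ)) /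
      (14 * ((-w : ℤ) : ℂ) * m14 (((-w / c : ℝ) : ℂ) + s * Complex.I) + (c : ℤ)) =
      (a : ℂ) / c + ((14 * (c : ℝ) ^ 2 * s)⁻¹ : ℝ) * Complex.I := by
  have hs' : (s : ℂ) ≠ 0 := by exact_mod_cast hs.ne'
  have hc' : (c : ℂ) ≠ 0 := by exact_mod_cast hc.ne'
  have h' : (14 : ℂ) * a * w - c * y = 1 := by exact_mod_cast h
  rw [inv_I _ _ hs.ne']
  have hz : 0 < (-(w : ℂ) / c + s * Complex.I).im := by
    have : -(w : ℂ) / c = ((-w / c : ℝ) : ℂ) := by push_cast; ring
    rw [this]; simpa using hs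
  have hz0 : (-(w : ℂ) / c + s * Complex.I) ≠ 0 := fun h0 => by rw [h0] at hz; simp at hz
  have hu : (s : ℂ) * Complex.I ≠ 0 := mul_ne_zero hs' Complex.I_ne_zero
  unfold m14
  push_cast
  set u : ℂ := (s : ℂ) * Complex.I with hu'
  have hz1 : -(w : ℂ) + c * u ≠ 0 := by
    intro h0
    apply hz0
    field_simp
    linear_combination h0
  have e1 : (14 : ℂ) * -w * (-1 / (14 * (-(w : ℂ) / c + u))) + c = c * c * u / (-(w : ℂ) + c * u) := by
    field_simp
    ring
  have e2 : -(y : ℂ) * (-1 / (14 * (-(w : ℂ) / c + u))) + a = (c * y + 14 * a * (-w + c * u)) /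
      (14 * (-(w : ℂ) + c * u)) := by
    field_simp
  rw [e1, e2]
  field_simp
  linear_combination -h'

lemma iI_real (f : ℝ → ℝ) (x : ℝ) {l : Filter ℝ} (h : Tendsto f l atTop) :
    Tendsto (fun t : ℝ => (x : ℂ) + ((f t : ℝ) : ℂ) * Complex.I) l iI := by
  unfold iI
  rw [tendsto_comap_iff]
  have e : Complex.im ∘ (fun t : ℝ => (x : ℂ) + ((f t : ℝ) : ℂ) * Complex.I) = f := by
    ext t; simp
  rw [e]
  exact h

/-- the integrals at the two ends of the geodesic from `a/c` to `-w/c` -/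
theorem II_inv' (L : PeriodPair) (g2 : L.g₂ = -215 / 12) (g3 : L.g₃ = 5291 / 216)
    {ε C : ℂ} (hε : ε = 1 ∨ ε = -1)
    (hF : ∀ z : ℂ, 0 < z.im → F (m14 z) = ε * F z + C)
    {a c w y : ℤ} (hc : 0 < c) (h : 14 * a * w - c * y = 1) :
    II (-(w : ℚ) / c) = -ε * II ((a : ℚ) / c) ∧
      Tendsto (fun t : ℝ => F ((((a : ℚ) / c : ℚ) : ℂ) + t * Complex.I)) (𝓝[>] 0)
        (𝓝 (II ((a : ℚ) / c))) := by
  have hint := (integrals hcp hqe hode L g2 g3 hinj htors).2.2.2.2.1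
  have hcR : (0 : ℝ) < c := by exact_mod_cast hc
  have hdet : (-y) * c - a * (14 * (-w)) = 1 := by linarith
  obtain ⟨p, hp⟩ := F_gamma hcp hqe hdet
  have hm : ∀ z : ℂ, 0 < z.im → 0 < (m14 z).im := (isCusp14 hcp hqe).pos
  -- the key relation
  have key : ∀ s : ℝ, 0 < s → F ((a : ℂ) / c + ((14 * (c : ℝ) ^ 2 * s)⁻¹ : ℝ) * Complex.I)
      = ε * F (((-w / c : ℝ) : ℂ) + s * Complex.I) + (C + p) := by
    intro s hs
    have him : 0 < (((-w / c : ℝ) : ℂ) + s * Complex.I).im := by simpa using hs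
    have h1 := hp _ (hm _ him)
    rw [path14 hc h hs, hF _ him] at h1
    rw [h1]; ring
  have ra : (((a : ℚ) / c : ℚ) : ℂ) = (a : ℂ) / c := by push_cast; rfl
  have rw1 : ((-(w : ℚ) / c : ℚ) : ℂ) = ((-w / c : ℝ) : ℂ) := by push_cast; rfl
  have rar : ((a : ℂ) / c) = (((a : ℝ) / c : ℝ) : ℂ) := by push_cast; rfl
  -- first end
  have l1 : Tendsto (fun t : ℝ => F (((a : ℂ) / c) + t * Complex.I)) (𝓝[>] 0) (𝓝 (C + p)) := by
    have t1 : Tendsto (fun t : ℝ => (14 * (c : ℝ) ^ 2 * t)⁻¹) (𝓝[>] 0) atTop := by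
      have e : (fun t : ℝ => (14 * (c : ℝ) ^ 2 * t)⁻¹) = fun t : ℝ => (14 * (c : ℝ) ^ 2)⁻¹ * t⁻¹ := by
        ext t; rw [mul_inv]
      rw [e]
      exact tendsto_inv_nhdsGT_zero.const_mul_atTop (by positivity)
    have t2 := (((F_QV.tendsto.comp (iI_real _ (-w / c) t1)).const_mul ε).add_const (C + p))
    rw [mul_zero, zero_add] at t2
    refine t2.congr' ?_
    filter_upwards [self_mem_nhdsWithin] with t ht
    have ht0 : (0 : ℝ) < t := ht
    have hs0 : 0 < (14 * (c : ℝ) ^ 2 * t)⁻¹ := by positivity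
    have h2 := key _ hs0
    have h3 : (14 * (c : ℝ) ^ 2 * (14 * (c : ℝ) ^ 2 * t)⁻¹)⁻¹ = t := by field_simp
    rw [h3] at h2
    rw [h2]
    rfl
  have e1 : II ((a : ℚ) / c) = C + p := by
    unfold II
    rw [ra]
    exact integral_line _ (by rw [rar]; simp) (by rw [← ra]; exact hint _) l1
  -- second end
  have e2 : II (-(w : ℚ) / c) = -ε * (C + p) := by
    unfold II
    rw [rw1]
    refine integral_line _ (by simp) (by rw [← rw1]; exact hint _) ?_
    have t1 : Tendsto (fun t : ℝ => (14 * (c : ℝ) ^ 2 * t)⁻¹) (𝓝[>] 0) atTop := by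
      have e : (fun t : ℝ => (14 * (c : ℝ) ^ 2 * t)⁻¹) = fun t : ℝ => (14 * (c : ℝ) ^ 2)⁻¹ * t⁻¹ := by
        ext t; rw [mul_inv]
      rw [e]
      exact tendsto_inv_nhdsGT_zero.const_mul_atTop (by positivity)
    have t2 := (((F_QV.tendsto.comp (iI_real _ (a / c) t1)).sub_const (C + p)).const_mul ε)
    have e4 : ε * (0 - (C + p)) = -ε * (C + p) := by ring
    rw [e4] at t2
    refine t2.congr' ?_
    filter_upwards [self_mem_nhdsWithin] with t ht
    have ht0 : (0 : ℝ) < t := ht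
    have h2 := key t ht0
    have hεε : ε * ε = 1 := by rcases hε with rfl | rfl <;> norm_num
    simp only [Function.comp_apply]
    rw [← rar, h2]
    linear_combination (F (((-w / c : ℝ) : ℂ) + t * Complex.I)) * hεε
  refine ⟨by rw [e1, e2], ?_⟩
  rw [e1, ra]
  exact l1

theorem II_inv (L : PeriodPair) (g2 : L.g₂ = -215 / 12) (g3 : L.g₃ = 5291 / 216)
    {ε C : ℂ} (hε : ε = 1 ∨ ε = -1)
    (hF : ∀ z : ℂ, 0 < z.im → F (m14 z) = ε * F z + C)
    {a c w y : ℤ} (hc : 0 < c) (h : 14 * a * w - c * y = 1) :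
    II (-(w : ℚ) / c) = -ε * II ((a : ℚ) / c) := (II_inv' L g2 g3 hε hF hc h).1

/-- the primitive tends to the integral at a cusp prime to `14` -/
theorem F_tendsto {a : ℤ} {c : ℕ} (hc : 0 < c) (h14 : IsCoprime (14 * a) (c : ℤ)) :
    Tendsto (fun t : ℝ => F ((a : ℂ) / c + t * Complex.I)) (𝓝[>] 0) (𝓝 (II ((a : ℚ) / c))) := by
  obtain ⟨L, Op, Om, hOp, hOm, g2, g3, hL⟩ := hlat
  obtain ⟨ε, C, hε, -, hF⟩ := (isCusp14 hcp hqe).map.const
  obtain ⟨u, v, huv⟩ := h14
  have h1 := (II_inv' L g2 g3 hε hF (a := a) (c := (c : ℤ)) (w := u) (y := -v)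
    (by exact_mod_cast hc) (by linarith)).2
  have e : (((a : ℚ) / ((c : ℤ) : ℚ) : ℚ) : ℂ) = (a : ℂ) / c := by push_cast; rfl
  rw [e] at h1
  exact_mod_cast h1

/-- the integral symbol -/
theorem exists_symb : ∃ (s : ℚ → ℤ) (Op : ℝ), 0 < Op ∧ Symb s (fun q => ap E14 q) ∧
    ∀ r : ℚ, (3 : ℝ) * (II r).re = s r * Op := by
  obtain ⟨L, Op, Om, hOp, hOm, g2, g3, hL⟩ := hlat
  obtain ⟨Ξ, U, P, rΞ, rU, rP, tΞ, tU, tP⟩ := expansions hqe
  obtain ⟨h0, i2, i3, i6, iint, ij, i7⟩ := integrals hcp hqe hode L g2 g3 hinj htors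
  have hP0 : PowerSeries.coeff 0 P = 1 := by
    rw [tP 0 (by norm_num)]; rfl
  have hecke' : ∀ q : ℕ, q.Prime → ∀ z, W97.MT.hecke 14 q form14 z = (ap E14 q : ℂ) * form14 z := by
    intro q hq z
    have h1 := hecke_f14 hcp hqe rP hP0 hq z
    rw [coef_eq L g2 g3 rΞ rU rP tΞ tU tP hq] at h1
    exact h1
  have h7 : II 0 = ∑ b ∈ Finset.range 7, II ((b : ℚ) / 7) := by
    have h1 := hhint 14 7 form14 (1 : ℂ) (by norm_num) (int_rat L g2 g3) (fun z => by
      have h2 := hecke_f14 hcp hqe rP hP0 (p := 7) (by norm_num) z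
      rw [tP (7 - 1) (by norm_num)] at h2
      have h3 : lphi.getD (7 - 1) 0 = 1 := rfl
      rw [h3, Int.cast_one] at h2
      exact h2) 0
    rw [if_pos (by norm_num : (7 : ℕ) ∣ 14), one_mul, zero_add, prim_rat] at h1
    rw [h1]
    refine Finset.sum_congr rfl fun b _ => ?_
    rw [prim_rat]
    congr 1
    push_cast
    ring
  obtain ⟨s, hleast, hsymb, hne⟩ := harith II Op Om L.lattice hOp hOm hL II_zero_im i6 i2 i3
    ij II_conj II_add_one h7
  have hs : ∀ r : ℚ, (3 : ℝ) * (II r).re = s r * Op := by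
    intro r
    have h1 := hsymb r
    rw [II_conj, Complex.conj_re] at h1
    exact h1
  have inj : ∀ x y : ℤ, (x : ℝ) * Op = y * Op → x = y := by
    intro x y hxy
    exact_mod_cast mul_right_cancel₀ hOp.ne' hxy
  obtain ⟨ε, C, hε, -, hF⟩ := (isCusp14 hcp hqe).map.const
  have hε1 : ε = -1 := by
    rcases hε with rfl | rfl
    · exfalso
      have h1 := II_inv L g2 g3 (Or.inl rfl) hF (a := 0) (c := 1) (w := 0) (y := -1)
        (by norm_num) (by norm_num)
      norm_num at h1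
      have h2 : (2 : ℂ) * II 0 = 0 := by linear_combination h1
      exact i2 (by rw [h2]; exact zero_mem _)
    · rfl
  subst hε1
  refine ⟨s, Op, hOp, ⟨?_, ?_, ?_, ?_, ?_⟩, hs⟩
  · intro x
    apply inj
    rw [← hs, ← hs, II_add_one]
  · intro x
    apply inj
    rw [← hs, ← hs, II_conj, Complex.conj_re]
  · intro q hq hq14 x
    apply inj
    have h1 := hhint 14 q form14 (ap E14 q : ℂ) hq (int_rat L g2 g3) (hecke' q hq) x
    rw [if_neg hq14, prim_rat, prim_rat] at h1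
    simp_rw [prim_rat] at h1
    have h2 := congrArg Complex.re h1
    rw [Complex.add_re, Complex.re_sum] at h2
    have h3 : ((ap E14 q : ℂ) * II x).re = ap E14 q * (II x).re := by
      have : (ap E14 q : ℂ) = ((ap E14 q : ℝ) : ℂ) := by push_cast; rfl
      rw [this, Complex.re_ofReal_mul]
    rw [h3] at h2
    push_cast
    rw [mul_assoc, ← hs, add_mul, ← hs, Finset.sum_mul]
    simp_rw [← hs]
    rw [← Finset.mul_sum]
    linear_combination 3 * h2
  · intro M b d hM hdvd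
    obtain ⟨y, hy⟩ := hdvd
    apply inj
    have hM' : (0 : ℤ) < M := by exact_mod_cast hM
    have h1 := II_inv L g2 g3 (Or.inr rfl) hF (a := b) (c := M) (w := d) (y := y) hM'
      (by linarith)
    rw [neg_neg, one_mul] at h1
    rw [← hs, ← hs]
    have h2 : II ((d : ℚ) / M) = starRingEnd ℂ (II (-(d : ℚ) / (M : ℤ))) := by
      rw [← II_conj]
      congr 1
      push_cast
      ring
    rw [h2, h1, Complex.conj_re]
    push_cast
    rfl
  · rw [← Int.not_even_iff_odd]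
    rintro ⟨k, hk⟩
    apply i3
    refine (hL _).2 ⟨s 0, 0, by rw [hk]; exact ⟨k, by ring⟩, ?_⟩
    apply Complex.ext
    · have := hs 0
      simp at this ⊢
      linarith
    · have := II_zero_im
      simp [this]

end Pool.Agent.Y687
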