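import Pool.Agent.Y687.Lval2
import Pool.Agent.Y687.Comb4
import Pool.Agent.H491R3.J.Defs

/-!
The `L`-function of the twist in the form of the frozen statement.
-/

set_option autoImplicit false
set_option linter.style.haveILetI false

open Complex Filter Topology Set UpperHalfPlane MatrixGroups CongruenceSubgroup ZMod

namespace Pool.Agent.Y687

open Pool.Agent.W97.MT
open Pool.Agent.H491R3.J (OS)

/-- affine points of the short equation -/
noncomputable def cnt (A B : ℤ) (p : ℕ) : ℕ :=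
  Nat.card {q : ZMod p × ZMod p // q.2 ^ 2 = q.1 ^ 3 + (A : ZMod p) * q.1 + (B : ZMod p)}

theorem cnt_eq (A B : ℤ) (p : ℕ) [Fact p.Prime] (hp : p ≠ 2) :
    (p : ℤ) - cnt A B p = -∑ x : ZMod p, quadraticChar (ZMod p) (x ^ 3 + (A : ZMod p) * x + (B : ZMod p)) := by
  have hc : ringChar (ZMod p) ≠ 2 := by rw [ZMod.ringChar_zmod_n]; exact hp
  have h := Pool.Agent.H82R3.EK.card_points hc
    (fun x : ZMod p => x ^ 3 + (A : ZMod p) * x + (B : ZMod p))
  unfold cnt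
  rw [h, ZMod.card]
  ring

theorem cnt_twist (A B : ℤ) (M p : ℕ) [Fact p.Prime] (hp : p ≠ 2) (hM4 : M % 4 = 1)
    (hpM : ¬ p ∣ M) :
    (p : ℤ) - cnt (A * M ^ 2) (B * M ^ 3) p = jacobiSym p M * ((p : ℤ) - cnt A B p) := by
  have hpp : p.Prime := Fact.out
  have hM0 : (M : ZMod p) ≠ 0 := by
    intro h
    rw [ZMod.natCast_eq_zero_iff] at h
    exact hpM h
  rw [cnt_eq _ _ p hp, cnt_eq _ _ p hp]
  have h5 : quadraticChar (ZMod p) (M : ZMod p) = jacobiSym p M := by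
    have h6 : quadraticChar (ZMod p) (M : ZMod p) = legendreSym p (M : ℤ) := by
      rw [legendreSym]
      norm_num
    rw [h6, jacobiSym.legendreSym.to_jacobiSym]
    exact jacobiSym.quadratic_reciprocity_one_mod_four hM4 (hpp.odd_of_ne_two hp)
  rw [← h5, mul_neg, Finset.mul_sum]
  congr 1
  symm
  refine Fintype.sum_equiv (Equiv.mulLeft₀ (M : ZMod p) hM0) _ _ fun x => ?_
  have h4 : quadraticChar (ZMod p) (M : ZMod p) = quadraticChar (ZMod p) ((M : ZMod p) ^ 3) := by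
    rw [pow_succ, map_mul, quadraticChar_sq_one' hM0, one_mul]
  rw [h4, ← map_mul, Equiv.mulLeft₀_apply]
  congr 1
  push_cast
  ring

theorem cnt_E14 (l : ℕ) (hl : l.Prime) (h2 : l ≠ 2) (h3 : l ≠ 3) :
    (l : ℤ) - cnt 5805 (-285714) l = ap E14 l := by
  unfold cnt ap
  rw [TH940.Inst.points_card l hl h2 h3]

/-- the primes of good reduction of the model -/
theorem good_iff {M p : ℕ} (hp : p.Prime) :
    ((p : ℤ) ∣ 2 * (4 * (5805 * (M : ℤ) ^ 2) ^ 3 + 27 * (-285714 * (M : ℤ) ^ 3) ^ 2)) ↔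
      p = 2 ∨ p = 3 ∨ p = 7 ∨ p ∣ M := by
  have e : 2 * (4 * (5805 * (M : ℤ) ^ 2) ^ 3 + 27 * (-285714 * (M : ℤ) ^ 3) ^ 2)
      = (((2 ^ 15 * 3 ^ 12 * 7 ^ 3) * M ^ 6 : ℕ) : ℤ) := by
    push_cast
    ring
  rw [e, Int.natCast_dvd_natCast, hp.dvd_mul, hp.dvd_mul, hp.dvd_mul]
  constructor
  · rintro ((((h | h) | h)) | h)
    · exact Or.inl ((Nat.prime_dvd_prime_iff_eq hp Nat.prime_two).1 (hp.dvd_of_dvd_pow h))
    · exact Or.inr (Or.inl ((Nat.prime_dvd_prime_iff_eq hp Nat.prime_three).1 (hp.dvd_of_dvd_pow h)))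
    · exact Or.inr (Or.inr (Or.inl ((Nat.prime_dvd_prime_iff_eq hp (by norm_num)).1
        (hp.dvd_of_dvd_pow h))))
    · exact Or.inr (Or.inr (Or.inr (hp.dvd_of_dvd_pow h)))
  · rintro (rfl | rfl | rfl | h)
    · exact Or.inl (Or.inl (Or.inl (dvd_pow_self 2 (by norm_num))))
    · exact Or.inl (Or.inl (Or.inr (dvd_pow_self 3 (by norm_num))))
    · exact Or.inl (Or.inr (dvd_pow_self 7 (by norm_num)))
    · exact Or.inr (dvd_pow h (by norm_num))

/-- the Euler factor in the form of the frozen statement -/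
noncomputable def fac (A B : ℤ) (s : ℂ) (p : ℕ) : ℂ :=
  ((1 : ℂ)
            - ((((p : ℤ) - (Nat.card {q : ZMod p × ZMod p //
                  q.2 ^ 2 = q.1 ^ 3 + (A : ZMod p) * q.1 + (B : ZMod p)} : ℤ)) : ℤ) : ℂ)
                * ((p : ℂ) ^ (-s))
            + (p : ℂ) ^ (1 - 2 * s))⁻¹

theorem p_cpow {p : ℕ} (hp : p ≠ 0) (s : ℂ) :
    (p : ℂ) * (p : ℂ) ^ (-2 * s) = (p : ℂ) ^ (1 - 2 * s) := by
  have hp' : (p : ℂ) ≠ 0 := by exact_mod_cast hp
  rw [show (1 - 2 * s : ℂ) = 1 + -2 * s by ring, Complex.cpow_add _ _ hp', Complex.cpow_one]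

theorem hasProd_transfer (G : ℕ → Prop) (H : ℕ → ℂ) (a : ℂ)
    (h : HasProd (fun p : Nat.Primes => by classical exact if G p then H p else 1) a) :
    HasProd (fun p : {p : ℕ // p.Prime ∧ G p} => H p) a := by
  classical
  set K : ℕ → ℂ := fun n => if n.Prime ∧ G n then H n else 1 with hK
  have h1 : HasProd K a := by
    have h2 : HasProd (K ∘ ((↑) : {n : ℕ | n.Prime} → ℕ)) a := by
      refine (congrArg (fun g => HasProd g a) (funext fun p => ?_)).mp h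
      simp only [hK, Function.comp_apply]
      have hp : (p : ℕ).Prime := p.2
      by_cases hG : G p
      · rw [if_pos hG, if_pos ⟨hp, hG⟩]
      · rw [if_neg hG, if_neg fun h3 => hG h3.2]
    refine (hasProd_subtype_iff_of_mulSupport_subset ?_).1 h2
    intro n hn
    rw [Function.mem_mulSupport] at hn
    by_contra h3
    apply hn
    simp only [hK]
    rw [if_neg fun h4 => h3 h4.1]
  have h2 : HasProd (K ∘ ((↑) : {n : ℕ | n.Prime ∧ G n} → ℕ)) a := by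
    refine (hasProd_subtype_iff_of_mulSupport_subset ?_).2 h1
    intro n hn
    rw [Function.mem_mulSupport] at hn
    by_contra h3
    apply hn
    exact if_neg (fun h4 => h3 h4)
  refine (congrArg (fun g => HasProd g a) (funext fun p => ?_)).mp h2
  simp only [hK, Function.comp_apply]
  exact if_pos p.2

/-- factors at `2`, `3`, `7` -/
noncomputable def bf (x : ℤ) (p : ℕ) (s : ℂ) : ℂ :=
  1 - (ap E14 p : ℂ) * (x : ℂ) * (p : ℂ) ^ (-s) +
    (if p ∣ 14 then 0 else (p : ℂ)) * (x : ℂ) ^ 2 * (p : ℂ) ^ (-2 * s)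

theorem bf_diff (x : ℤ) {p : ℕ} (hp : p ≠ 0) : Differentiable ℂ (bf x p) := by
  have hp' : (p : ℂ) ≠ 0 := by exact_mod_cast hp
  unfold bf
  refine Differentiable.add (Differentiable.sub (differentiable_const _) ?_) ?_
  · exact (Differentiable.const_cpow (by fun_prop) (Or.inl hp')).const_mul _
  · exact (Differentiable.const_cpow (by fun_prop) (Or.inl hp')).const_mul _

theorem ap2 : ap E14 2 = -1 := by
  obtain ⟨-, -, -, -, m2, -, -, -⟩ := hmin
  unfold ap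
  rw [m2]; norm_num

theorem ap3 : ap E14 3 = -2 := by
  obtain ⟨-, -, -, -, -, m3, -, -⟩ := hmin
  unfold ap
  rw [m3]; norm_num

theorem ap7 : ap E14 7 = 1 := by
  obtain ⟨-, -, -, -, -, -, m7, -⟩ := hmin
  unfold ap
  rw [m7]; norm_num

theorem bf2_ne {x : ℤ} (hx : x = 1 ∨ x = -1) : bf x 2 1 ≠ 0 := by
  unfold bf
  rw [ap2, if_pos (by norm_num), Complex.cpow_neg_one]
  rcases hx with rfl | rfl <;> norm_num

theorem bf7_ne {x : ℤ} (hx : x = 1 ∨ x = -1) : bf x 7 1 ≠ 0 := by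
  unfold bf
  rw [ap7, if_pos (by norm_num), Complex.cpow_neg_one]
  rcases hx with rfl | rfl <;> norm_num

theorem bf3_ne {x : ℤ} (hx : x = 1 ∨ x = -1) : bf x 3 1 ≠ 0 := by
  unfold bf
  rw [ap3, if_neg (by norm_num), Complex.cpow_neg_one]
  have e : ((3 : ℕ) : ℂ) ^ (-2 * (1 : ℂ)) = (((3 : ℕ) : ℂ) ^ 2)⁻¹ := by
    rw [show (-2 * (1 : ℂ)) = ((-2 : ℤ) : ℂ) by norm_num, Complex.cpow_intCast]
    norm_num
  rw [e]
  rcases hx with rfl | rfl <;> norm_num

theorem nrm {p : ℕ} (hp : 1 < p) {s : ℂ} (hs : 1 < s.re) :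
    ‖(p : ℂ) ^ (-s)‖ < (p : ℝ)⁻¹ := by
  have hp0 : (0 : ℝ) < p := by positivity
  have hp1 : (1 : ℝ) < p := by exact_mod_cast hp
  rw [Complex.norm_natCast_cpow_of_pos (by omega), Complex.neg_re, ← Real.rpow_neg_one]
  exact Real.rpow_lt_rpow_of_exponent_lt hp1 (by linarith)

theorem bf_X (x : ℤ) (p : ℕ) (s : ℂ) : bf x p s = 1 - (ap E14 p : ℂ) * (x : ℂ) * (p : ℂ) ^ (-s) +
    (if p ∣ 14 then 0 else (p : ℂ)) * (x : ℂ) ^ 2 * ((p : ℂ) ^ (-s)) ^ 2 := by
  unfold bf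
  have : (p : ℂ) ^ (-2 * s) = ((p : ℂ) ^ (-s)) ^ 2 := by
    rw [← Complex.cpow_nat_mul]
    congr 1
    push_cast
    ring
  rw [this]

theorem ne_zero_of_norm {z : ℂ} (h : ‖z‖ < 1) : 1 + z ≠ 0 := by
  intro h0
  have : z = -1 := by linear_combination h0
  rw [this, norm_neg, norm_one] at h
  exact lt_irrefl _ h

theorem bf2_ne' {x : ℤ} (hx : x = 1 ∨ x = -1) {s : ℂ} (hs : 1 < s.re) : bf x 2 s ≠ 0 := by
  rw [bf_X, ap2, if_pos (by norm_num)]
  have h := nrm (p := 2) (by norm_num) hs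
  set X : ℂ := ((2 : ℕ) : ℂ) ^ (-s) with hX
  have e : 1 - ((-1 : ℤ) : ℂ) * (x : ℂ) * X + 0 * (x : ℂ) ^ 2 * X ^ 2 = 1 + (x : ℂ) * X := by
    push_cast; ring
  rw [e]
  apply ne_zero_of_norm
  have hx' : ‖(x : ℂ)‖ = 1 := by rcases hx with rfl | rfl <;> simp
  rw [norm_mul, hx', one_mul]
  push_cast at h
  linarith

theorem bf7_ne' {x : ℤ} (hx : x = 1 ∨ x = -1) {s : ℂ} (hs : 1 < s.re) : bf x 7 s ≠ 0 := by
  rw [bf_X, ap7, if_pos (by norm_num)]
  have h := nrm (p := 7) (by norm_num) hs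
  set X : ℂ := ((7 : ℕ) : ℂ) ^ (-s) with hX
  have e : 1 - ((1 : ℤ) : ℂ) * (x : ℂ) * X + 0 * (x : ℂ) ^ 2 * X ^ 2 = 1 + -((x : ℂ) * X) := by
    push_cast; ring
  rw [e]
  apply ne_zero_of_norm
  have hx' : ‖(x : ℂ)‖ = 1 := by rcases hx with rfl | rfl <;> simp
  rw [norm_neg, norm_mul, hx', one_mul]
  push_cast at h
  linarith

theorem bf3_ne' {x : ℤ} (hx : x = 1 ∨ x = -1) {s : ℂ} (hs : 1 < s.re) : bf x 3 s ≠ 0 := by
  rw [bf_X, ap3, if_neg (by norm_num)]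
  have h := nrm (p := 3) (by norm_num) hs
  set X : ℂ := ((3 : ℕ) : ℂ) ^ (-s) with hX
  have hx2 : (x : ℂ) ^ 2 = 1 := by rcases hx with rfl | rfl <;> norm_num
  have e : 1 - ((-2 : ℤ) : ℂ) * (x : ℂ) * X + ((3 : ℕ) : ℂ) * (x : ℂ) ^ 2 * X ^ 2 =
      1 + (2 * (x : ℂ) * X + 3 * X ^ 2) := by
    rw [hx2]; push_cast; ring
  rw [e]
  apply ne_zero_of_norm
  have hx' : ‖(x : ℂ)‖ = 1 := by rcases hx with rfl | rfl <;> simp
  refine lt_of_le_of_lt (norm_add_le _ _) ?_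
  rw [norm_mul, norm_mul, norm_mul, norm_pow, hx']
  have h2 : ‖(2 : ℂ)‖ = 2 := by simp
  have h3 : ‖(3 : ℂ)‖ = 3 := by simp
  rw [h2, h3]
  push_cast at h
  nlinarith [norm_nonneg X]

/-- transport to units -/
theorem sum_rrC {M : ℕ} [NeZero M] (g : ℕ → ℂ) :
    ∑ a ∈ rr M, g a = ∑ u : (ZMod M)ˣ, g (u : ZMod M).val := by
  refine (Finset.sum_bij (fun (u : (ZMod M)ˣ) _ => (u : ZMod M).val) ?_ ?_ ?_ ?_).symm
  · intro u _
    rw [mem_rr]
    exact ⟨ZMod.val_lt _, ZMod.val_coe_unit_coprime u⟩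
  · intro u _ v _ h
    exact Units.ext (ZMod.val_injective M h)
  · intro a ha
    rw [mem_rr] at ha
    refine ⟨ZMod.unitOfCoprime a ha.2, Finset.mem_univ _, ?_⟩
    rw [ZMod.coe_unitOfCoprime, ZMod.val_natCast, Nat.mod_eq_of_lt ha.1]
  · intro u _
    rfl

/-- the `L`-function of the quadratic twist by `M` -/
theorem exists_f (M : ℕ) (hodd : Odd M) (hsq : Squarefree M) (h1 : 1 < M) (h4 : M % 4 = 1)
    (h42 : Nat.Coprime M 42) :
    ∃ (f : ℂ → ℂ) (g1 : ℂ), Differentiable ℂ f ∧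
      (∀ s : ℂ, (3 : ℝ) / 2 < s.re →
        HasProd (fun p : {p : ℕ // p.Prime ∧
            ¬ ((p : ℤ) ∣ 2 * (4 * (5805 * (M : ℤ) ^ 2) ^ 3 + 27 * (-285714 * (M : ℤ) ^ 3) ^ 2))} =>
          fac (5805 * (M : ℤ) ^ 2) (-285714 * (M : ℤ) ^ 3) s p) (f s)) ∧
      (g1 ≠ 0 → f 1 ≠ 0) ∧
      ∃ τ : ℂ, τ * g1 = ∑ a ∈ rr M, ((jacobiSym (a : ℤ) M : ℤ) : ℂ) * II ((a : ℚ) / M) := by
  classical
  have hM0 : M ≠ 0 := by omega
  haveI : NeZero M := ⟨hM0⟩
  set d : OS := ⟨M, hodd, hsq, h1⟩ with hd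
  have h14 : Nat.Coprime M 14 := Nat.Coprime.coprime_dvd_right (by norm_num) h42
  obtain ⟨g, hg1, hg2, hg3⟩ := exists_L (q := M) h14 (H491R3.J.chi d) (H491R3.J.chi_primitive d)
  have hchi : ∀ m : ℕ, H491R3.J.chi d (m : ZMod M) = ((jacobiSym (m : ℤ) M : ℤ) : ℂ) :=
    H491R3.J.chi_natCast d
  have hpm : ∀ m : ℕ, Nat.Coprime m M → jacobiSym (m : ℤ) M = 1 ∨ jacobiSym (m : ℤ) M = -1 := by
    intro m hm
    refine jacobiSym.eq_one_or_neg_one ?_
    rw [Int.gcd_natCast_natCast]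
    exact hm
  have hc2 := hpm 2 (Nat.Coprime.coprime_dvd_right (by norm_num) h42).symm
  have hc3 := hpm 3 (Nat.Coprime.coprime_dvd_right (by norm_num) h42).symm
  have hc7 := hpm 7 (Nat.Coprime.coprime_dvd_right (by norm_num) h42).symm
  set x2 := jacobiSym ((2 : ℕ) : ℤ) M with hx2
  set x3 := jacobiSym ((3 : ℕ) : ℤ) M with hx3
  set x7 := jacobiSym ((7 : ℕ) : ℤ) M with hx7
  refine ⟨fun s => g s * (bf x2 2 s * (bf x3 3 s * bf x7 7 s)), g 1,
    hg1.mul ((bf_diff x2 (by norm_num)).mul ((bf_diff x3 (by norm_num)).mul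
      (bf_diff x7 (by norm_num)))), ?_, ?_, ?_⟩
  · intro s hs
    have hs' : 3 / 2 < s.re := hs
    have e1 := hg2 s hs'
    -- the finite product
    set p2 : Nat.Primes := ⟨2, Nat.prime_two⟩ with hp2
    set p3 : Nat.Primes := ⟨3, Nat.prime_three⟩ with hp3
    set p7 : Nat.Primes := ⟨7, by norm_num⟩ with hp7
    have n23 : p2 ≠ p3 := by rw [hp2, hp3]; intro h; have := congrArg Subtype.val h; simp at this
    have n27 : p2 ≠ p7 := by rw [hp2, hp7]; intro h; have := congrArg Subtype.val h; simp at this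
    have n37 : p3 ≠ p7 := by rw [hp3, hp7]; intro h; have := congrArg Subtype.val h; simp at this
    set k : Nat.Primes → ℂ := fun p => if p ∈ ({p2, p3, p7} : Finset Nat.Primes) then
      bf (jacobiSym ((p : ℕ) : ℤ) M) p s else 1 with hk
    have e2 : HasProd k (∏ p ∈ ({p2, p3, p7} : Finset Nat.Primes), k p) :=
      hasProd_prod_of_ne_finset_one (fun p hp => if_neg hp)
    have e3 : ∏ p ∈ ({p2, p3, p7} : Finset Nat.Primes), k p =
        bf x2 2 s * (bf x3 3 s * bf x7 7 s) := by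
      rw [Finset.prod_insert (by simp [n23, n27]), Finset.prod_insert (by simp [n37]),
        Finset.prod_singleton]
      simp only [hk]
      rw [if_pos (by simp), if_pos (by simp), if_pos (by simp)]
    rw [e3] at e2
    have e4 := e1.mul e2
    refine hasProd_transfer _ _ _ ?_
    refine (congrArg (fun g => HasProd g _) (funext fun p => ?_)).mp e4
    have hpp : (p : ℕ).Prime := p.2
    have hF : (1 - (ap E14 p : ℂ) * H491R3.J.chi d ((p : ℕ) : ZMod M) * ((p : ℕ) : ℂ) ^ (-s) +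
          (if (p : ℕ) ∣ 14 then 0 else ((p : ℕ) : ℂ)) * (H491R3.J.chi d ((p : ℕ) : ZMod M)) ^ 2 *
            ((p : ℕ) : ℂ) ^ (-2 * s)) = bf (jacobiSym ((p : ℕ) : ℤ) M) p s := by
      unfold bf
      rw [hchi]
    rw [hF]
    have hs1 : 1 < s.re := by linarith
    by_cases hin : p ∈ ({p2, p3, p7} : Finset Nat.Primes)
    · have hk1 : k p = bf (jacobiSym ((p : ℕ) : ℤ) M) p s := if_pos hin
      rw [hk1]
      simp only [Finset.mem_insert, Finset.mem_singleton] at hin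
      have hbad : ((p : ℕ) : ℤ) ∣ 2 * (4 * (5805 * (M : ℤ) ^ 2) ^ 3 +
          27 * (-285714 * (M : ℤ) ^ 3) ^ 2) := by
        rw [good_iff hpp]
        rcases hin with rfl | rfl | rfl
        · exact Or.inl rfl
        · exact Or.inr (Or.inl rfl)
        · exact Or.inr (Or.inr (Or.inl rfl))
      rw [if_neg (not_not.2 hbad)]
      refine inv_mul_cancel₀ ?_
      rcases hin with rfl | rfl | rfl
      · exact bf2_ne' hc2 hs1
      · exact bf3_ne' hc3 hs1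
      · exact bf7_ne' hc7 hs1
    · have hk1 : k p = 1 := if_neg hin
      rw [hk1, mul_one]
      simp only [Finset.mem_insert, Finset.mem_singleton, not_or] at hin
      have q2 : (p : ℕ) ≠ 2 := fun h => hin.1 (Subtype.ext h)
      have q3 : (p : ℕ) ≠ 3 := fun h => hin.2.1 (Subtype.ext h)
      have q7 : (p : ℕ) ≠ 7 := fun h => hin.2.2 (Subtype.ext h)
      by_cases hpM : (p : ℕ) ∣ M
      · have hbad : ((p : ℕ) : ℤ) ∣ 2 * (4 * (5805 * (M : ℤ) ^ 2) ^ 3 +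
          27 * (-285714 * (M : ℤ) ^ 3) ^ 2) := by
          rw [good_iff hpp]
          exact Or.inr (Or.inr (Or.inr hpM))
        rw [if_neg (not_not.2 hbad)]
        have h0 : jacobiSym ((p : ℕ) : ℤ) M = 0 := by
          rw [jacobiSym.eq_zero_iff_not_coprime, Int.gcd_natCast_natCast]
          intro hg
          have := Nat.dvd_gcd (dvd_refl (p : ℕ)) hpM
          rw [hg] at this
          exact hpp.one_lt.ne' (Nat.dvd_one.1 this)
        rw [h0]
        unfold bf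
        simp
      · have hgood : ¬ ((p : ℕ) : ℤ) ∣ 2 * (4 * (5805 * (M : ℤ) ^ 2) ^ 3 +
          27 * (-285714 * (M : ℤ) ^ 3) ^ 2) := by
          rw [good_iff hpp]
          push Not
          exact ⟨q2, q3, q7, hpM⟩
        rw [if_pos hgood]
        haveI : Fact (p : ℕ).Prime := ⟨hpp⟩
        have hx := hpm p ((Nat.Prime.coprime_iff_not_dvd hpp).2 hpM)
        have hx2 : ((jacobiSym ((p : ℕ) : ℤ) M : ℤ) : ℂ) ^ 2 = 1 := by
          rcases hx with h | h <;> rw [h] <;> norm_num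
        have h14' : ¬ (p : ℕ) ∣ 14 := by
          intro h
          have h1 : (p : ℕ) ∣ 2 * 7 := by simpa using h
          rcases (Nat.Prime.dvd_mul hpp).1 h1 with h2 | h2
          · exact q2 ((Nat.prime_dvd_prime_iff_eq hpp Nat.prime_two).1 h2)
          · exact q7 ((Nat.prime_dvd_prime_iff_eq hpp (by norm_num)).1 h2)
        unfold bf fac
        congr 1
        rw [hx2, if_neg h14', mul_one, p_cpow hpp.ne_zero]
        have h5 := cnt_twist 5805 (-285714) M p q2 h4 hpM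
        rw [cnt_E14 p hpp q2 q3] at h5
        have h6 : (((p : ℕ) : ℤ) - (Nat.card {q : ZMod p × ZMod p //
                  q.2 ^ 2 = q.1 ^ 3 + ((5805 * (M : ℤ) ^ 2 : ℤ) : ZMod p) * q.1 +
                    ((-285714 * (M : ℤ) ^ 3 : ℤ) : ZMod p)} : ℤ)) =
                jacobiSym ((p : ℕ) : ℤ) M * ap E14 p := h5
        rw [h6]
        push_cast
        ring
  · intro hg
    exact mul_ne_zero hg (mul_ne_zero (bf2_ne hc2) (mul_ne_zero (bf3_ne hc3) (bf7_ne hc7)))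
  · refine ⟨gaussSum (H491R3.J.chi d)⁻¹ (stdAddChar (N := M)), ?_⟩
    have hinv : (H491R3.J.chi d)⁻¹ = H491R3.J.chi d := H491R3.J.chi_inv d
    rw [hg3, hinv, sum_rrC]
    refine Finset.sum_congr rfl fun u _ => ?_
    rw [← hchi, ZMod.natCast_zmod_val]

/-- the central value does not vanish if the sum of the symbols does not -/
theorem exists_f_ne (M : ℕ) (hodd : Odd M) (hsq : Squarefree M) (h1 : 1 < M) (h4 : M % 4 = 1)
    (h42 : Nat.Coprime M 42) {s : ℚ → ℤ} {Op : ℝ} (hOp : 0 < Op)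
    (hs : ∀ r : ℚ, (3 : ℝ) * (II r).re = s r * Op) (hne : SS s M M ≠ 0) :
    ∃ f : ℂ → ℂ, Differentiable ℂ f ∧
      (∀ s : ℂ, (3 : ℝ) / 2 < s.re →
        HasProd (fun p : {p : ℕ // p.Prime ∧
            ¬ ((p : ℤ) ∣ 2 * (4 * (5805 * (M : ℤ) ^ 2) ^ 3 + 27 * (-285714 * (M : ℤ) ^ 3) ^ 2))} =>
          fac (5805 * (M : ℤ) ^ 2) (-285714 * (M : ℤ) ^ 3) s p) (f s)) ∧ f 1 ≠ 0 := by
  obtain ⟨f, g1, hf1, hf2, hf3, τ, hτ⟩ := exists_f M hodd hsq h1 h4 h42
  refine ⟨f, hf1, hf2, hf3 ?_⟩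
  rintro rfl
  apply hne
  rw [mul_zero] at hτ
  have h2 := congrArg Complex.re hτ
  rw [Complex.re_sum, Complex.zero_re] at h2
  have h3 : ∀ a : ℕ, (((jacobiSym (a : ℤ) M : ℤ) : ℂ) * II ((a : ℚ) / M)).re =
      (jacobiSym (a : ℤ) M : ℝ) * (II ((a : ℚ) / M)).re := by
    intro a
    have : ((jacobiSym (a : ℤ) M : ℤ) : ℂ) = (((jacobiSym (a : ℤ) M : ℤ) : ℝ) : ℂ) := by
      push_cast; rfl
    rw [this, Complex.re_ofReal_mul]
  simp_rw [h3] at h2
  have h5 : ((SS s M M : ℤ) : ℝ) * Op = 0 := by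
    unfold SS
    push_cast
    rw [Finset.sum_mul]
    have h6 : ∀ a ∈ rr M, (jacobiSym (a : ℤ) M : ℝ) * (s ((a : ℚ) / M) : ℝ) * Op =
        3 * ((jacobiSym (a : ℤ) M : ℝ) * (II ((a : ℚ) / M)).re) := by
      intro a _
      have := hs ((a : ℚ) / M)
      linear_combination (-(jacobiSym (a : ℤ) M : ℝ)) * this
    rw [Finset.sum_congr rfl h6, ← Finset.mul_sum, ← h2, mul_zero]
  have h6 := (mul_eq_zero.1 h5).resolve_right hOp.ne'
  exact_mod_cast h6

/-- nonvanishing for the twist by `p * ∏ S` -/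
theorem nonvanishing {p : ℕ} (hp : p.Prime)
    (hp8 : p % 8 = 1) (hp14 : jacobiSym 14 p = 1) (h2 : (4 : ℤ) ∣ ap E14 p - 2) {S : Finset ℕ}
    (hS : ∀ q ∈ S, isII (fun q => ap E14 q) q) (hpS : p ∉ S)
    (hN : ¬ (8 : ℤ) ∣ ap E14 p - 2 * jacobiSym p (∏ q ∈ S, q))
    (h42 : Nat.Coprime (p * ∏ q ∈ S, q) 42) :
    ∃ f : ℂ → ℂ, Differentiable ℂ f ∧
      (∀ s : ℂ, (3 : ℝ) / 2 < s.re →
        HasProd (fun l : {l : ℕ // l.Prime ∧
            ¬ ((l : ℤ) ∣ 2 * (4 * (5805 * ((p * ∏ q ∈ S, q : ℕ) : ℤ) ^ 2) ^ 3 +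
              27 * (-285714 * ((p * ∏ q ∈ S, q : ℕ) : ℤ) ^ 3) ^ 2))} =>
          fac (5805 * ((p * ∏ q ∈ S, q : ℕ) : ℤ) ^ 2) (-285714 * ((p * ∏ q ∈ S, q : ℕ) : ℤ) ^ 3) s l)
          (f s)) ∧ f 1 ≠ 0 := by
  classical
  obtain ⟨s, Op, hOp, hsym, hs⟩ := exists_symb
  have hne := L_ne_zero hsym hp hp8 hp14 h2 hS hpS hN
  set P : ℕ := ∏ q ∈ S, q with hP
  have hP4 : P % 4 = 1 := by
    rw [hP]
    have : ∀ T : Finset ℕ, (∀ q ∈ T, q % 4 = 1) → (∏ q ∈ T, q) % 4 = 1 := by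
      intro T
      induction T using Finset.induction_on with
      | empty => intro _; simp
      | insert q T hq ih =>
        intro hT
        rw [Finset.prod_insert hq, Nat.mul_mod, hT q (Finset.mem_insert_self _ _),
          ih fun q hq => hT q (Finset.mem_insert_of_mem hq)]
    exact this S fun q hq => (hS q hq).2.1
  have hM4 : (p * P) % 4 = 1 := by
    rw [Nat.mul_mod, hP4]
    omega
  have hsqP : Squarefree P := by
    rw [hP]
    refine Finset.squarefree_prod_of_pairwise_isCoprime ?_ fun q hq => (hS q hq).1.squarefree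
    intro q hq r hr hqr
    exact Nat.coprime_iff_isRelPrime.1 ((Nat.coprime_primes (hS q hq).1 (hS r hr).1).2 hqr)
  have hsq : Squarefree (p * P) := by
    rw [Nat.squarefree_mul_iff]
    refine ⟨?_, hp.squarefree, hsqP⟩
    rw [hP]
    refine Nat.Coprime.prod_right fun q hq => ?_
    rw [Nat.coprime_primes hp (hS q hq).1]
    rintro rfl
    exact hpS hq
  have hodd : Odd (p * P) := Nat.odd_iff.2 (by omega)
  have hP0 : 0 < P := by omega
  have h1 : 1 < p * P := by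
    have := hp.one_lt
    nlinarith
  exact exists_f_ne (p * P) hodd hsq h1 hM4 h42 hOp hs hne

end Pool.Agent.Y687
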