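import Mathlib

set_option autoImplicit false

open Finset

namespace Pool.Agent.Y687

/-- reduced residues in `[0, M)` -/
def rr (M : ℕ) : Finset ℕ := (Finset.range M).filter (fun a => Nat.Coprime a M)

theorem mem_rr {M a : ℕ} : a ∈ rr M ↔ a < M ∧ Nat.Coprime a M := by
  simp [rr]

/-- the character sum of values of `s` -/
def SS (s : ℚ → ℤ) (D M : ℕ) : ℤ := ∑ a ∈ rr M, jacobiSym (a : ℤ) D * s ((a : ℚ) / M)

theorem per_nat {s : ℚ → ℤ} (hper : ∀ x, s (x + 1) = s x) (x : ℚ) (n : ℕ) : s (x + n) = s x := by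
  induction n with
  | zero => simp
  | succ n ih =>
    rw [Nat.cast_succ, ← add_assoc, hper, ih]

theorem per_int {s : ℚ → ℤ} (hper : ∀ x, s (x + 1) = s x) (x : ℚ) (n : ℤ) : s (x + n) = s x := by
  obtain ⟨m, rfl | rfl⟩ := n.eq_nat_or_neg
  · exact_mod_cast per_nat hper x m
  · have := per_nat hper (x + ((-(m : ℤ) : ℤ) : ℚ)) m
    rw [← this]
    congr 1
    push_cast
    ring

theorem s_mod {s : ℚ → ℤ} (hper : ∀ x, s (x + 1) = s x) {M : ℕ} (hM : 0 < M) (a : ℕ) :
    s (((a % M : ℕ) : ℚ) / M) = s ((a : ℚ) / M) := by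
  have h : (a : ℚ) / M = ((a % M : ℕ) : ℚ) / M + ((a / M : ℕ) : ℚ) := by
    have h2 : (a : ℚ) = ((a % M : ℕ) : ℚ) + (M : ℚ) * ((a / M : ℕ) : ℚ) := by
      exact_mod_cast (Nat.mod_add_div a M).symm
    have hM' : (M : ℚ) ≠ 0 := by positivity
    rw [div_add' _ _ _ hM', h2]
    congr 1
    have h3 : (((a % M : ℕ) : ℚ) + (M : ℚ) * ((a / M : ℕ) : ℚ)) = (a : ℚ) := h2.symm
    rw [h3]
    linarith
  rw [h, per_nat hper]

theorem cop_mod {x M : ℕ} : Nat.Coprime (x % M) M ↔ Nat.Coprime x M := by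
  rw [Nat.coprime_iff_gcd_eq_one, ← Nat.gcd_rec, Nat.gcd_comm]

/-- two integers congruent mod `M` give the same value -/
theorem s_congr {s : ℚ → ℤ} (hper : ∀ x, s (x + 1) = s x) {M : ℕ} (hM : 0 < M) {a b : ℤ}
    (h : (M : ℤ) ∣ a - b) : s ((a : ℚ) / M) = s ((b : ℚ) / M) := by
  obtain ⟨k, hk⟩ := h
  have hM' : (M : ℚ) ≠ 0 := by positivity
  have : (a : ℚ) / M = (b : ℚ) / M + (k : ℚ) := by
    have h2 : (a : ℚ) = b + M * k := by
      have : a = b + M * k := by linarith
      exact_mod_cast this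
    rw [h2]
    field_simp
  rw [this, per_int hper]

theorem jac_mod {D M : ℕ} (hDM : D ∣ M) (a : ℕ) :
    jacobiSym ((a % M : ℕ) : ℤ) D = jacobiSym (a : ℤ) D := by
  rw [jacobiSym.mod_left ((a % M : ℕ) : ℤ) D, jacobiSym.mod_left (a : ℤ) D]
  congr 1
  push_cast
  exact Int.emod_emod_of_dvd _ (by exact_mod_cast hDM)

theorem partA {s : ℚ → ℤ} (hper : ∀ x, s (x + 1) = s x) {q : ℕ}
    {D M : ℕ} (hM : 0 < M) (hDM : D ∣ M) (hqM : Nat.Coprime q M) :
    ∑ a ∈ rr M, jacobiSym (a : ℤ) D * s ((q : ℚ) * ((a : ℚ) / M))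
      = jacobiSym (q : ℤ) D * SS s D M := by
  have hqD : Int.gcd (q : ℤ) (D : ℤ) = 1 := by
    have : Nat.Coprime q D := Nat.Coprime.coprime_dvd_right hDM hqM
    simpa [Int.gcd_natCast_natCast] using this
  unfold SS
  rw [Finset.mul_sum]
  refine Finset.sum_bij (fun a _ => (q * a) % M) ?_ ?_ ?_ ?_
  · intro a ha
    rw [mem_rr] at ha ⊢
    refine ⟨Nat.mod_lt _ hM, ?_⟩
    exact cop_mod.2 (Nat.Coprime.mul_left hqM ha.2)
  · intro a ha b hb hab
    rw [mem_rr] at ha hb
    have h1 : q * a ≡ q * b [MOD M] := hab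
    have h2 : a ≡ b [MOD M] := Nat.ModEq.cancel_left_of_coprime (by
      rw [Nat.gcd_comm]; exact hqM) h1
    have := Nat.ModEq.eq_of_lt_of_lt h2 ha.1 hb.1
    exact this
  · intro c hc
    rw [mem_rr] at hc
    -- inverse of q mod M
    obtain ⟨u, hu⟩ : ∃ u : ℕ, (q * u) % M = 1 % M := by
      rcases Nat.lt_or_ge 1 M with h1 | h1
      · obtain ⟨u, _, hu⟩ := Nat.exists_mul_mod_eq_one_of_coprime hqM h1
        exact ⟨u, by rw [hu, Nat.mod_eq_of_lt h1]⟩
      · have : M = 1 := by omega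
        subst this
        exact ⟨0, by simp⟩
    refine ⟨(u * c) % M, ?_, ?_⟩
    · rw [mem_rr]
      refine ⟨Nat.mod_lt _ hM, ?_⟩
      rw [cop_mod]
      refine Nat.Coprime.mul_left ?_ hc.2
      have h3 : Nat.Coprime (q * u) M := by
        rw [← cop_mod, hu, cop_mod]
        exact Nat.coprime_one_left M
      exact Nat.Coprime.coprime_mul_left h3
    · have h4 : q * ((u * c) % M) ≡ c [MOD M] := by
        calc q * ((u * c) % M) ≡ q * (u * c) [MOD M] := (Nat.mod_modEq _ _).mul_left q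
          _ = (q * u) * c := by ring
          _ ≡ 1 * c [MOD M] := Nat.ModEq.mul_right c hu
          _ = c := one_mul c
      have h5 : (q * ((u * c) % M)) % M = c % M := h4
      rw [h5, Nat.mod_eq_of_lt hc.1]
  · intro a ha
    rw [jac_mod hDM, s_mod hper hM]
    have h6 : (q : ℚ) * ((a : ℚ) / M) = ((q * a : ℕ) : ℚ) / M := by push_cast; ring
    rw [h6]
    push_cast
    rw [jacobiSym.mul_left]
    have h7 : jacobiSym (q : ℤ) D * jacobiSym (q : ℤ) D = 1 := by
      have := jacobiSym.sq_one hqD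
      rwa [sq] at this
    linear_combination (- (jacobiSym (a : ℤ) D) * s ((q * a : ℚ) / M)) * h7

theorem partB {s : ℚ → ℤ} {q : ℕ} (hq : 0 < q)
    {D M : ℕ} (hM : 0 < M) (hDM : D ∣ M) :
    ∑ a ∈ rr M, jacobiSym (a : ℤ) D * ∑ b ∈ Finset.range q, s (((a : ℚ) / M + b) / q)
      = ∑ c ∈ (Finset.range (M * q)).filter (fun c => Nat.Coprime c M),
          jacobiSym (c : ℤ) D * s ((c : ℚ) / ((M * q : ℕ) : ℚ)) := by
  have hM' : (M : ℚ) ≠ 0 := by positivity
  have hq' : (q : ℚ) ≠ 0 := by positivity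
  simp_rw [Finset.mul_sum]
  rw [← Finset.sum_product']
  refine Finset.sum_bij' (fun p _ => p.1 + M * p.2) (fun c _ => (c % M, c / M)) ?_ ?_ ?_ ?_ ?_
  · rintro ⟨a, b⟩ hab
    rw [Finset.mem_product, mem_rr, Finset.mem_range] at hab
    rw [Finset.mem_filter, Finset.mem_range]
    refine ⟨?_, ?_⟩
    · dsimp only at hab ⊢
      calc a + M * b < M + M * b := by omega
        _ = M * (b + 1) := by ring
        _ ≤ M * q := Nat.mul_le_mul_left _ hab.2
    · exact (Nat.coprime_add_mul_left_left a M b).2 hab.1.2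
  · intro c hc
    rw [Finset.mem_filter, Finset.mem_range] at hc
    rw [Finset.mem_product, mem_rr, Finset.mem_range]
    refine ⟨⟨Nat.mod_lt _ hM, cop_mod.2 hc.2⟩, ?_⟩
    · exact Nat.div_lt_of_lt_mul hc.1
  · rintro ⟨a, b⟩ hab
    rw [Finset.mem_product, mem_rr, Finset.mem_range] at hab
    dsimp only at hab ⊢
    rw [Nat.add_mul_mod_self_left, Nat.mod_eq_of_lt hab.1.1, Nat.add_mul_div_left _ _ hM,
      Nat.div_eq_of_lt hab.1.1, zero_add]
  · intro c hc
    exact Nat.mod_add_div c M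
  · rintro ⟨a, b⟩ hab
    dsimp only
    rw [← jac_mod hDM (a + M * b), Nat.add_mul_mod_self_left, jac_mod hDM]
    congr 2
    push_cast
    field_simp

/-- Hecke relation for the twisted sums -/
theorem SS_mul {s : ℚ → ℤ} (hper : ∀ x, s (x + 1) = s x) {q : ℕ} {aq : ℤ} (hq : q.Prime)
    (hH : ∀ x, aq * s x = s (q * x) + ∑ b ∈ Finset.range q, s ((x + b) / q))
    {D M : ℕ} (hM : 0 < M) (hDM : D ∣ M) (hqM : Nat.Coprime q M) :
    SS s D (M * q) = (aq - 2 * jacobiSym q D) * SS s D M := by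
  have hM' : (M : ℚ) ≠ 0 := by positivity
  have hq' : (q : ℚ) ≠ 0 := by exact_mod_cast hq.ne_zero
  have h1 : aq * SS s D M = jacobiSym (q : ℤ) D * SS s D M
      + ∑ c ∈ (Finset.range (M * q)).filter (fun c => Nat.Coprime c M),
          jacobiSym (c : ℤ) D * s ((c : ℚ) / ((M * q : ℕ) : ℚ)) := by
    rw [← partA hper hM hDM hqM, ← partB hq.pos hM hDM, ← Finset.sum_add_distrib]
    unfold SS
    rw [Finset.mul_sum]
    refine Finset.sum_congr rfl fun a _ => ?_
    rw [← mul_add, ← hH]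
    ring
  have h2 : ∑ c ∈ (Finset.range (M * q)).filter (fun c => Nat.Coprime c M),
          jacobiSym (c : ℤ) D * s ((c : ℚ) / ((M * q : ℕ) : ℚ))
      = SS s D (M * q) + jacobiSym (q : ℤ) D * SS s D M := by
    rw [← Finset.sum_filter_not_add_sum_filter
      ((Finset.range (M * q)).filter (fun c => Nat.Coprime c M)) (fun c => q ∣ c)]
    congr 1
    · unfold SS
      refine Finset.sum_congr ?_ fun _ _ => rfl
      ext c
      simp only [Finset.mem_filter, Finset.mem_range, mem_rr]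
      rw [Nat.coprime_mul_iff_right]
      constructor
      · rintro ⟨⟨h1, h2⟩, h3⟩
        exact ⟨h1, h2, ((Nat.Prime.coprime_iff_not_dvd hq).2 h3).symm⟩
      · rintro ⟨h1, h2, h3⟩
        exact ⟨⟨h1, h2⟩, (Nat.Prime.coprime_iff_not_dvd hq).1 h3.symm⟩
    · unfold SS
      rw [Finset.mul_sum]
      refine (Finset.sum_bij (fun e _ => q * e) ?_ ?_ ?_ ?_).symm
      · intro e he
        rw [mem_rr] at he
        simp only [Finset.mem_filter, Finset.mem_range]
        refine ⟨⟨?_, ?_⟩, dvd_mul_right _ _⟩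
        · rw [mul_comm M q]
          exact Nat.mul_lt_mul_of_pos_left he.1 hq.pos
        · exact Nat.Coprime.mul_left hqM he.2
      · intro e _ f _ hef
        exact Nat.eq_of_mul_eq_mul_left hq.pos hef
      · intro c hc
        simp only [Finset.mem_filter, Finset.mem_range] at hc
        obtain ⟨e, rfl⟩ := hc.2
        refine ⟨e, ?_, rfl⟩
        rw [mem_rr]
        refine ⟨?_, Nat.Coprime.coprime_mul_left hc.1.2⟩
        have := hc.1.1
        rw [mul_comm M q] at this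
        exact Nat.lt_of_mul_lt_mul_left this
      · intro e _
        push_cast
        rw [jacobiSym.mul_left]
        have : ((q : ℚ) * e) / (M * q) = e / M := by field_simp
        rw [this]
        ring
  rw [h2] at h1
  linear_combination -h1

/-- sums over finite sets partitioned into classes of size `n` -/
theorem dvd_sum_of_orb {α : Type*} [DecidableEq α] (G : Finset α) (f : α → ℤ) (orb : α → Finset α)
    (n : ℕ) (h1 : ∀ a ∈ G, a ∈ orb a)
    (h2 : ∀ a ∈ G, ∀ b ∈ orb a, b ∈ G ∧ orb b = orb a ∧ f b = f a)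
    (h3 : ∀ a ∈ G, (orb a).card = n) : (n : ℤ) ∣ ∑ a ∈ G, f a := by
  classical
  rw [← Finset.sum_fiberwise_of_maps_to (t := G.image orb) (g := orb)
    (fun a ha => Finset.mem_image_of_mem _ ha)]
  refine Finset.dvd_sum fun o ho => ?_
  obtain ⟨a, ha, rfl⟩ := Finset.mem_image.1 ho
  have h4 : (G.filter fun b => orb b = orb a) = orb a := by
    ext b
    rw [Finset.mem_filter]
    constructor
    · rintro ⟨hb, hab⟩
      rw [← hab]
      exact h1 b hb
    · intro hb
      exact ⟨(h2 a ha b hb).1, (h2 a ha b hb).2.1⟩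
  rw [h4, Finset.sum_congr rfl (fun b hb => (h2 a ha b hb).2.2), Finset.sum_const, h3 a ha]
  simp

end Pool.Agent.Y687
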