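import Pool.Agent.Y687.Comb2

set_option autoImplicit false
set_option linter.style.haveILetI false

open Finset

namespace Pool.Agent.Y687

/-- sum over a class of residues -/
def AA (s : ℚ → ℤ) (S : Finset ℕ) (c : ℕ → ℤ) : ℤ :=
  ∑ a ∈ (rr (∏ q ∈ S, q)).filter (fun a : ℕ => ∀ q ∈ S, jacobiSym (a : ℤ) q = c q),
          s ((a : ℚ) / ((∏ q ∈ S, q : ℕ) : ℚ))

theorem dpm {S : Finset ℕ} {q : ℕ} (hq : q ∈ S) : q ∣ ∏ q ∈ S, q :=
  Finset.dvd_prod_of_mem (fun q => q) hq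

theorem AA_units (s : ℚ → ℤ) (S : Finset ℕ) (c : ℕ → ℤ) [NeZero (∏ q ∈ S, q)] :
    AA s S c = ∑ u ∈ (Finset.univ : Finset (ZMod (∏ q ∈ S, q))ˣ).filter
      (fun u => ∀ q ∈ S, chi q u = c q), sv s u := by
  classical
  unfold AA
  rw [Finset.sum_filter, sum_rr, Finset.sum_filter]
  rfl

theorem ne_neg_unit {M : ℕ} [NeZero M] (hM : 2 < M) (u : (ZMod M)ˣ) : u ≠ -u := by
  intro h
  have h1 : (u : ZMod M) = -(u : ZMod M) := by
    have := congrArg (fun v : (ZMod M)ˣ => (v : ZMod M)) h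
    simpa using this
  have h2 : (2 : ZMod M) * (u : ZMod M) = 0 := by linear_combination h1
  have h3 : (2 : ZMod M) = 0 := by
    have := congrArg (fun x => x * ((u⁻¹ : (ZMod M)ˣ) : ZMod M)) h2
    simpa [mul_assoc] using this
  have h4 : ((2 : ℕ) : ZMod M) = 0 := by exact_mod_cast h3
  rw [ZMod.natCast_eq_zero_iff] at h4
  exact absurd (Nat.le_of_dvd (by norm_num) h4) (by omega)

theorem AA_even {s : ℚ → ℤ} {a : ℕ → ℤ} (h : Symb s a) (S : Finset ℕ) (c : ℕ → ℤ)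
    (hS : ∀ q ∈ S, q.Prime ∧ q % 4 = 1) (hne : S.Nonempty) : (2 : ℤ) ∣ AA s S c := by
  classical
  have hM0 : (∏ q ∈ S, q) ≠ 0 := Finset.prod_ne_zero_iff.2 fun q hq => (hS q hq).1.ne_zero
  haveI : NeZero (∏ q ∈ S, q) := ⟨hM0⟩
  have hM2 : 2 < ∏ q ∈ S, q := by
    obtain ⟨q, hq⟩ := hne
    have h1 : q ≤ ∏ q ∈ S, q := Nat.le_of_dvd (Nat.pos_of_ne_zero hM0) (dpm hq)
    have h2 := (hS q hq).1.two_le
    have h3 := (hS q hq).2
    omega
  rw [AA_units]
  have := dvd_sum_of_orb ((Finset.univ : Finset (ZMod (∏ q ∈ S, q))ˣ).filter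
      (fun u => ∀ q ∈ S, chi q u = c q)) (sv s) (fun u => {u, -u}) 2 ?_ ?_ ?_
  · exact_mod_cast this
  · intro u _
    simp
  · intro u hu v hv
    rw [Finset.mem_filter] at hu
    simp only [Finset.mem_insert, Finset.mem_singleton] at hv
    rcases hv with rfl | rfl
    · exact ⟨Finset.mem_filter.2 hu, rfl, rfl⟩
    · refine ⟨Finset.mem_filter.2 ⟨Finset.mem_univ _, fun q hq => ?_⟩, ?_, sv_neg h u⟩
      · rw [chi_neg (dpm hq) (hS q hq).2]
        exact hu.2 q hq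
      · rw [neg_neg, Finset.pair_comm]
  · intro u _
    exact Finset.card_pair (ne_neg_unit hM2 u)

theorem exists_i {p : ℕ} [Fact p.Prime] (hp8 : p % 8 = 1) :
    ∃ i : ℤ, (p : ℤ) ∣ i ^ 2 + 1 ∧ jacobiSym i p = 1 := by
  have hpp : p.Prime := Fact.out
  have h8 : ∃ z : ZMod p, z ^ 4 = -1 := by
    have hsq2 : IsSquare (2 : ZMod p) :=
      (ZMod.exists_sq_eq_two_iff (by omega)).2 (Or.inl hp8)
    have hsqn : IsSquare (-1 : ZMod p) :=
      ZMod.exists_sq_eq_neg_one_iff.2 (by omega)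
    obtain ⟨t, ht⟩ := hsq2
    obtain ⟨j, hj⟩ := hsqn
    have h20 : (2 : ZMod p) ≠ 0 := by
      intro h20
      have : ((2 : ℕ) : ZMod p) = 0 := by exact_mod_cast h20
      rw [ZMod.natCast_eq_zero_iff] at this
      have := Nat.le_of_dvd (by norm_num) this
      have := hpp.two_le
      have : p = 2 := by omega
      omega
    have ht0 : t ≠ 0 := by
      rintro rfl
      apply h20
      rw [ht]; ring
    refine ⟨(1 + j) / t, ?_⟩
    have e1 : (1 + j) ^ 2 = 2 * j := by linear_combination -hj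
    have e2 : (1 + j) ^ 4 = 4 * j ^ 2 := by
      have : (1 + j) ^ 4 = ((1 + j) ^ 2) ^ 2 := by ring
      rw [this, e1]; ring
    have e3 : t ^ 4 = 4 := by
      have : t ^ 4 = (t * t) ^ 2 := by ring
      rw [this, ← ht]; norm_num
    rw [div_pow, div_eq_iff (pow_ne_zero _ ht0), e2, e3]
    linear_combination -4 * hj
  obtain ⟨z, hz⟩ := h8
  refine ⟨((z ^ 2).val : ℤ), ?_, ?_⟩
  · rw [← ZMod.intCast_zmod_eq_zero_iff_dvd]
    push_cast
    rw [ZMod.natCast_zmod_val]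
    linear_combination hz
  · rw [← jacobiSym.legendreSym.to_jacobiSym]
    have hz0 : z ≠ 0 := by
      rintro rfl
      norm_num at hz
    rw [legendreSym.eq_one_iff]
    · push_cast
      rw [ZMod.natCast_zmod_val]
      exact ⟨z, by ring⟩
    · push_cast
      rw [ZMod.natCast_zmod_val]
      exact pow_ne_zero _ hz0

theorem jac_congr {p : ℕ} {x y : ℤ} (h : (p : ℤ) ∣ x - y) : jacobiSym x p = jacobiSym y p := by
  rw [jacobiSym.mod_left x p, jacobiSym.mod_left y p]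
  congr 1
  exact Int.emod_eq_emod_iff_emod_sub_eq_zero.2 (Int.emod_eq_zero_of_dvd h)

theorem jac_neg {p : ℕ} (h4 : p % 4 = 1) (x : ℤ) : jacobiSym (-x) p = jacobiSym x p := by
  rw [← neg_one_mul, jacobiSym.mul_left, jacobiSym.at_neg_one (Nat.odd_iff.2 (by omega)),
    ZMod.χ₄_nat_one_mod_four h4, one_mul]

theorem class_rigid {p : ℕ} (hpp : p.Prime) (hp8 : p % 8 = 1) {r : ℤ}
    (hr : (p : ℤ) ∣ 14 * r ^ 2 - 1) (x : ℤ) (ε : ℤ) (hε : ε = 1 ∨ ε = -1)
    (hx : (p : ℤ) ∣ 14 * x ^ 2 - ε) : jacobiSym x p = jacobiSym r p := by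
  haveI : Fact p.Prime := ⟨hpp⟩
  obtain ⟨i, hi, hi1⟩ : ∃ i : ℤ, (p : ℤ) ∣ i ^ 2 - ε ∧ jacobiSym i p = 1 := by
    rcases hε with rfl | rfl
    · exact ⟨1, by simp, by simp⟩
    · obtain ⟨i, hi, hi1⟩ := exists_i hp8
      exact ⟨i, by simpa using hi, hi1⟩
  have hε2 : ε ^ 2 = 1 := by rcases hε with rfl | rfl <;> norm_num
  have h3 : (p : ℤ) ∣ 14 * (i * x) ^ 2 - 1 := by
    have e1 : 14 * (i * x) ^ 2 - 1 = (i ^ 2) * (14 * x ^ 2 - ε) + ε * (i ^ 2 - ε) + (ε ^ 2 - 1) := by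
      ring
    rw [e1, hε2]
    simp only [sub_self, add_zero]
    exact dvd_add (dvd_mul_of_dvd_right hx _) (dvd_mul_of_dvd_right hi _)
  have h4 : (p : ℤ) ∣ 14 * ((i * x - r) * (i * x + r)) := by
    have e1 : 14 * ((i * x - r) * (i * x + r)) = (14 * (i * x) ^ 2 - 1) - (14 * r ^ 2 - 1) := by ring
    rw [e1]
    exact dvd_sub h3 hr
  have hpP : Prime (p : ℤ) := Nat.prime_iff_prime_int.1 hpp
  have h5 : ¬ (p : ℤ) ∣ 14 := by
    intro h6
    have h7 : (p : ℤ) ∣ 1 := by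
      have := dvd_sub (dvd_mul_of_dvd_left h6 (r ^ 2)) hr
      simpa using this
    exact hpP.not_isUnit (isUnit_of_dvd_one h7)
  have h6 : jacobiSym (i * x) p = jacobiSym x p := by
    rw [jacobiSym.mul_left, hi1, one_mul]
  rcases hpP.dvd_or_dvd h4 with h7 | h7
  · exact absurd h7 h5
  · rcases hpP.dvd_or_dvd h7 with h8 | h8
    · rw [← h6, jac_congr h8]
    · rw [← h6, jac_congr (y := -r) (by simpa using h8), jac_neg (by omega)]

theorem AA_four {s : ℚ → ℤ} {a : ℕ → ℤ} (h : Symb s a) (S : Finset ℕ) (c : ℕ → ℤ)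
    (hS : ∀ q ∈ S, q.Prime ∧ q % 4 = 1 ∧ jacobiSym 14 q = 1) {p : ℕ} (hp : p ∈ S)
    (hp8 : p % 8 = 1) {r : ℤ} (hr : (p : ℤ) ∣ 14 * r ^ 2 - 1) (hc : c p = - jacobiSym r p) :
    (4 : ℤ) ∣ AA s S c := by
  classical
  have hM0 : (∏ q ∈ S, q) ≠ 0 := Finset.prod_ne_zero_iff.2 fun q hq => (hS q hq).1.ne_zero
  haveI : NeZero (∏ q ∈ S, q) := ⟨hM0⟩
  have hpp := (hS p hp).1
  haveI : Fact p.Prime := ⟨hpp⟩
  have hpM : p ∣ ∏ q ∈ S, q := dpm hp
  have hM2 : 2 < ∏ q ∈ S, q := by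
    have h1 : p ≤ ∏ q ∈ S, q := Nat.le_of_dvd (Nat.pos_of_ne_zero hM0) hpM
    have h2 := hpp.two_le
    omega
  have h14 : Nat.Coprime 14 (∏ q ∈ S, q) := by
    refine Nat.Coprime.prod_right fun q hq => ?_
    by_contra hne
    have h0 : jacobiSym (14 : ℤ) q = 0 := by
      haveI : NeZero q := ⟨(hS q hq).1.ne_zero⟩
      rw [jacobiSym.eq_zero_iff_not_coprime]
      intro hg
      apply hne
      rw [Nat.coprime_iff_gcd_eq_one]
      have : Int.gcd ((14 : ℕ) : ℤ) (q : ℤ) = 1 := hg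
      rwa [Int.gcd_natCast_natCast] at this
    rw [(hS q hq).2.2] at h0
    norm_num at h0
  obtain ⟨e, hev⟩ : ∃ e : (ZMod (∏ q ∈ S, q))ˣ, (e : ZMod (∏ q ∈ S, q)) = 14 :=
    ⟨ZMod.unitOfCoprime 14 h14, by rw [ZMod.coe_unitOfCoprime]; norm_num⟩
  have hechi : ∀ q ∈ S, chi q e = 1 := by
    intro q hq
    rw [chi_val (dpm hq) e 14 (by rw [hev]; norm_num)]
    exact (hS q hq).2.2
  have hp4 : p % 4 = 1 := by omega
  -- membership is preserved
  have memG : ∀ u ∈ (Finset.univ : Finset (ZMod (∏ q ∈ S, q))ˣ).filter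
      (fun u => ∀ q ∈ S, chi q u = c q), (e * u)⁻¹ ∈ (Finset.univ : Finset (ZMod (∏ q ∈ S, q))ˣ).filter
      (fun u => ∀ q ∈ S, chi q u = c q) := by
    intro u hu
    rw [Finset.mem_filter] at hu ⊢
    refine ⟨Finset.mem_univ _, fun q hq => ?_⟩
    rw [chi_inv (dpm hq), chi_mul (dpm hq), hechi q hq, one_mul]
    exact hu.2 q hq
  have memN : ∀ u ∈ (Finset.univ : Finset (ZMod (∏ q ∈ S, q))ˣ).filter
      (fun u => ∀ q ∈ S, chi q u = c q), -u ∈ (Finset.univ : Finset (ZMod (∏ q ∈ S, q))ˣ).filter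
      (fun u => ∀ q ∈ S, chi q u = c q) := by
    intro u hu
    rw [Finset.mem_filter] at hu ⊢
    refine ⟨Finset.mem_univ _, fun q hq => ?_⟩
    rw [chi_neg (dpm hq) (hS q hq).2.1]
    exact hu.2 q hq
  have svw : ∀ u : (ZMod (∏ q ∈ S, q))ˣ, sv s (e * u)⁻¹ = sv s u := fun u =>
    sv_inv h e u (e * u)⁻¹ hev (mul_inv_cancel _)
  have ww : ∀ u : (ZMod (∏ q ∈ S, q))ˣ, (e * (e * u)⁻¹)⁻¹ = u := by
    intro u
    rw [mul_inv_rev, mul_inv_rev, mul_inv_rev]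
    simp
  have wn : ∀ u : (ZMod (∏ q ∈ S, q))ˣ, (e * -u)⁻¹ = -(e * u)⁻¹ := by
    intro u
    rw [mul_neg]
    exact inv_neg
  -- no fixed points
  have nofix : ∀ u ∈ (Finset.univ : Finset (ZMod (∏ q ∈ S, q))ˣ).filter
      (fun u => ∀ q ∈ S, chi q u = c q), ∀ ε : ℤ, (ε = 1 ∨ ε = -1) →
      (14 : ZMod (∏ q ∈ S, q)) * (u : ZMod (∏ q ∈ S, q)) ^ 2 ≠ (ε : ℤ) := by
    intro u hu ε hε heq
    rw [Finset.mem_filter] at hu
    have h1 := hu.2 p hp
    have h2 : ((14 * ((u : ZMod (∏ q ∈ S, q)).val : ℤ) ^ 2 : ℤ) : ZMod (∏ q ∈ S, q)) = (ε : ℤ) := by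
      push_cast
      rw [ZMod.natCast_zmod_val]
      exact heq
    have h3 := (Int.modEq_iff_dvd.1 ((ZMod.intCast_eq_intCast_iff _ _ _).1 h2.symm))
    have h4 : (p : ℤ) ∣ 14 * ((u : ZMod (∏ q ∈ S, q)).val : ℤ) ^ 2 - ε :=
      (Int.natCast_dvd_natCast.2 hpM).trans h3
    have h5 := class_rigid hpp hp8 hr _ ε hε h4
    have h6 : chi p u = jacobiSym r p := h5
    rw [h1, hc] at h6
    have h7 : jacobiSym r p = 1 ∨ jacobiSym r p = -1 := by
      rw [← h5]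
      exact chi_pm hpM u
    rcases h7 with h7 | h7 <;> rw [h7] at h6 <;> norm_num at h6
  have d1 : ∀ u ∈ (Finset.univ : Finset (ZMod (∏ q ∈ S, q))ˣ).filter
      (fun u => ∀ q ∈ S, chi q u = c q), u ≠ (e * u)⁻¹ := by
    intro u hu heq
    apply nofix u hu 1 (Or.inl rfl)
    have h1 : e * u * u = 1 := by
      nth_rewrite 2 [heq]
      exact mul_inv_cancel _
    have h2 := congrArg (fun v : (ZMod (∏ q ∈ S, q))ˣ => (v : ZMod (∏ q ∈ S, q))) h1
    simp only [Units.val_mul, Units.val_one, hev] at h2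
    push_cast
    linear_combination h2
  have d2 : ∀ u ∈ (Finset.univ : Finset (ZMod (∏ q ∈ S, q))ˣ).filter
      (fun u => ∀ q ∈ S, chi q u = c q), u ≠ -(e * u)⁻¹ := by
    intro u hu heq
    apply nofix u hu (-1) (Or.inr rfl)
    have h1 : e * u * u = -1 := by
      nth_rewrite 2 [heq]
      rw [mul_neg, mul_inv_cancel]
    have h2 := congrArg (fun v : (ZMod (∏ q ∈ S, q))ˣ => (v : ZMod (∏ q ∈ S, q))) h1
    simp only [Units.val_mul, Units.val_neg, Units.val_one, hev] at h2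
    push_cast
    linear_combination h2
  rw [AA_units]
  have := dvd_sum_of_orb ((Finset.univ : Finset (ZMod (∏ q ∈ S, q))ˣ).filter
      (fun u => ∀ q ∈ S, chi q u = c q)) (sv s) (fun u => {u, -u, (e * u)⁻¹, -(e * u)⁻¹}) 4 ?_ ?_ ?_
  · exact_mod_cast this
  · intro u _
    simp
  · intro u hu v hv
    simp only [Finset.mem_insert, Finset.mem_singleton] at hv
    rcases hv with rfl | rfl | rfl | rfl
    · exact ⟨hu, rfl, rfl⟩
    · refine ⟨memN u hu, ?_, sv_neg h u⟩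
      rw [neg_neg, wn, neg_neg]
      ext x
      simp only [Finset.mem_insert, Finset.mem_singleton]
      tauto
    · refine ⟨memG u hu, ?_, svw u⟩
      rw [ww]
      ext x
      simp only [Finset.mem_insert, Finset.mem_singleton]
      tauto
    · refine ⟨memN _ (memG u hu), ?_, (sv_neg h _).trans (svw u)⟩
      rw [neg_neg, wn, ww, neg_neg]
      ext x
      simp only [Finset.mem_insert, Finset.mem_singleton]
      tauto
  · intro u hu
    rw [Finset.card_insert_of_notMem, Finset.card_insert_of_notMem, Finset.card_pair]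
    · exact ne_neg_unit hM2 _
    · simp only [Finset.mem_insert, Finset.mem_singleton, not_or]
      refine ⟨fun h1 => d2 u hu (by rw [← h1, neg_neg]), fun h1 => d1 u hu (neg_injective h1)⟩
    · simp only [Finset.mem_insert, Finset.mem_singleton, not_or]
      exact ⟨ne_neg_unit hM2 u, d1 u hu, d2 u hu⟩

end Pool.Agent.Y687
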