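import Mathlib

/-!
Descent by a two-isogeny over `ℚ`.
-/

set_option autoImplicit false
set_option linter.style.haveILetI false

namespace Pool.Agent.Y687

/-- the homogeneous space attached to a point of `Y² = X (X² + A X + B)` -/
theorem hom_space (A B : ℤ) {X Y : ℚ} (hX : X ≠ 0) (h : Y ^ 2 = X * (X ^ 2 + A * X + B)) :
    ∃ d w e N : ℤ, Squarefree d ∧ 0 < e ∧ w ≠ 0 ∧ IsCoprime (d * w) e ∧
      X = d * w ^ 2 / e ^ 2 ∧
      d * N ^ 2 = d ^ 2 * w ^ 4 + A * d * w ^ 2 * e ^ 2 + B * e ^ 4 := by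
  have hr0 : X.num ≠ 0 := Rat.num_ne_zero.2 hX
  have ht0 : (0 : ℤ) < X.den := by exact_mod_cast X.den_pos
  have hcop : IsCoprime X.num (X.den : ℤ) := Int.isCoprime_iff_gcd_eq_one.2 (by
    have := X.reduced
    simpa [Int.gcd, Nat.Coprime] using this)
  have hXe : X = (X.num : ℚ) / (X.den : ℚ) := (Rat.num_div_den X).symm
  generalize X.num = r at hr0 hcop hXe
  generalize hden : (X.den : ℤ) = t at ht0 hcop
  have hXe' : X = (r : ℚ) / (t : ℚ) := by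
    rw [hXe, ← hden]; push_cast; rfl
  have htq : (t : ℚ) ≠ 0 := by exact_mod_cast ht0.ne'
  set K : ℤ := r * (r ^ 2 + A * r * t + B * t ^ 2) with hK
  have h1 : (Y * (t : ℚ) ^ 2) ^ 2 = ((t * K : ℤ) : ℚ) := by
    rw [mul_pow, h, hXe', hK]
    push_cast
    field_simp
  obtain ⟨z, hz⟩ : IsSquare (t * K) := Rat.isSquare_intCast_iff.1 ⟨Y * (t : ℚ) ^ 2, by rw [← h1]; ring⟩
  have hcK : IsCoprime t K := by
    rw [hK]
    refine IsCoprime.mul_right hcop.symm ?_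
    have e1 : r ^ 2 + A * r * t + B * t ^ 2 = r ^ 2 + t * (A * r + B * t) := by ring
    rw [e1]
    exact (IsCoprime.pow_right hcop.symm).add_mul_left_right _
  have hz' : t * K = z ^ 2 := by rw [hz]; ring
  obtain ⟨e0, he0⟩ := Int.sq_of_isCoprime hcK hz'
  have he0' : t = e0 ^ 2 := by
    rcases he0 with h2 | h2
    · exact h2
    · nlinarith [sq_nonneg e0]
  obtain ⟨k0, hk0⟩ := Int.sq_of_isCoprime hcK.symm (by rw [mul_comm]; exact hz')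
  have hk0' : K = k0 ^ 2 := by
    rcases hk0 with h2 | h2
    · exact h2
    · have h3 : 0 ≤ t * K := by rw [hz']; positivity
      have h4 : 0 ≤ K := nonneg_of_mul_nonneg_right h3 ht0
      have h5 : k0 ^ 2 = 0 := by nlinarith [sq_nonneg k0]
      rw [h2, h5]; ring
  have he00 : e0 ≠ 0 := by
    rintro rfl
    rw [he0'] at ht0
    norm_num at ht0
  obtain ⟨e, he, hte⟩ : ∃ e : ℤ, 0 < e ∧ t = e ^ 2 := ⟨|e0|, abs_pos.2 he00, by rw [sq_abs]; exact he0'⟩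
  -- squarefree part
  obtain ⟨a, b, hab, hsf⟩ := Nat.sq_mul_squarefree r.natAbs
  have hr : r = (r.sign * a) * (b : ℤ) ^ 2 := by
    have h2 := Int.sign_mul_natAbs r
    rw [← hab] at h2
    push_cast at h2
    linear_combination -h2
  have hb0 : (b : ℤ) ≠ 0 := by
    intro hb
    rw [hb] at hr
    apply hr0
    rw [hr]; ring
  set d : ℤ := r.sign * a with hd
  have hdsf : Squarefree d := by
    rw [← Int.squarefree_natAbs, hd, Int.natAbs_mul, Int.natAbs_sign_of_ne_zero hr0, one_mul,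
      Int.natAbs_natCast]
    exact hsf
  have hd0 : d ≠ 0 := hdsf.ne_zero
  have hK2 : k0 ^ 2 = (b : ℤ) ^ 2 * (d * (d ^ 2 * b ^ 4 + A * d * b ^ 2 * e ^ 2 + B * e ^ 4)) := by
    rw [← hk0', hK, hr, hte]; ring
  have hbk : (b : ℤ) ∣ k0 := by
    rw [← Int.pow_dvd_pow_iff (n := 2) (by norm_num)]
    exact ⟨_, hK2⟩
  obtain ⟨k1, hk1⟩ := hbk
  have hK3 : k1 ^ 2 = d * (d ^ 2 * b ^ 4 + A * d * b ^ 2 * e ^ 2 + B * e ^ 4) := by
    apply mul_left_cancel₀ (pow_ne_zero 2 hb0)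
    rw [← hK2, hk1]; ring
  have hdk : d ∣ k1 := (hdsf.dvd_pow_iff_dvd (by norm_num : (2 : ℕ) ≠ 0)).1 ⟨_, hK3⟩
  obtain ⟨N, hN⟩ := hdk
  refine ⟨d, b, e, N, hdsf, he, hb0, ?_, ?_, ?_⟩
  · have h2 : IsCoprime (d * (b : ℤ) * b) (e * e) := by
      have : d * (b : ℤ) * b = r := by rw [hr]; ring
      rw [this, ← sq, ← hte]
      exact hcop
    exact (IsCoprime.of_mul_left_left h2).of_mul_right_left
  · rw [hXe', hte, hr]
    push_cast
    ring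
  · apply mul_left_cancel₀ hd0
    rw [← hK3, hN]; ring

/-- a prime dividing both `d` and `M` -/
theorem local_root {A0 B0 M d w e N : ℤ} (hd : Squarefree d) (hM : Squarefree M)
    (hc : IsCoprime (d * w) e)
    (h : d * N ^ 2 = d ^ 2 * w ^ 4 + (A0 * M) * d * w ^ 2 * e ^ 2 + (B0 * M ^ 2) * e ^ 4)
    {q : ℕ} (hq : q.Prime) (hqd : (q : ℤ) ∣ d) (hqM : (q : ℤ) ∣ M) :
    ∃ d1 M1 : ℤ, d = q * d1 ∧ M = q * M1 ∧ (M1 : ZMod q) ≠ 0 ∧ (e : ZMod q) ≠ 0 ∧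
      ((d1 * w ^ 2 : ℤ) : ZMod q) ^ 2 + A0 * ((M1 : ZMod q) * (e : ZMod q) ^ 2) * ((d1 * w ^ 2 : ℤ) : ZMod q)
        + B0 * ((M1 : ZMod q) * (e : ZMod q) ^ 2) ^ 2 = 0 := by
  haveI : Fact q.Prime := ⟨hq⟩
  have hqP : Prime (q : ℤ) := Nat.prime_iff_prime_int.1 hq
  have hq0 : (q : ℤ) ≠ 0 := hqP.ne_zero
  obtain ⟨d1, hd1⟩ := hqd
  obtain ⟨M1, hM1⟩ := hqM
  have nd1 : ¬ (q : ℤ) ∣ d1 := by
    rintro ⟨k, hk⟩
    have := hd q ⟨k, by rw [hd1, hk]; ring⟩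
    exact hqP.not_isUnit this
  have nM1 : ¬ (q : ℤ) ∣ M1 := by
    rintro ⟨k, hk⟩
    have := hM q ⟨k, by rw [hM1, hk]; ring⟩
    exact hqP.not_isUnit this
  have ne1 : ¬ (q : ℤ) ∣ e := by
    intro hqe
    have h2 : (q : ℤ) ∣ d * w := (Dvd.intro d1 hd1.symm).mul_right w
    exact hqP.not_isUnit (hc.isUnit_of_dvd' h2 hqe)
  have h1 : d1 * N ^ 2 = q * (d1 ^ 2 * w ^ 4 + A0 * M1 * d1 * w ^ 2 * e ^ 2 + B0 * M1 ^ 2 * e ^ 4) := by
    apply mul_left_cancel₀ hq0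
    rw [hd1, hM1] at h
    linear_combination h
  have hqN : (q : ℤ) ∣ N := by
    have h2 : (q : ℤ) ∣ d1 * N ^ 2 := ⟨_, h1⟩
    exact hqP.dvd_of_dvd_pow ((hqP.dvd_or_dvd h2).resolve_left nd1)
  obtain ⟨N1, hN1⟩ := hqN
  have h2 : d1 * (q * N1 ^ 2) = d1 ^ 2 * w ^ 4 + A0 * M1 * d1 * w ^ 2 * e ^ 2 + B0 * M1 ^ 2 * e ^ 4 := by
    apply mul_left_cancel₀ hq0
    rw [← h1, hN1]; ring
  refine ⟨d1, M1, hd1, hM1, ?_, ?_, ?_⟩
  · rw [Ne, ZMod.intCast_zmod_eq_zero_iff_dvd]; exact nM1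
  · rw [Ne, ZMod.intCast_zmod_eq_zero_iff_dvd]; exact ne1
  · have h3 := congrArg (fun z : ℤ => (z : ZMod q)) h2
    push_cast at h3 ⊢
    rw [ZMod.natCast_self] at h3
    linear_combination -h3

/-- the hypotheses of the descent for `M = p m` -/
structure Hyp (m p : ℕ) : Prop where
  m4 : m % 4 = 1
  pp : p.Prime
  p8 : p % 8 = 1
  sqf : Squarefree (((p * m : ℕ)) : ℤ)
  pm : ¬ p ∣ m
  two : ∀ q : ℕ, q.Prime → q ∣ m → q ≠ 2 ∧ q ≠ 7 ∧ ¬ IsSquare (-7 : ZMod q) ∧ ¬ IsSquare (2 : ZMod q)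
  p7 : p ≠ 7
  sev : IsSquare (-7 : ZMod p)
  root : ∀ x : ZMod p, x ^ 2 + 13 * (m : ZMod p) * x + 128 * (m : ZMod p) ^ 2 = 0 → ¬ IsSquare x

theorem prime_cast_ne {p : ℕ} (hp : p.Prime) (l : ℕ) (hl : l.Prime) (h : p ≠ l) :
    (l : ZMod p) ≠ 0 := by
  intro h0
  rw [ZMod.natCast_eq_zero_iff] at h0
  exact h ((Nat.prime_dvd_prime_iff_eq hp hl).1 h0)

theorem Hyp.msq {m p : ℕ} (H : Hyp m p) : Squarefree (m : ℤ) := by
  have h := H.sqf
  push_cast at h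
  exact h.of_mul_right

/-- an integer dividing `c M ^ 2` without common prime factor with `M` -/
theorem dvd_of_no_common {d c M : ℤ} (hdc : d ∣ c * M ^ 2)
    (hno : ∀ q : ℕ, q.Prime → (q : ℤ) ∣ d → ¬ (q : ℤ) ∣ M) : d ∣ c := by
  have hcop : IsCoprime d M := by
    rw [Int.isCoprime_iff_gcd_eq_one]
    by_contra hg
    obtain ⟨q, hq, hqg⟩ := Nat.exists_prime_and_dvd hg
    have h1 : (q : ℤ) ∣ d := (Int.natCast_dvd_natCast.2 hqg).trans (Int.gcd_dvd_left _ _)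
    have h2 : (q : ℤ) ∣ M := (Int.natCast_dvd_natCast.2 hqg).trans (Int.gcd_dvd_right _ _)
    exact hno q hq h1 h2
  exact (hcop.pow_right (n := 2)).dvd_of_dvd_mul_right hdc

theorem sf_pow {d : ℤ} (l k : ℕ) (hl : l.Prime) (hd : Squarefree d) (h : d ∣ (l : ℤ) ^ k) :
    d.natAbs = 1 ∨ d.natAbs = l := by
  have h1 : d.natAbs ∣ l ^ k := by
    have := Int.natAbs_dvd_natAbs.2 h
    rwa [Int.natAbs_pow, Int.natAbs_natCast] at this
  obtain ⟨j, -, hj⟩ := (Nat.dvd_prime_pow hl).1 h1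
  match j with
  | 0 => left; rw [hj, pow_zero]
  | 1 => right; rw [hj, pow_one]
  | j + 2 =>
    exfalso
    have h2 : Squarefree d.natAbs := Int.squarefree_natAbs.2 hd
    have h3 := h2 l ⟨l ^ j, by rw [hj]; ring⟩
    rw [Nat.isUnit_iff] at h3
    exact hl.one_lt.ne' h3

end Pool.Agent.Y687
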