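import Pool.Agent.Y687.Desc

/-!
The square classes occurring in the descent.
-/

set_option autoImplicit false
set_option linter.style.haveILetI false

namespace Pool.Agent.Y687

variable {m p : ℕ}

theorem Hyp.cop_case (H : Hyp m p) {q : ℕ} (hq : q.Prime) (h : (q : ℤ) ∣ ((p * m : ℕ) : ℤ)) :
    q = p ∨ q ∣ m := by
  have h1 : q ∣ p * m := Int.natCast_dvd_natCast.1 h
  rcases hq.dvd_mul.1 h1 with h2 | h2
  · exact Or.inl ((Nat.prime_dvd_prime_iff_eq hq H.pp).1 h2)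
  · exact Or.inr h2

theorem div_dvd {d B e N w A : ℤ} (hc : IsCoprime (d * w) e)
    (h : d * N ^ 2 = d ^ 2 * w ^ 4 + A * d * w ^ 2 * e ^ 2 + B * e ^ 4) : d ∣ B := by
  have h1 : d ∣ B * e ^ 4 := ⟨N ^ 2 - d * w ^ 4 - A * w ^ 2 * e ^ 2, by linear_combination -h⟩
  exact ((hc.of_mul_left_left).pow_right (n := 4)).dvd_of_dvd_mul_right h1

/-- first descent: the class of `x` -/
theorem Hyp.cls1 (H : Hyp m p) {d w e N : ℤ} (hd : Squarefree d) (he : 0 < e)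
    (hc : IsCoprime (d * w) e)
    (h : d * N ^ 2 = d ^ 2 * w ^ 4 + (13 * ((p * m : ℕ) : ℤ)) * d * w ^ 2 * e ^ 2 +
      (128 * ((p * m : ℕ) : ℤ) ^ 2) * e ^ 4) : d = 1 ∨ d = 2 := by
  have hd0 := hd.ne_zero
  have hM0 : (((p * m : ℕ)) : ℤ) ≠ 0 := H.sqf.ne_zero
  -- positivity
  have hpos : 0 < d := by
    by_contra hneg
    have h1 : d * N ^ 2 ≤ 0 := mul_nonpos_of_nonpos_of_nonneg (by linarith) (sq_nonneg _)
    have h2 : 0 < 343 * ((p * m : ℕ) : ℤ) ^ 2 * e ^ 4 := by positivity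
    nlinarith [sq_nonneg (2 * d * w ^ 2 + 13 * ((p * m : ℕ) : ℤ) * e ^ 2)]
  have hdvd := div_dvd hc h
  -- primes dividing `m`
  have h1 : ∀ q : ℕ, q.Prime → (q : ℤ) ∣ d → ¬ q ∣ m := by
    intro q hq hqd hqm
    haveI : Fact q.Prime := ⟨hq⟩
    obtain ⟨n2, n7, hs7, hs2⟩ := H.two q hq hqm
    have hqM : (q : ℤ) ∣ ((p * m : ℕ) : ℤ) := Int.natCast_dvd_natCast.2 (hqm.mul_left p)
    obtain ⟨d1, M1, -, -, k1, k2, k3⟩ := local_root hd H.sqf hc h hq hqd hqM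
    have n7' : (7 : ZMod q) ≠ 0 := by exact_mod_cast prime_cast_ne hq 7 (by norm_num) n7
    set z : ZMod q := (M1 : ZMod q) * (e : ZMod q) ^ 2 with hz
    have hz0 : z ≠ 0 := mul_ne_zero k1 (pow_ne_zero 2 k2)
    set u : ZMod q := ((d1 * w ^ 2 : ℤ) : ZMod q) with hu
    apply hs7
    refine ⟨(2 * u + 13 * z) / (7 * z), ?_⟩
    have h77 : (7 * z) * (7 * z) ≠ 0 := mul_ne_zero (mul_ne_zero n7' hz0) (mul_ne_zero n7' hz0)
    rw [div_mul_div_comm, eq_div_iff h77]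
    push_cast at k3
    linear_combination -4 * k3
  -- the prime `p`
  have h2 : ¬ (p : ℤ) ∣ d := by
    intro hpd
    haveI : Fact p.Prime := ⟨H.pp⟩
    have hpM : (p : ℤ) ∣ ((p * m : ℕ) : ℤ) := Int.natCast_dvd_natCast.2 (Dvd.intro _ rfl)
    obtain ⟨d1, M1, hdd, hMM, k1, k2, k3⟩ := local_root hd H.sqf hc h H.pp hpd hpM
    have hp0 : (p : ℤ) ≠ 0 := by exact_mod_cast H.pp.ne_zero
    have hM1 : M1 = (m : ℤ) := by
      apply mul_left_cancel₀ hp0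
      rw [← hMM]; push_cast; rfl
    have hd1sf : Squarefree d1 := by
      rw [hdd] at hd
      exact hd.of_mul_right
    have hd1pos : 0 < d1 := by
      rw [hdd] at hpos
      exact (mul_pos_iff_of_pos_left (by exact_mod_cast H.pp.pos)).1 hpos
    have h3 : d1 ∣ 128 := by
      refine dvd_of_no_common (M := ((p * m : ℕ) : ℤ)) ((Dvd.intro_left _ hdd.symm).trans hdvd)
        fun q hq hqd hqM => ?_
      rcases H.cop_case hq hqM with rfl | hqm
      · have := hd q (by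
          obtain ⟨k, hk⟩ := hqd
          exact ⟨k, by rw [hdd, hk]; ring⟩)
        exact (Nat.prime_iff_prime_int.1 hq).not_isUnit this
      · exact h1 q hq (hdd ▸ hqd.mul_left _) hqm
    have h4 := sf_pow 2 7 Nat.prime_two hd1sf (by norm_num; exact h3)
    have h5 : d1 = 1 ∨ d1 = 2 := by omega
    have hs : IsSquare (d1 : ZMod p) := by
      rcases h5 with rfl | rfl
      · exact ⟨1, by push_cast; ring⟩
      · push_cast
        exact (ZMod.exists_sq_eq_two_iff (by have := H.p8; rintro rfl; omega)).2 (Or.inl H.p8)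
    obtain ⟨r, hr⟩ := hs
    refine H.root ((d1 : ZMod p) * (w : ZMod p) ^ 2 / (e : ZMod p) ^ 2) ?_ ?_
    · rw [hM1] at k3
      push_cast at k3
      field_simp
      linear_combination k3
    · refine ⟨r * (w : ZMod p) / (e : ZMod p), ?_⟩
      rw [hr]
      field_simp
  have h3 : d ∣ 128 := by
    refine dvd_of_no_common (M := ((p * m : ℕ) : ℤ)) hdvd fun q hq hqd hqM => ?_
    rcases H.cop_case hq hqM with rfl | hqm
    · exact h2 hqd
    · exact h1 q hq hqd hqm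
  have h4 := sf_pow 2 7 Nat.prime_two hd (by norm_num; exact h3)
  omega

theorem sq16 (x : ZMod 16) : x ^ 2 = 0 ∨ x ^ 2 = 1 ∨ x ^ 2 = 4 ∨ x ^ 2 = 9 := by
  revert x; decide

theorem even_of_sq16 (x : ℤ) (h : (x : ZMod 16) ^ 2 = 0 ∨ (x : ZMod 16) ^ 2 = 4) : Even x := by
  have h1 : ∀ y : ZMod 16, (y ^ 2 = 0 ∨ y ^ 2 = 4) → (8 : ZMod 16) * y = 0 := by decide
  have h2 := h1 _ h
  have h3 : ((8 * x : ℤ) : ZMod 16) = 0 := by push_cast; exact h2
  rw [ZMod.intCast_zmod_eq_zero_iff_dvd] at h3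
  push_cast at h3
  exact Int.even_iff.2 (by omega)

theorem mod4_16 (M : ℤ) (h : M % 4 = 1) : (M : ZMod 16) = 1 ∨ (M : ZMod 16) = 5 ∨
    (M : ZMod 16) = 9 ∨ (M : ZMod 16) = 13 := by
  have h1 : (M : ZMod 16) = ((M % 16 : ℤ) : ZMod 16) := by
    have := ZMod.intCast_mod M 16
    push_cast at this
    exact this.symm
  have h2 : M % 16 = 1 ∨ M % 16 = 5 ∨ M % 16 = 9 ∨ M % 16 = 13 := by omega
  rw [h1]
  rcases h2 with h2 | h2 | h2 | h2 <;> rw [h2] <;> simp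

theorem key16a : ∀ M n : ZMod 16, (M = 1 ∨ M = 5 ∨ M = 9 ∨ M = 13) →
    (n = 0 ∨ n = 1 ∨ n = 4 ∨ n = 9) → ∀ W E : ZMod 16, (W = 0 ∨ W = 1 ∨ W = 4 ∨ W = 9) →
    (E = 0 ∨ E = 1 ∨ E = 4 ∨ E = 9) → ¬ ((W = 0 ∨ W = 4) ∧ (E = 0 ∨ E = 4)) →
    ¬ (-n = W ^ 2 + 26 * M * W * E - 343 * M ^ 2 * E ^ 2) := by
  rintro M n (rfl | rfl | rfl | rfl) (rfl | rfl | rfl | rfl) W E (rfl | rfl | rfl | rfl)
    (rfl | rfl | rfl | rfl)
  all_goals decide

theorem key16b : ∀ M n : ZMod 16, (M = 1 ∨ M = 5 ∨ M = 9 ∨ M = 13) →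
    (n = 0 ∨ n = 1 ∨ n = 4 ∨ n = 9) → ∀ W E : ZMod 16, (W = 0 ∨ W = 1 ∨ W = 4 ∨ W = 9) →
    (E = 0 ∨ E = 1 ∨ E = 4 ∨ E = 9) → ¬ ((W = 0 ∨ W = 4) ∧ (E = 0 ∨ E = 4)) →
    ¬ (n = 7 * W ^ 2 - 26 * M * W * E - 49 * M ^ 2 * E ^ 2) := by
  rintro M n (rfl | rfl | rfl | rfl) (rfl | rfl | rfl | rfl) W E (rfl | rfl | rfl | rfl)
    (rfl | rfl | rfl | rfl)
  all_goals decide

theorem not_neg_one {M w e N : ℤ} (hM : M % 4 = 1) (hc : IsCoprime w e)
    (h : -N ^ 2 = w ^ 4 + 26 * M * w ^ 2 * e ^ 2 - 343 * M ^ 2 * e ^ 4) : False := by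
  have h1 : -(N : ZMod 16) ^ 2 = ((w : ZMod 16) ^ 2) ^ 2 + 26 * (M : ZMod 16) * (w : ZMod 16) ^ 2 *
      (e : ZMod 16) ^ 2 - 343 * (M : ZMod 16) ^ 2 * ((e : ZMod 16) ^ 2) ^ 2 := by
    have := congrArg (fun z : ℤ => (z : ZMod 16)) h
    push_cast at this
    linear_combination this
  have hnot : ¬ (((w : ZMod 16) ^ 2 = 0 ∨ (w : ZMod 16) ^ 2 = 4) ∧
      ((e : ZMod 16) ^ 2 = 0 ∨ (e : ZMod 16) ^ 2 = 4)) := by
    rintro ⟨a1, a2⟩
    have b1 := (even_of_sq16 w a1).two_dvd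
    have b2 := (even_of_sq16 e a2).two_dvd
    exact Int.prime_two.not_isUnit (hc.isUnit_of_dvd' b1 b2)
  exact key16a _ _ (mod4_16 M hM) (sq16 _) _ _ (sq16 _) (sq16 _) hnot h1

theorem not_seven {M w e N : ℤ} (hM : M % 4 = 1) (hc : IsCoprime w e)
    (h : N ^ 2 = 7 * w ^ 4 - 26 * M * w ^ 2 * e ^ 2 - 49 * M ^ 2 * e ^ 4) : False := by
  have h1 : (N : ZMod 16) ^ 2 = 7 * ((w : ZMod 16) ^ 2) ^ 2 - 26 * (M : ZMod 16) * (w : ZMod 16) ^ 2 *
      (e : ZMod 16) ^ 2 - 49 * (M : ZMod 16) ^ 2 * ((e : ZMod 16) ^ 2) ^ 2 := by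
    have := congrArg (fun z : ℤ => (z : ZMod 16)) h
    push_cast at this
    linear_combination this
  have hnot : ¬ (((w : ZMod 16) ^ 2 = 0 ∨ (w : ZMod 16) ^ 2 = 4) ∧
      ((e : ZMod 16) ^ 2 = 0 ∨ (e : ZMod 16) ^ 2 = 4)) := by
    rintro ⟨a1, a2⟩
    have b1 := (even_of_sq16 w a1).two_dvd
    have b2 := (even_of_sq16 e a2).two_dvd
    exact Int.prime_two.not_isUnit (hc.isUnit_of_dvd' b1 b2)
  exact key16b _ _ (mod4_16 M hM) (sq16 _) _ _ (sq16 _) (sq16 _) hnot h1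

/-- second descent: the class of `X` on the isogenous curve -/
theorem Hyp.cls2 (H : Hyp m p) {d w e N : ℤ} (hd : Squarefree d)
    (hc : IsCoprime (d * w) e)
    (h : d * N ^ 2 = d ^ 2 * w ^ 4 + (-26 * ((p * m : ℕ) : ℤ)) * d * w ^ 2 * e ^ 2 +
      (-343 * ((p * m : ℕ) : ℤ) ^ 2) * e ^ 4) : d = 1 ∨ d = -7 := by
  have hd0 := hd.ne_zero
  have hM0 : (((p * m : ℕ)) : ℤ) ≠ 0 := H.sqf.ne_zero
  have hdvd := div_dvd hc h
  -- primes dividing `m`
  have h1 : ∀ q : ℕ, q.Prime → (q : ℤ) ∣ d → ¬ q ∣ m := by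
    intro q hq hqd hqm
    haveI : Fact q.Prime := ⟨hq⟩
    obtain ⟨n2, n7, hs7, hs2⟩ := H.two q hq hqm
    have hqM : (q : ℤ) ∣ ((p * m : ℕ) : ℤ) := Int.natCast_dvd_natCast.2 (hqm.mul_left p)
    obtain ⟨d1, M1, -, -, k1, k2, k3⟩ := local_root hd H.sqf hc h hq hqd hqM
    have n2' : (2 : ZMod q) ≠ 0 := by exact_mod_cast prime_cast_ne hq 2 Nat.prime_two n2
    have n16 : (16 : ZMod q) ≠ 0 := by
      rw [show (16 : ZMod q) = 2 ^ 4 by norm_num]; exact pow_ne_zero _ n2'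
    set z : ZMod q := (M1 : ZMod q) * (e : ZMod q) ^ 2 with hz
    have hz0 : z ≠ 0 := mul_ne_zero k1 (pow_ne_zero 2 k2)
    set u : ZMod q := ((d1 * w ^ 2 : ℤ) : ZMod q) with hu
    apply hs2
    refine ⟨(u - 13 * z) / (16 * z), ?_⟩
    have h77 : (16 * z) * (16 * z) ≠ 0 := mul_ne_zero (mul_ne_zero n16 hz0) (mul_ne_zero n16 hz0)
    rw [div_mul_div_comm, eq_div_iff h77]
    push_cast at k3
    linear_combination -k3
  have h2 : ¬ (p : ℤ) ∣ d := by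
    intro hpd
    haveI : Fact p.Prime := ⟨H.pp⟩
    have hpM : (p : ℤ) ∣ ((p * m : ℕ) : ℤ) := Int.natCast_dvd_natCast.2 (Dvd.intro _ rfl)
    obtain ⟨d1, M1, hdd, hMM, k1, k2, k3⟩ := local_root hd H.sqf hc h H.pp hpd hpM
    have hp0 : (p : ℤ) ≠ 0 := by exact_mod_cast H.pp.ne_zero
    have hM1 : M1 = (m : ℤ) := by
      apply mul_left_cancel₀ hp0
      rw [← hMM]; push_cast; rfl
    have hd1sf : Squarefree d1 := by
      rw [hdd] at hd
      exact hd.of_mul_right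
    have h3 : d1 ∣ -343 := by
      refine dvd_of_no_common (M := ((p * m : ℕ) : ℤ)) ((Dvd.intro_left _ hdd.symm).trans hdvd)
        fun q hq hqd hqM => ?_
      rcases H.cop_case hq hqM with rfl | hqm
      · have := hd q (by
          obtain ⟨k, hk⟩ := hqd
          exact ⟨k, by rw [hdd, hk]; ring⟩)
        exact (Nat.prime_iff_prime_int.1 hq).not_isUnit this
      · exact h1 q hq (hdd ▸ hqd.mul_left _) hqm
    have h4 := sf_pow 7 3 (by norm_num) hd1sf (by norm_num; exact (dvd_neg.1 h3))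
    have h5 : d1 = 1 ∨ d1 = -1 ∨ d1 = 7 ∨ d1 = -7 := by omega
    have n2' : (2 : ZMod p) ≠ 0 := by
      exact_mod_cast prime_cast_ne H.pp 2 Nat.prime_two (by have := H.p8; rintro rfl; omega)
    obtain ⟨i, hi⟩ := (ZMod.exists_sq_eq_neg_one_iff (p := p)).2 (by have := H.p8; omega)
    obtain ⟨δ, hδ⟩ := H.sev
    have hs : IsSquare (d1 : ZMod p) := by
      rcases h5 with rfl | rfl | rfl | rfl
      · exact ⟨1, by push_cast; ring⟩
      · exact ⟨i, by push_cast; exact hi⟩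
      · exact ⟨i * δ, by push_cast; linear_combination (-7 : ZMod p) * hi + (i * i) * hδ⟩
      · exact ⟨δ, by push_cast; exact hδ⟩
    obtain ⟨r, hr⟩ := hs
    have hw0 : (w : ZMod p) ≠ 0 := by
      intro hw0
      push_cast at k3
      rw [hw0] at k3
      have h6 : (343 : ZMod p) * ((M1 : ZMod p) * (e : ZMod p) ^ 2) ^ 2 = 0 := by
        linear_combination -k3
      rcases mul_eq_zero.1 h6 with h7 | h7
      · have n7' : (7 : ZMod p) ≠ 0 := by exact_mod_cast prime_cast_ne H.pp 7 (by norm_num) H.p7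
        rw [show (343 : ZMod p) = 7 ^ 3 by norm_num] at h7
        exact pow_ne_zero _ n7' h7
      · exact pow_ne_zero _ (mul_ne_zero k1 (pow_ne_zero _ k2)) h7
    have hd10 : (d1 : ZMod p) ≠ 0 := by
      rw [Ne, ZMod.intCast_zmod_eq_zero_iff_dvd]
      rintro ⟨k, hk⟩
      have := hd p ⟨k, by rw [hdd, hk]; ring⟩
      exact (Nat.prime_iff_prime_int.1 H.pp).not_isUnit this
    have hr0 : r ≠ 0 := by
      rintro rfl
      apply hd10
      rw [hr]; ring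
    set y : ZMod p := r * (w : ZMod p) / (e : ZMod p) with hy
    have hy0 : y ≠ 0 := div_ne_zero (mul_ne_zero hr0 hw0) k2
    have hx : (y ^ 2) ^ 2 - 26 * (m : ZMod p) * y ^ 2 - 343 * (m : ZMod p) ^ 2 = 0 := by
      rw [hM1] at k3
      push_cast at k3
      rw [hr] at k3
      rw [hy]
      field_simp
      linear_combination k3
    set ρ : ZMod p := (m : ZMod p) * (-13 + 7 * δ) / 2 with hρ
    have hρ2 : 2 * ρ = (m : ZMod p) * (-13 + 7 * δ) := by rw [hρ]; field_simp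
    have hroot : ρ ^ 2 + 13 * (m : ZMod p) * ρ + 128 * (m : ZMod p) ^ 2 = 0 := by
      have n4 : (4 : ZMod p) ≠ 0 := by
        rw [show (4 : ZMod p) = 2 * 2 by norm_num]; exact mul_ne_zero n2' n2'
      apply mul_left_cancel₀ n4
      linear_combination (2 * ρ + (m : ZMod p) * (-13 + 7 * δ) + 26 * (m : ZMod p)) * hρ2
        - 49 * (m : ZMod p) ^ 2 * hδ
    apply H.root ρ hroot
    refine ⟨i * (ρ + (13 * (m : ZMod p) - y ^ 2) / 2) / y, ?_⟩
    have e1 : 2 * ((13 * (m : ZMod p) - y ^ 2) / 2) = 13 * (m : ZMod p) - y ^ 2 := by field_simp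
    set t : ZMod p := (13 * (m : ZMod p) - y ^ 2) / 2 with ht
    have e2 : -(y ^ 2) * ρ = (ρ + t) ^ 2 := by
      have n4 : (4 : ZMod p) ≠ 0 := by
        rw [show (4 : ZMod p) = 2 * 2 by norm_num]; exact mul_ne_zero n2' n2'
      apply mul_left_cancel₀ n4
      linear_combination (-(4 * ρ + 2 * t + 13 * (m : ZMod p) - y ^ 2)) * e1 - 4 * hroot - hx
    rw [div_mul_div_comm, eq_div_iff (mul_ne_zero hy0 hy0)]
    linear_combination (-1 : ZMod p) * e2 + ((ρ + t) ^ 2) * hi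
  have h3 : d ∣ -343 := by
    refine dvd_of_no_common (M := ((p * m : ℕ) : ℤ)) hdvd fun q hq hqd hqM => ?_
    rcases H.cop_case hq hqM with rfl | hqm
    · exact h2 hqd
    · exact h1 q hq hqd hqm
  have h4 := sf_pow 7 3 (by norm_num) hd (by norm_num; exact (dvd_neg.1 h3))
  have h5 : d = 1 ∨ d = -1 ∨ d = 7 ∨ d = -7 := by omega
  have hM4 : (((p * m : ℕ)) : ℤ) % 4 = 1 := by
    have h6 := H.m4
    have h7 : p % 4 = 1 := by have := H.p8; omega
    have : (p * m) % 4 = 1 := by rw [Nat.mul_mod, h6, h7]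
    omega
  rcases h5 with rfl | rfl | rfl | rfl
  · exact Or.inl rfl
  · exfalso
    refine not_neg_one hM4 (hc.of_mul_left_right) (N := N) ?_
    linear_combination h
  · exfalso
    refine not_seven hM4 (hc.of_mul_left_right) (N := N) ?_
    apply mul_left_cancel₀ (show (7 : ℤ) ≠ 0 by norm_num)
    linear_combination h
  · exact Or.inr rfl

end Pool.Agent.Y687
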